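import Pool.Agent.Lib.TU.Defs

/-!
# TU / Basic: rules for means
-/

set_option autoImplicit false

open Finset

namespace Pool.Agent.Lib.TU

theorem Bd.const (c : ℝ) : Bd (fun _ => c) := ⟨|c|, fun _ => le_rfl⟩

theorem Bd.add {f g : ℤ → ℝ} (hf : Bd f) (hg : Bd g) : Bd (fun n => f n + g n) := by
  obtain ⟨C, hC⟩ := hf
  obtain ⟨D, hD⟩ := hg
  exact ⟨C + D, fun n => (abs_add_le _ _).trans (add_le_add (hC n) (hD n))⟩

theorem Bd.mul {f g : ℤ → ℝ} (hf : Bd f) (hg : Bd g) : Bd (fun n => f n * g n) := by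
  obtain ⟨C, hC⟩ := hf
  obtain ⟨D, hD⟩ := hg
  refine ⟨C * D, fun n => ?_⟩
  rw [abs_mul]
  exact mul_le_mul (hC n) (hD n) (abs_nonneg _) ((abs_nonneg _).trans (hC n))

theorem Bd.sub {f g : ℤ → ℝ} (hf : Bd f) (hg : Bd g) : Bd (fun n => f n - g n) := by
  obtain ⟨C, hC⟩ := hf
  obtain ⟨D, hD⟩ := hg
  exact ⟨C + D, fun n => (abs_sub _ _).trans (add_le_add (hC n) (hD n))⟩

theorem Bd.comp {f : ℤ → ℝ} (hf : Bd f) (φ : ℤ → ℤ) : Bd (fun n => f (φ n)) := by
  obtain ⟨C, hC⟩ := hf
  exact ⟨C, fun n => hC _⟩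

open Classical in
theorem Bd.ind (s : ℤ → Prop) : Bd (fun n => if s n then (1 : ℝ) else 0) := by
  refine ⟨1, fun n => ?_⟩
  by_cases h : s n <;> simp [h]

theorem Bd.sum {ι : Type*} (s : Finset ι) {f : ι → ℤ → ℝ} (hf : ∀ i ∈ s, Bd (f i)) :
    Bd (fun n => ∑ i ∈ s, f i n) := by
  classical
  induction s using Finset.induction_on with
  | empty => simpa using Bd.const 0
  | insert a s ha ih =>
    simp only [sum_insert ha]
    exact (hf a (mem_insert_self _ _)).add (ih fun i hi => hf i (mem_insert_of_mem hi))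

theorem Bd.of_le {f g : ℤ → ℝ} (hg : Bd g) (h : ∀ n, |f n| ≤ |g n|) : Bd f := by
  obtain ⟨C, hC⟩ := hg
  exact ⟨C, fun n => (h n).trans (hC n)⟩

theorem Bd.abs {f : ℤ → ℝ} (hf : Bd f) : Bd (fun n => |f n|) := by
  obtain ⟨C, hC⟩ := hf
  exact ⟨C, fun n => by rw [abs_abs]; exact hC n⟩

theorem lam_abs_le (n : ℤ) : |lam n| ≤ 1 := by
  unfold lam
  by_cases h : n.natAbs = 0
  · simp [h]
  · rw [ArithmeticFunction.liouville_apply h]
    simp

theorem lam_mul (m n : ℤ) : lam (m * n) = lam m * lam n := by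
  unfold lam
  rw [Int.natAbs_mul, ArithmeticFunction.liouville_apply_mul]
  push_cast
  ring

theorem lam_sq {n : ℤ} (hn : n ≠ 0) : lam n * lam n = 1 := by
  unfold lam
  rw [ArithmeticFunction.liouville_apply (by simpa using hn)]
  push_cast
  rw [← mul_pow]
  simp

theorem lam_zero : lam 0 = 0 := by simp [lam]

theorem lam_cases {n : ℤ} (hn : n ≠ 0) : lam n = 1 ∨ lam n = -1 := mul_self_eq_one_iff.1 (lam_sq hn)

theorem lam_prime {p : ℕ} (hp : p.Prime) : lam (p : ℤ) = -1 := by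
  unfold lam
  rw [ArithmeticFunction.liouville_apply (by simpa using hp.ne_zero)]
  simp [ArithmeticFunction.cardFactors_apply_prime hp]

variable {L : (ℤ → ℝ) →ₗ[ℝ] ℝ}

theorem L_add (f g : ℤ → ℝ) : L (fun n => f n + g n) = L f + L g := map_add L f g

theorem L_sub (f g : ℤ → ℝ) : L (fun n => f n - g n) = L f - L g := map_sub L f g

theorem L_mul (c : ℝ) (f : ℤ → ℝ) : L (fun n => c * f n) = c * L f := map_smul L c f

theorem L_neg (f : ℤ → ℝ) : L (fun n => -f n) = -L f := map_neg L f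

theorem L_sum {ι : Type*} (s : Finset ι) (f : ι → ℤ → ℝ) :
    L (fun n => ∑ i ∈ s, f i n) = ∑ i ∈ s, L (f i) := by
  rw [← map_sum]
  congr 1
  ext n
  simp

theorem IsMean.mono (hL : IsMean L) {f g : ℤ → ℝ} (hf : Bd f) (hg : Bd g) (h : ∀ n, f n ≤ g n) :
    L f ≤ L g := by
  have h1 := hL.nonneg _ (hg.sub hf) (fun n => sub_nonneg.2 (h n))
  rw [L_sub] at h1
  linarith

theorem IsMean.const (hL : IsMean L) (c : ℝ) : L (fun _ => c) = c := by
  have h := L_mul (L := L) c (fun _ => 1)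
  rw [hL.one] at h
  simpa using h

theorem IsMean.le_const (hL : IsMean L) {f : ℤ → ℝ} {c : ℝ} (hf : Bd f) (h : ∀ n, f n ≤ c) : L f ≤ c := by
  rw [← hL.const c]
  exact hL.mono hf (Bd.const c) h

theorem IsMean.const_le (hL : IsMean L) {f : ℤ → ℝ} {c : ℝ} (hf : Bd f) (h : ∀ n, c ≤ f n) : c ≤ L f := by
  rw [← hL.const c]
  exact hL.mono (Bd.const c) hf h

theorem IsMean.abs_le (hL : IsMean L) {f : ℤ → ℝ} {c : ℝ} (h : ∀ n, |f n| ≤ c) : |L f| ≤ c := by
  have hf : Bd f := ⟨c, h⟩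
  rw [_root_.abs_le]
  exact ⟨hL.const_le hf fun n => (_root_.abs_le.1 (h n)).1, hL.le_const hf fun n => (_root_.abs_le.1 (h n)).2⟩

theorem IsMean.abs_le_abs (hL : IsMean L) {f : ℤ → ℝ} (hf : Bd f) : |L f| ≤ L (fun n => |f n|) := by
  rw [_root_.abs_le]
  constructor
  · rw [← L_neg]
    exact hL.mono (by simpa using (Bd.const 0).sub hf.abs) hf (fun n => neg_abs_le _)
  · exact hL.mono hf hf.abs (fun n => le_abs_self _)

theorem IsMean.shift_nat (hL : IsMean L) {f : ℤ → ℝ} (hf : Bd f) (m : ℕ) : L (fun n => f (n + m)) = L f := by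
  induction m with
  | zero => simp
  | succ m ih =>
    rw [← ih, ← hL.shift _ (hf.comp fun n => n + m)]
    congr 1
    ext n
    congr 1
    push_cast
    ring

theorem IsMean.shiftz (hL : IsMean L) {f : ℤ → ℝ} (hf : Bd f) (m : ℤ) : L (fun n => f (n + m)) = L f := by
  obtain ⟨k, rfl | rfl⟩ := m.eq_nat_or_neg
  · exact hL.shift_nat hf k
  · rw [← hL.shift_nat (hf.comp fun n => n + -(k : ℤ)) k]
    congr 1
    ext n
    congr 1
    ring

theorem pr_def (s : ℤ → Prop) [DecidablePred s] : pr L s = L (fun n => if s n then (1 : ℝ) else 0) := by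
  unfold pr
  congr 1
  ext n
  by_cases h : s n <;> simp [h]

open Classical in
theorem pr_nonneg (hL : IsMean L) (s : ℤ → Prop) : 0 ≤ pr L s := by
  refine hL.nonneg _ (Bd.ind s) fun n => ?_
  split_ifs <;> norm_num

open Classical in
theorem pr_mono (hL : IsMean L) {s t : ℤ → Prop} (h : ∀ n, s n → t n) : pr L s ≤ pr L t := by
  refine hL.mono (Bd.ind s) (Bd.ind t) fun n => ?_
  by_cases h1 : s n
  · simp [h1, h n h1]
  · simp only [if_neg h1]
    split_ifs <;> norm_num

open Classical in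
theorem pr_true (hL : IsMean L) : pr L (fun _ => True) = 1 := by
  unfold pr
  simpa using hL.one

theorem pr_le_one (hL : IsMean L) (s : ℤ → Prop) : pr L s ≤ 1 := by
  rw [← pr_true hL]
  exact pr_mono hL fun _ _ => trivial

theorem pr_congr {s t : ℤ → Prop} (h : ∀ n, s n ↔ t n) : pr L s = pr L t := by
  have : s = t := funext fun n => propext (h n)
  rw [this]

open Classical in
theorem pr_not (hL : IsMean L) (s : ℤ → Prop) : pr L (fun n => ¬ s n) = 1 - pr L s := by
  have h0 : (fun n => if ¬ s n then (1 : ℝ) else 0) = fun n => (fun _ => (1 : ℝ)) n - (fun n => if s n then (1 : ℝ) else 0) n := by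
    ext n
    by_cases h : s n <;> simp [h]
  rw [pr_def (fun n => ¬ s n), pr_def s, h0, L_sub, hL.one]

open Classical in
theorem pr_or_le (hL : IsMean L) (s t : ℤ → Prop) : pr L (fun n => s n ∨ t n) ≤ pr L s + pr L t := by
  unfold pr
  rw [← L_add]
  refine hL.mono (Bd.ind _) ((Bd.ind s).add (Bd.ind t)) fun n => ?_
  by_cases h1 : s n <;> by_cases h2 : t n <;> simp [h1, h2]

theorem pr_exists_le (hL : IsMean L) {ι : Type*} (I : Finset ι) (s : ι → ℤ → Prop) :
    pr L (fun n => ∃ i ∈ I, s i n) ≤ ∑ i ∈ I, pr L (s i) := by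
  classical
  induction I using Finset.induction_on with
  | empty =>
    have h := pr_not hL (fun _ => True)
    rw [pr_true hL] at h
    have h2 : pr L (fun n => ∃ i ∈ (∅ : Finset ι), s i n) = pr L (fun _ => ¬ True) :=
      pr_congr fun n => by simp
    rw [h2, h, sum_empty]
    norm_num
  | insert a I ha ih =>
    rw [sum_insert ha]
    refine le_trans ?_ ((pr_or_le hL (s a) (fun n => ∃ i ∈ I, s i n)).trans (add_le_add le_rfl ih))
    refine pr_mono hL fun n => ?_
    rintro ⟨i, hi, h⟩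
    rcases mem_insert.1 hi with rfl | hi
    · exact Or.inl h
    · exact Or.inr ⟨i, hi, h⟩

open Classical in
theorem pr_shift (hL : IsMean L) (s : ℤ → Prop) (m : ℤ) : pr L (fun n => s (n + m)) = pr L s :=
  hL.shiftz (Bd.ind s) m

open Classical in
/-- the mean of a function of a function with finitely many values -/
theorem L_comp {α : Type} [Fintype α] (f : ℤ → α) (φ : α → ℝ) :
    L (fun n => φ (f n)) = ∑ a, φ a * pr L (fun n => f n = a) := by
  unfold pr
  simp_rw [← L_mul]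
  rw [← L_sum]
  congr 1
  ext n
  simp

open Classical in
theorem sum_pr (hL : IsMean L) {α : Type} [Fintype α] (f : ℤ → α) :
    ∑ a, pr L (fun n => f n = a) = 1 := by
  have h := L_comp (L := L) f (fun _ => 1)
  rw [hL.one] at h
  simpa using h.symm

open Classical in
/-- marginal -/
theorem sum_pr_and {α : Type} [Fintype α] (f : ℤ → α) (s : ℤ → Prop) :
    ∑ a, pr L (fun n => f n = a ∧ s n) = pr L s := by
  unfold pr
  rw [← L_sum]
  congr 1
  ext n
  by_cases h : s n <;> simp [h]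

open Classical in
theorem pr_mul_if {f : ℤ → ℝ} {q : ℕ} (hL : IsMean L) (hf : Bd f) (hq : 0 < q) :
    L (fun n => if (q : ℤ) ∣ n then f n else 0) = L (fun n => f (q * n)) / q := by
  rw [← hL.dil _ q (hf.comp fun n => q * n) hq]
  congr 1
  ext n
  by_cases h : (q : ℤ) ∣ n
  · rw [if_pos h, if_pos h, Int.mul_ediv_cancel' h]
  · rw [if_neg h, if_neg h]

open Classical in
/-- density of a residue class -/
theorem pr_mod (hL : IsMean L) {q : ℕ} (hq : 0 < q) (a : ℤ) : pr L (fun n => (q : ℤ) ∣ n - a) = 1 / q := by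
  have h1 : pr L (fun n => (q : ℤ) ∣ n - a) = pr L (fun n => (q : ℤ) ∣ n) := by
    rw [← pr_shift hL (fun n => (q : ℤ) ∣ n) (-a)]
    exact pr_congr fun n => by rw [sub_eq_add_neg]
  rw [h1]
  rw [pr_def, pr_mul_if hL (Bd.const 1) hq, hL.one]

/-- a nonnegative function along a progression -/
theorem L_prog_le (hL : IsMean L) {f : ℤ → ℝ} (hf : Bd f) (h0 : ∀ n, 0 ≤ f n) {q : ℕ} (hq : 0 < q) (u : ℤ) :
    L (fun n => f (q * n + u)) ≤ q * L f := by
  classical
  have h1 := pr_mul_if hL (hf.comp fun n => n + u) hq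
  have h2 : L (fun n => if (q : ℤ) ∣ n then f (n + u) else 0) ≤ L (fun n => f (n + u)) := by
    refine hL.mono ((hf.comp fun n => n + u).of_le fun n => ?_) (hf.comp fun n => n + u) fun n => ?_
    · split_ifs
      · exact le_rfl
      · simp
    · split_ifs
      · exact le_rfl
      · exact h0 _
  rw [h1, hL.shiftz hf] at h2
  have hq' : (0 : ℝ) < q := by exact_mod_cast hq
  rw [div_le_iff₀ hq'] at h2
  linarith

/-- single integers have measure zero -/
theorem pr_single (hL : IsMean L) (a : ℤ) : pr L (fun n => n = a) = 0 := by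
  refine le_antisymm ?_ (pr_nonneg hL _)
  refine le_of_forall_pos_le_add fun ε hε => ?_
  obtain ⟨q, hq⟩ := exists_nat_gt (1 / ε)
  have hq0 : 0 < q := by
    have : (0 : ℝ) < q := lt_trans (by positivity) hq
    exact_mod_cast this
  have h1 : pr L (fun n => n = a) ≤ pr L (fun n => (q : ℤ) ∣ n - a) :=
    pr_mono hL fun n h => by rw [h, sub_self]; exact dvd_zero _
  rw [pr_mod hL hq0] at h1
  have h2 : (1 : ℝ) / q ≤ ε := by
    rw [div_le_iff₀ (by exact_mod_cast hq0)]
    rw [div_lt_iff₀ hε] at hq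
    linarith
  linarith

/-- a relation `F = s` which holds in the mean holds for most `n` -/
theorem pr_ne_le (hL : IsMean L) {F : ℤ → ℝ} {s ε : ℝ} (hs : s = 1 ∨ s = -1)
    (hF : ∀ n, F n = 1 ∨ F n = -1 ∨ F n = 0) (h : 1 - ε ≤ s * L F) : pr L (fun n => F n ≠ s) ≤ ε := by
  classical
  have hb : Bd F := ⟨1, fun n => by rcases hF n with h | h | h <;> rw [h] <;> norm_num⟩
  have h1 : pr L (fun n => F n ≠ s) ≤ L (fun n => 1 - s * F n) := by
    refine hL.mono (Bd.ind _) ((Bd.const 1).sub ((Bd.const s).mul hb)) fun n => ?_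
    by_cases h3 : F n = s
    · rw [if_neg (by simpa using h3), h3]
      rcases hs with rfl | rfl <;> norm_num
    · rw [if_pos h3]
      rcases hs with rfl | rfl <;> rcases hF n with h | h | h <;> rw [h] at h3 ⊢ <;> norm_num at h3 <;> norm_num
  have h2 : L (fun n => 1 - s * F n) = 1 - s * L F := by
    rw [L_sub, L_mul, hL.one]
  linarith

end Pool.Agent.Lib.TU
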