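import Pool.Agent.Lib.TU.Clos1

/-!
# TU / Clos (C2): the same in every coordinate
-/

set_option autoImplicit false

open Finset

namespace Pool.Agent.Lib.TU

private theorem clos_card_box (d N : ℕ) :
    (Fintype.piFinset (fun _ : Fin d => Finset.Icc (-(N : ℤ)) N)).card = (2 * N + 1) ^ d := by
  rw [Fintype.card_piFinset]
  simp only [Int.card_Icc, Finset.prod_const, Finset.card_univ, Fintype.card_fin]
  congr 1
  omega

theorem clos (d : ℕ) : ∀ (c : ℝ), 0 < c → ∃ (M : ℕ) (C : ℝ), 0 < M ∧ 0 ≤ C ∧ ∀ (N : ℕ) (T : ℝ → (Fin d → ℤ) → Prop), Coord d T →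
    ∀ (A : Finset (Fin d → ℤ)) (η : ℝ), 0 ≤ η → (∀ t ∈ A, T η t) → (∀ t ∈ A, ∀ i, |t i| ≤ N) →
    c * (2 * N + 1 : ℝ) ^ d ≤ (A.card : ℝ) → ∀ z : Fin d → ℤ, (∀ i, M * |z i| ≤ N) → T (C * η) (fun i => M * z i) := by
  classical
  induction d with
  | zero =>
    intro c hc
    refine ⟨1, 1, one_pos, zero_le_one, ?_⟩
    intro N T _ A η _ hAT _ hdens z _
    have h1 : 0 < A.card := by
      have : (0 : ℝ) < (A.card : ℝ) := lt_of_lt_of_le (by simpa using hc) hdens
      exact_mod_cast this
    obtain ⟨u, hu⟩ := Finset.card_pos.mp h1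
    have h2 : (fun i => ((1 : ℕ) : ℤ) * z i) = u := Subsingleton.elim _ _
    rw [h2, one_mul]
    exact hAT u hu
  | succ d ih =>
    intro c hc
    obtain ⟨M1, C1, hM1, hC1, H1⟩ := clos1 (c / 2) (by positivity)
    obtain ⟨M2, C2, hM2, hC2, H2⟩ := ih (c / 2) (by positivity)
    refine ⟨M1 * M2, C2 * C1, by positivity, by positivity, ?_⟩
    intro N T hT A η hη hAT hAN hAc z hz
    set F : (Fin d → ℤ) → Finset ℤ := fun u => (Finset.Icc (-(N : ℤ)) N).filter
      (fun x => (Fin.cons x u : Fin (d + 1) → ℤ) ∈ A) with hF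
    set bx : Finset (Fin d → ℤ) := Fintype.piFinset (fun _ : Fin d => Finset.Icc (-(N : ℤ)) N)
      with hbx
    have hmem : ∀ u : Fin d → ℤ, u ∈ bx ↔ ∀ i, |u i| ≤ N := by
      intro u
      simp only [hbx, Fintype.mem_piFinset, Finset.mem_Icc, abs_le]
    have hfib : A.card ≤ ∑ u ∈ bx, (F u).card := by
      rw [Finset.card_eq_sum_card_fiberwise (f := fun t => Fin.tail t) (t := bx)]
      · apply Finset.sum_le_sum
        intro u _
        apply Finset.card_le_card_of_injOn (fun t => t 0)
        · intro v hv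
          rw [Finset.mem_coe, Finset.mem_filter] at hv
          obtain ⟨hv1, hv3⟩ := hv
          rw [Finset.mem_coe, hF, Finset.mem_filter]
          refine ⟨?_, ?_⟩
          · rw [Finset.mem_Icc]; exact abs_le.mp (hAN v hv1 0)
          · rw [← hv3, Fin.cons_self_tail]; exact hv1
        · intro v hv w hw hvw
          rw [Finset.mem_coe, Finset.mem_filter] at hv hw
          have h1 : Fin.tail v = Fin.tail w := hv.2.trans hw.2.symm
          have h2 : v 0 = w 0 := hvw
          rw [← Fin.cons_self_tail v, ← Fin.cons_self_tail w, h1, h2]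
      · intro v hv
        rw [Finset.mem_coe] at hv
        rw [Finset.mem_coe, hmem]
        intro i
        exact hAN v hv i.succ
    set B : Finset (Fin d → ℤ) := bx.filter
      (fun u => (c / 2) * (2 * N + 1) ≤ ((F u).card : ℝ)) with hB
    have hFle : ∀ u, ((F u).card : ℝ) ≤ 2 * N + 1 := by
      intro u
      have h1 : (F u).card ≤ 2 * N + 1 := by
        calc (F u).card ≤ (Finset.Icc (-(N : ℤ)) N).card := Finset.card_filter_le _ _
          _ = 2 * N + 1 := by rw [Int.card_Icc]; omega
      exact_mod_cast h1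
    have hN1 : (0 : ℝ) < 2 * N + 1 := by positivity
    have hBc : (c / 2) * (2 * N + 1) ^ d ≤ (B.card : ℝ) := by
      have h1 : (A.card : ℝ) ≤ ∑ u ∈ bx, ((F u).card : ℝ) := by exact_mod_cast hfib
      have h2 : ∑ u ∈ bx, ((F u).card : ℝ) ≤
          ∑ u ∈ bx, ((if (c / 2) * (2 * N + 1) ≤ ((F u).card : ℝ) then (2 * N + 1 : ℝ) else 0)
            + (c / 2) * (2 * N + 1)) := by
        apply Finset.sum_le_sum
        intro u _
        split_ifs with h
        · have : 0 ≤ (c / 2) * (2 * N + 1) := by positivity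
          linarith [hFle u]
        · push Not at h; linarith
      rw [Finset.sum_add_distrib, ← Finset.sum_filter, Finset.sum_const, Finset.sum_const, hbx,
        clos_card_box] at h2
      simp only [nsmul_eq_mul] at h2
      push_cast at h2
      have h3 : c * (2 * N + 1) ^ (d + 1) ≤ (B.card : ℝ) * (2 * N + 1)
          + (2 * N + 1) ^ d * (c / 2 * (2 * N + 1)) := le_trans hAc (le_trans h1 h2)
      have h4 : (c / 2 * (2 * N + 1) ^ d) * (2 * N + 1) ≤ (B.card : ℝ) * (2 * N + 1) := by
        have : c * (2 * (N : ℝ) + 1) ^ (d + 1) = (c / 2 * (2 * N + 1) ^ d) * (2 * N + 1)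
          + (2 * N + 1) ^ d * (c / 2 * (2 * N + 1)) := by ring
        linarith
      exact le_of_mul_le_mul_right h4 hN1
    have hz' : ∀ i, (M1 : ℤ) * (M2 * |z i|) ≤ N := by
      intro i
      have h0 := hz i
      push_cast at h0
      rw [← mul_assoc]
      exact h0
    -- the one dimensional lemma
    have hline : ∀ u ∈ B, T (C1 * η) (Fin.cons ((M1 : ℤ) * ((M2 : ℤ) * z 0)) u : Fin (d + 1) → ℤ) := by
      intro u hu
      rw [hB, Finset.mem_filter] at hu
      refine H1 N (fun a x => T a (Fin.cons x u : Fin (d + 1) → ℤ)) ?_ ?_ ?_ (F u) η hη ?_ ?_ hu.2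
        ((M2 : ℤ) * z 0) ?_
      · intro a b x hab hx; exact hT.mono _ _ _ hab hx
      · exact hT.zero _ 0 (by simp)
      · intro a b x y hx hy
        have := hT.sub a b (Fin.cons x u) (Fin.cons y u) 0 (by
          intro l hl
          obtain ⟨l', rfl⟩ := Fin.exists_succ_eq.mpr hl
          simp) hx hy
        rw [Fin.cons_zero, Fin.cons_zero, Fin.update_cons_zero] at this
        exact this
      · intro x hx
        exact hAT _ (Finset.mem_filter.mp hx).2
      · intro x hx
        exact abs_le.mpr (Finset.mem_Icc.mp (Finset.mem_filter.mp hx).1)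
      · rw [abs_mul, Nat.abs_cast]
        exact hz' 0
    -- the induction hypothesis
    have hfin := H2 N (fun a u => T a (Fin.cons ((M1 : ℤ) * ((M2 : ℤ) * z 0)) u : Fin (d + 1) → ℤ))
      ⟨?_, ?_, ?_⟩ B (C1 * η) (by positivity) hline ?_ hBc (fun i => (M1 : ℤ) * z i.succ) ?_
    · have h1 : (Fin.cons ((M1 : ℤ) * ((M2 : ℤ) * z 0))
        (fun i => (M2 : ℤ) * ((M1 : ℤ) * z i.succ)) : Fin (d + 1) → ℤ) =
        fun i => ((M1 * M2 : ℕ) : ℤ) * z i := by
        funext i
        refine Fin.cases ?_ ?_ i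
        · simp only [Fin.cons_zero]; push_cast; ring
        · intro i; simp only [Fin.cons_succ]; push_cast; ring
      rw [← h1, mul_assoc]
      exact hfin
    · intro a b u hab hu
      exact hT.mono _ _ _ hab hu
    · intro u i hui
      exact hT.zero _ i.succ (by rw [Fin.cons_succ]; exact hui)
    · intro a b u u' i huu hu hu'
      have := hT.sub a b _ _ i.succ (by
        intro l hl
        refine Fin.cases (fun _ => by simp) (fun l' hl' => ?_) l hl
        simp only [Fin.cons_succ]
        exact huu l' (fun h => hl' (by rw [h]))) hu hu'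
      rw [Fin.cons_succ, Fin.cons_succ, ← Fin.cons_update] at this
      exact this
    · intro u hu
      exact (hmem u).mp (Finset.mem_filter.mp hu).1
    · intro i
      rw [abs_mul, Nat.abs_cast]
      calc (M2 : ℤ) * ((M1 : ℤ) * |z i.succ|) = (M1 : ℤ) * (M2 * |z i.succ|) := by ring
        _ ≤ N := hz' i.succ

end Pool.Agent.Lib.TU
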