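import Pool.Agent.Lib.TU.Defs

/-!
# TU / Clos1 (C1): bounded sums of a dense set contain all multiples of a constant
PROOF. `K = ⌊2/c⌋ + 1`, `M = K!`. The translates `j z + A`, `0 ≤ j ≤ K`, lie in `[-2N, 2N]` and their cardinalities add up to more than
`4N + 1`: two of them meet, so `(j' - j) z ∈ A - A` with `1 ≤ j' - j ≤ K`: `T (2 η)`. Multiples by repeated addition. `C = 2 K!`.
-/

set_option autoImplicit false

open Finset

namespace Pool.Agent.Lib.TU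

/-- multiples by repeated addition -/
private theorem mul_rep (T : ℝ → ℤ → Prop) (h0 : T 0 0)
    (hs : ∀ a b t t', T a t → T b t' → T (a + b) (t - t')) (a : ℝ) (x : ℤ) (hx : T a x) :
    ∀ n : ℕ, T (n * a) (n * x) := by
  intro n
  induction n with
  | zero => simpa using h0
  | succ n ih =>
    have h1 : T (0 + a) (0 - x) := hs 0 a 0 x h0 hx
    have h2 : T (n * a + (0 + a)) (n * x - (0 - x)) := hs _ _ _ _ ih h1
    have e1 : (n * a + (0 + a) : ℝ) = ((n + 1 : ℕ) : ℝ) * a := by push_cast; ring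
    have e2 : ((n : ℤ) * x - (0 - x)) = ((n + 1 : ℕ) : ℤ) * x := by push_cast; ring
    rw [e1, e2] at h2
    exact h2

/-- two translates meet -/
private theorem meet (c : ℝ) (hc : 0 < c) (K : ℕ) (hK : 2 / c ≤ (K : ℝ) + 1) (N : ℕ) (A : Finset ℤ)
    (hA : ∀ t ∈ A, |t| ≤ N) (hcard : c * (2 * N + 1) ≤ (A.card : ℝ)) (z : ℤ) (hz : K * |z| ≤ N) :
    ∃ j a b, 1 ≤ j ∧ j ≤ K ∧ a ∈ A ∧ b ∈ A ∧ ((j : ℕ) : ℤ) * z = a - b := by
  classical
  have hmaps : ∀ p ∈ (range (K + 1)) ×ˢ A,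
      (fun p : ℕ × ℤ => (p.1 : ℤ) * z + p.2) p ∈ Icc (-(2 * N : ℤ)) (2 * N : ℤ) := by
    intro p hp
    rw [mem_product, mem_range] at hp
    have h1 : |(p.1 : ℤ) * z| ≤ N := by
      rw [abs_mul, Nat.abs_cast]
      refine le_trans ?_ hz
      have : (p.1 : ℤ) ≤ K := by exact_mod_cast Nat.lt_succ_iff.mp hp.1
      exact mul_le_mul_of_nonneg_right this (abs_nonneg _)
    have h2 := hA p.2 hp.2
    rw [abs_le] at h1 h2
    rw [mem_Icc]
    constructor
    · show -(2 * N : ℤ) ≤ (p.1 : ℤ) * z + p.2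
      linarith [h1.1, h2.1]
    · show (p.1 : ℤ) * z + p.2 ≤ (2 * N : ℤ)
      linarith [h1.2, h2.2]
  have hlt : (Icc (-(2 * N : ℤ)) (2 * N : ℤ)).card < ((range (K + 1)) ×ˢ A).card := by
    rw [card_product, card_range, Int.card_Icc]
    have h1 : (2 * (N : ℤ) + 1 - -(2 * N)).toNat = 4 * N + 1 := by omega
    rw [h1]
    have h2 : ((4 * N + 1 : ℕ) : ℝ) < (((K + 1) * A.card : ℕ) : ℝ) := by
      push_cast
      have h3 : 2 ≤ ((K : ℝ) + 1) * c := by
        rwa [div_le_iff₀ hc] at hK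
      have h4 : ((K : ℝ) + 1) * (c * (2 * N + 1)) ≤ ((K : ℝ) + 1) * A.card :=
        mul_le_mul_of_nonneg_left hcard (by positivity)
      have h5 : 2 * (2 * (N : ℝ) + 1) ≤ ((K : ℝ) + 1) * c * (2 * N + 1) :=
        mul_le_mul_of_nonneg_right h3 (by positivity)
      nlinarith
    exact_mod_cast h2
  obtain ⟨p, hp, q, hq, hne, heq⟩ := exists_ne_map_eq_of_card_lt_of_maps_to hlt hmaps
  rw [mem_product, mem_range] at hp hq
  have heq' : (p.1 : ℤ) * z + p.2 = (q.1 : ℤ) * z + q.2 := heq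
  rcases lt_trichotomy p.1 q.1 with h | h | h
  · refine ⟨q.1 - p.1, p.2, q.2, by omega, by omega, hp.2, hq.2, ?_⟩
    rw [Nat.cast_sub h.le]
    linarith
  · exfalso
    apply hne
    rw [h] at heq'
    exact Prod.ext h (by linarith)
  · refine ⟨p.1 - q.1, q.2, p.2, by omega, by omega, hq.2, hp.2, ?_⟩
    rw [Nat.cast_sub h.le]
    linarith

theorem clos1 (c : ℝ) (hc : 0 < c) : ∃ (M : ℕ) (C : ℝ), 0 < M ∧ 0 ≤ C ∧ ∀ (N : ℕ) (T : ℝ → ℤ → Prop),
    (∀ a b t, a ≤ b → T a t → T b t) → T 0 0 → (∀ a b t t', T a t → T b t' → T (a + b) (t - t')) →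
    ∀ (A : Finset ℤ) (η : ℝ), 0 ≤ η → (∀ t ∈ A, T η t) → (∀ t ∈ A, |t| ≤ N) → c * (2 * N + 1) ≤ (A.card : ℝ) →
    ∀ z : ℤ, M * |z| ≤ N → T (C * η) (M * z) := by
  set K : ℕ := ⌊2 / c⌋₊ + 1 with hKdef
  have hK : 2 / c ≤ (K : ℝ) + 1 := by
    have := (Nat.lt_floor_add_one (2 / c)).le
    rw [hKdef]
    push_cast
    linarith
  refine ⟨K.factorial, 2 * K.factorial, Nat.factorial_pos K, by positivity, ?_⟩
  intro N T hmono h0 hs A η hη hT hA hcard z hz
  have hKz : (K : ℤ) * |z| ≤ N := by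
    refine le_trans ?_ hz
    refine mul_le_mul_of_nonneg_right ?_ (abs_nonneg _)
    exact_mod_cast Nat.self_le_factorial K
  obtain ⟨j, a, b, hj1, hjK, ha, hb, hab⟩ := meet c hc K hK N A hA hcard z hKz
  have hTj : T (η + η) ((j : ℤ) * z) := by
    rw [hab]
    exact hs _ _ _ _ (hT a ha) (hT b hb)
  obtain ⟨m, hm⟩ := Nat.dvd_factorial hj1 hjK
  have h1 := mul_rep T h0 hs (η + η) _ hTj m
  have e1 : (m : ℤ) * ((j : ℤ) * z) = ((K.factorial : ℕ) : ℤ) * z := by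
    rw [hm]
    push_cast
    ring
  rw [e1] at h1
  refine hmono _ _ _ ?_ h1
  have h2 : (m : ℝ) ≤ K.factorial := by
    have : m ≤ K.factorial := by
      rw [hm]
      exact Nat.le_mul_of_pos_left m hj1
    exact_mod_cast this
  have h3 : (m : ℝ) * (η + η) ≤ K.factorial * (η + η) :=
    mul_le_mul_of_nonneg_right h2 (by linarith)
  linarith

end Pool.Agent.Lib.TU
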