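import Pool.Agent.Lib.TU.Defs
import Pool.Agent.Lib.DN.Pnt

/-!
# TU / Cnt (P1): the primes in `(H/2, H]` (prime number theorem or Chebyshev, e.g. DN/Pnt, SW; `primorial_le_4_pow`)
-/

set_option autoImplicit false

open Finset

namespace Pool.Agent.Lib.TU

theorem card_PP : ∃ c : ℝ, 0 < c ∧ ∃ H0 : ℕ, ∀ H : ℕ, H0 ≤ H → c * H / Real.log H ≤ ((PP H).card : ℝ) := by
  obtain ⟨C, hC, hθ⟩ := Pool.Agent.Lib.DN.pnt_theta
  refine ⟨1 / 8, by norm_num, max 4 ⌈Real.exp (2 + 32 * C)⌉₊, fun H hH => ?_⟩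
  have hH4 : 4 ≤ H := (le_max_left _ _).trans hH
  have hHe : Real.exp (2 + 32 * C) ≤ H :=
    (Nat.le_ceil _).trans (by exact_mod_cast (le_max_right _ _).trans hH)
  have hH4r : (4 : ℝ) ≤ H := by exact_mod_cast hH4
  have hH0 : (0 : ℝ) < H := by linarith
  set ℓ := Real.log H with hℓ
  have hℓ2 : 2 + 32 * C ≤ ℓ := by
    rw [hℓ, Real.le_log_iff_exp_le hH0]; exact hHe
  have hℓ0 : 0 < ℓ := by linarith
  set ℓ' := Real.log ((H : ℝ) / 2) with hℓ'
  have hlog2 : Real.log 2 < 0.7 := lt_trans Real.log_two_lt_d9 (by norm_num)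
  have hℓℓ' : ℓ' = ℓ - Real.log 2 := by
    rw [hℓ', hℓ, Real.log_div hH0.ne' (by norm_num)]
  have hℓ'1 : 1 + 32 * C ≤ ℓ' := by rw [hℓℓ']; linarith
  have hℓ'0 : 0 < ℓ' := by linarith
  have h1 := hθ H (by linarith)
  have h2 := hθ ((H : ℝ) / 2) (by linarith)
  rw [Nat.floor_natCast] at h1
  have hfl : ⌊(H : ℝ) / 2⌋₊ = H / 2 := by
    have := Nat.floor_div_ofNat (H : ℝ) 2
    simpa using this
  rw [hfl] at h2
  -- error terms
  have e1 : C * H / ℓ ^ 2 ≤ H / 8 := by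
    rw [div_le_div_iff₀ (by positivity) (by norm_num)]
    have : C * 8 ≤ ℓ ^ 2 := by nlinarith
    nlinarith
  have e2 : C * ((H : ℝ) / 2) / ℓ' ^ 2 ≤ H / 8 := by
    rw [div_le_div_iff₀ (by positivity) (by norm_num)]
    have : C * 4 ≤ ℓ' ^ 2 := by nlinarith
    nlinarith
  have a1 := (abs_le.1 h1).1
  have a2 := (abs_le.1 h2).2
  -- the sum over the primes in (H/2, H]
  have hsplit : (Icc 1 H).filter Nat.Prime = (Icc 1 (H / 2)).filter Nat.Prime ∪ PP H := by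
    ext p
    simp only [mem_filter, mem_Icc, mem_union, PP, mem_Ioc]
    constructor
    · rintro ⟨⟨h1, h2⟩, hp⟩
      by_cases h : p ≤ H / 2
      · exact Or.inl ⟨⟨h1, h⟩, hp⟩
      · exact Or.inr ⟨⟨by omega, h2⟩, hp⟩
    · rintro (⟨⟨h1, h2⟩, hp⟩ | ⟨⟨h1, h2⟩, hp⟩)
      · exact ⟨⟨h1, by omega⟩, hp⟩
      · exact ⟨⟨by omega, h2⟩, hp⟩
  have hdisj : Disjoint ((Icc 1 (H / 2)).filter Nat.Prime) (PP H) := by
    rw [Finset.disjoint_left]
    intro p hp hq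
    simp only [mem_filter, mem_Icc, PP, mem_Ioc] at hp hq
    omega
  rw [hsplit, sum_union hdisj] at a1
  have hsum : ∑ p ∈ PP H, Real.log p ≤ ((PP H).card : ℝ) * ℓ := by
    rw [← nsmul_eq_mul]
    refine sum_le_card_nsmul _ _ _ fun p hp => ?_
    simp only [PP, mem_filter, mem_Ioc] at hp
    exact Real.log_le_log (by exact_mod_cast hp.2.pos) (by exact_mod_cast hp.1.2)
  rw [div_le_iff₀ hℓ0]
  linarith

theorem log_prod_PP (H : ℕ) : Real.log (∏ p ∈ PP H, p : ℕ) ≤ 2 * H := by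
  have h1 : (∏ p ∈ PP H, p) ≤ primorial H := by
    unfold primorial
    refine Finset.prod_le_prod_of_subset_of_one_le' ?_ ?_
    · intro p hp
      simp only [PP, mem_filter, mem_Ioc, mem_range] at hp ⊢
      exact ⟨by omega, hp.2⟩
    · intro p hp _
      exact (mem_filter.1 hp).2.one_lt.le
  have h2 : (∏ p ∈ PP H, p) ≤ 4 ^ H := h1.trans (primorial_le_four_pow H)
  have h0 : 0 < ∏ p ∈ PP H, p := Finset.prod_pos fun p hp => (mem_filter.1 hp).2.pos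
  have h3 : Real.log (∏ p ∈ PP H, p : ℕ) ≤ Real.log ((4 : ℝ) ^ H) :=
    Real.log_le_log (by exact_mod_cast h0) (by exact_mod_cast h2)
  have h4 : Real.log (4 : ℝ) ≤ 2 := by
    rw [show (4 : ℝ) = 2 ^ 2 by norm_num, Real.log_pow]
    have := Real.log_two_lt_d9
    push_cast
    linarith
  rw [Real.log_pow] at h3
  have h5 : (H : ℝ) * Real.log 4 ≤ H * 2 := mul_le_mul_of_nonneg_left h4 (Nat.cast_nonneg H)
  linarith

end Pool.Agent.Lib.TU
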