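import Pool.Agent.Lib.TU.Basic

/-!
# TU / CubC (C3'): cube relations are a group in each coordinate
-/

set_option autoImplicit false

open Finset

namespace Pool.Agent.Lib.TU

/-- the product over the face `i ∉ S` -/
private noncomputable def faceC {d : ℕ} (g : ℤ → ℝ) (c t : Fin d → ℤ) (i : Fin d) (n : ℤ) : ℝ :=
  ∏ S ∈ (univ : Finset (Finset (Fin d))).filter (fun S => i ∉ S), g (n + ∑ j ∈ S, t j * c j)

private theorem cube_eq_faceC {d : ℕ} (g : ℤ → ℝ) (c t : Fin d → ℤ) (i : Fin d) (n : ℤ) :
    cube g c t n = faceC g c t i n * faceC g c t i (n + t i * c i) := by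
  unfold cube faceC
  rw [← Finset.prod_filter_mul_prod_filter_not (univ : Finset (Finset (Fin d))) (fun S => i ∉ S)]
  congr 1
  refine Finset.prod_nbij' (fun S => S.erase i) (fun S => insert i S) ?_ ?_ ?_ ?_ ?_
  · intro S hS
    simp
  · intro S hS
    simp
  · intro S hS
    have h : i ∈ S := by simpa using hS
    exact insert_erase h
  · intro S hS
    have h : i ∉ S := by simpa using hS
    exact erase_insert h
  · intro S hS
    have h : i ∈ S := by simpa using hS
    congr 1
    rw [← Finset.add_sum_erase S (fun j => t j * c j) h]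
    ring

private theorem faceC_congr {d : ℕ} (g : ℤ → ℝ) (c t t' : Fin d → ℤ) (i : Fin d)
    (h : ∀ j, j ≠ i → t j = t' j) (n : ℤ) : faceC g c t i n = faceC g c t' i n := by
  unfold faceC
  refine Finset.prod_congr rfl fun S hS => ?_
  have hi : i ∉ S := by simpa using hS
  congr 2
  refine Finset.sum_congr rfl fun j hj => ?_
  rw [h j (fun e => hi (e ▸ hj))]

private theorem prodC_cases {ι : Type*} (s : Finset ι) (f : ι → ℝ)
    (hf : ∀ a ∈ s, f a = 1 ∨ f a = -1 ∨ f a = 0) :
    ∏ a ∈ s, f a = 1 ∨ ∏ a ∈ s, f a = -1 ∨ ∏ a ∈ s, f a = 0 := by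
  classical
  induction s using Finset.induction_on with
  | empty => simp
  | insert a s ha ih =>
    rw [prod_insert ha]
    rcases hf a (mem_insert_self _ _) with h | h | h <;>
      rcases ih (fun b hb => hf b (mem_insert_of_mem hb)) with h' | h' | h' <;>
        rw [h, h'] <;> norm_num

theorem cubc {L : (ℤ → ℝ) →ₗ[ℝ] ℝ} (hL : IsMean L) {d : ℕ} (g : ℤ → ℝ) (hg : ∀ n, g n = 1 ∨ g n = -1 ∨ g n = 0)
    (h0 : pr L (fun n => g n = 0) = 0) (c : Fin d → ℤ) : Coord d (fun η t => pr L (fun n => cube g c t n ≠ 1) ≤ η) := by
  have hface : ∀ t i n, faceC g c t i n = 1 ∨ faceC g c t i n = -1 ∨ faceC g c t i n = 0 := by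
    intro t i n
    exact prodC_cases _ _ (fun S _ => hg _)
  refine ⟨fun a b t hab h => le_trans h hab, ?_, ?_⟩
  · intro t i hti
    have h1 : pr L (fun n => cube g c t n ≠ 1) ≤
        pr L (fun n => ∃ S ∈ (univ : Finset (Finset (Fin d))), g (n + ∑ j ∈ S, t j * c j) = 0) := by
      refine pr_mono hL fun n hn => ?_
      by_contra hcon
      push Not at hcon
      apply hn
      rw [cube_eq_faceC g c t i n, hti, zero_mul, add_zero]
      have hne : faceC g c t i n ≠ 0 := by
        unfold faceC
        exact Finset.prod_ne_zero_iff.2 fun S _ => hcon S (mem_univ _)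
      rcases hface t i n with h | h | h
      · rw [h]; norm_num
      · rw [h]; norm_num
      · exact absurd h hne
    refine h1.trans ((pr_exists_le hL _ _).trans ?_)
    refine Finset.sum_nonpos fun S _ => ?_
    rw [pr_shift hL (fun n => g n = 0) (∑ j ∈ S, t j * c j), h0]
  · intro a b t t' i htt ha hb
    have h1 : pr L (fun n => cube g c (Function.update t i (t i - t' i)) n ≠ 1) ≤
        pr L (fun n => cube g c t (n + -(t' i * c i)) ≠ 1 ∨ cube g c t' (n + -(t' i * c i)) ≠ 1) := by
      refine pr_mono hL fun n hn => ?_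
      by_contra hcon
      push Not at hcon
      obtain ⟨e1, e2⟩ := hcon
      apply hn
      rw [cube_eq_faceC g c _ i n, Function.update_self,
        faceC_congr g c (Function.update t i (t i - t' i)) t i
          (fun j hj => by rw [Function.update_of_ne hj]) n,
        faceC_congr g c (Function.update t i (t i - t' i)) t i
          (fun j hj => by rw [Function.update_of_ne hj]) _]
      rw [cube_eq_faceC g c t i] at e1
      rw [cube_eq_faceC g c t' i] at e2
      rw [← faceC_congr g c t t' i htt, ← faceC_congr g c t t' i htt] at e2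
      rw [show n + -(t' i * c i) + t' i * c i = n by ring] at e2
      rw [show n + -(t' i * c i) + t i * c i = n + (t i - t' i) * c i by ring] at e1
      rcases hface t i (n + -(t' i * c i)) with h | h | h
      · rw [h, one_mul] at e1 e2
        rw [e1, e2]; norm_num
      · rw [h] at e1 e2
        have e1' : faceC g c t i (n + (t i - t' i) * c i) = -1 := by linarith
        have e2' : faceC g c t i n = -1 := by linarith
        rw [e1', e2']; norm_num
      · rw [h, zero_mul] at e1
        exact absurd e1 (by norm_num)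
    refine h1.trans ((pr_or_le hL _ _).trans ?_)
    rw [pr_shift hL (fun n => cube g c t n ≠ 1) (-(t' i * c i)),
      pr_shift hL (fun n => cube g c t' n ≠ 1) (-(t' i * c i))]
    exact add_le_add ha hb

end Pool.Agent.Lib.TU
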