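import Pool.Agent.Lib.TU.Defs

/-!
# TU / CubL (P4): lower bound for the number of cubes in a set of integers
Induction on `d`: a cube of dimension `d + 1` with first side `s` in `X` is a cube of dimension `d`
in `X ∩ (X - s)`; power mean.
-/

set_option autoImplicit false

open Finset

namespace Pool.Agent.Lib.TU

/-- the cubes with base in `[1, N]`, sides in `[-N, N]` and vertices in `X` -/
noncomputable def cubes (d : ℕ) (N : ℕ) (X : Finset ℤ) : Finset (ℤ × (Fin d → ℤ)) :=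
  ((Icc (1 : ℤ) N) ×ˢ (Fintype.piFinset fun _ : Fin d => Icc (-(N : ℤ)) N)).filter
    (fun q => ∀ S : Finset (Fin d), q.1 + ∑ i ∈ S, q.2 i ∈ X)

private theorem sum_cons {d : ℕ} (s : ℤ) (t : Fin d → ℤ) (S : Finset (Fin (d + 1))) :
    ∑ i ∈ S, (Fin.cons s t : Fin (d + 1) → ℤ) i =
      (if (0 : Fin (d + 1)) ∈ S then s else 0) + ∑ j ∈ univ.filter (fun j : Fin d => j.succ ∈ S), t j := by
  classical
  have h1 : ∑ i ∈ S, (Fin.cons s t : Fin (d + 1) → ℤ) i =
      ∑ i : Fin (d + 1), if i ∈ S then (Fin.cons s t : Fin (d + 1) → ℤ) i else 0 := by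
    rw [← Finset.sum_filter]
    congr 1
    ext i
    simp
  rw [h1, Fin.sum_univ_succ, Finset.sum_filter]
  simp only [Fin.cons_zero, Fin.cons_succ]

private theorem step (d N : ℕ) (X : Finset ℤ) :
    ∑ s ∈ Icc (-(N : ℤ)) N, (cubes d N (X.filter fun x => x + s ∈ X)).card ≤ (cubes (d + 1) N X).card := by
  classical
  have h1 : ∀ q ∈ cubes (d + 1) N X, q.2 0 ∈ Icc (-(N : ℤ)) N := by
    intro q hq
    simp only [cubes, mem_filter, mem_product, Fintype.mem_piFinset] at hq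
    exact hq.1.2 0
  rw [Finset.card_eq_sum_card_fiberwise h1]
  refine Finset.sum_le_sum fun s hs => ?_
  refine Finset.card_le_card_of_injOn (fun q => (q.1, (Fin.cons s q.2 : Fin (d + 1) → ℤ))) ?_ ?_
  · intro q hq
    have hq' := Finset.mem_coe.1 hq
    simp only [cubes, mem_filter, mem_product, Fintype.mem_piFinset] at hq'
    obtain ⟨⟨h2, h3⟩, h4⟩ := hq'
    rw [Finset.mem_coe, mem_filter]
    refine ⟨?_, by simp⟩
    simp only [cubes, mem_filter, mem_product, Fintype.mem_piFinset]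
    refine ⟨⟨h2, ?_⟩, ?_⟩
    · intro i
      refine Fin.cases ?_ (fun j => ?_) i
      · simpa using hs
      · simpa using h3 j
    · intro S
      rw [sum_cons]
      have h5 := h4 (univ.filter (fun j : Fin d => j.succ ∈ S))
      by_cases h0 : (0 : Fin (d + 1)) ∈ S
      · rw [if_pos h0]
        have h6 := h5.2
        have h7 : q.1 + (s + ∑ j ∈ univ.filter (fun j : Fin d => j.succ ∈ S), q.2 j) =
            q.1 + ∑ j ∈ univ.filter (fun j : Fin d => j.succ ∈ S), q.2 j + s := by ring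
        rw [h7]
        exact h6
      · rw [if_neg h0, zero_add]
        exact h5.1
  · rintro ⟨n, t⟩ - ⟨n', t'⟩ - h
    simp only [Prod.mk.injEq] at h
    obtain ⟨h2, h3⟩ := h
    have h4 := (Fin.cons_injective2 (α := fun _ => ℤ) h3).2
    rw [h2, h4]

private theorem pairs (N : ℕ) (X : Finset ℤ) (hX : ∀ x ∈ X, 1 ≤ x ∧ x ≤ N) :
    ∑ s ∈ Icc (-(N : ℤ)) N, (X.filter fun x => x + s ∈ X).card = X.card * X.card := by
  classical
  rw [← Finset.card_product]
  have h1 : ∀ q ∈ X ×ˢ X, q.2 - q.1 ∈ Icc (-(N : ℤ)) N := by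
    rintro ⟨x, y⟩ hq
    rw [mem_product] at hq
    have hx := hX x hq.1
    have hy := hX y hq.2
    rw [mem_Icc]
    constructor <;> omega
  rw [Finset.card_eq_sum_card_fiberwise h1]
  refine Finset.sum_congr rfl fun s _ => ?_
  refine Finset.card_bij (fun x _ => (x, x + s)) ?_ ?_ ?_
  · intro x hx
    rw [mem_filter] at hx
    rw [mem_filter, mem_product]
    exact ⟨⟨hx.1, hx.2⟩, by simp⟩
  · intro x _ y _ h
    exact (Prod.mk.inj h).1
  · rintro ⟨x, y⟩ hq
    rw [mem_filter, mem_product] at hq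
    have h2 : y = x + s := by
      have := hq.2
      simp only at this
      omega
    subst h2
    exact ⟨x, by rw [mem_filter]; exact ⟨hq.1.1, hq.1.2⟩, rfl⟩

theorem card_cubes (d : ℕ) : ∀ (N : ℕ) (X : Finset ℤ), 0 < N → (∀ x ∈ X, 1 ≤ x ∧ x ≤ N) →
    (X.card : ℝ) ^ (2 ^ d) ≤ (3 * N : ℝ) ^ (2 ^ d - d - 1) * ((cubes d N X).card : ℝ) := by
  classical
  induction d with
  | zero =>
    intro N X hN hX
    simp only [pow_zero, pow_one, Nat.sub_zero, Nat.sub_self, one_mul]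
    have h1 : X.card ≤ (cubes 0 N X).card := by
      refine Finset.card_le_card_of_injOn (fun x => (x, Fin.elim0)) ?_ ?_
      · intro x hx
        have hx' := Finset.mem_coe.1 hx
        rw [Finset.mem_coe]
        simp only [cubes, mem_filter, mem_product, Fintype.mem_piFinset]
        refine ⟨⟨mem_Icc.2 (hX x hx'), fun i => i.elim0⟩, fun S => ?_⟩
        have hS : S = ∅ := by
          ext i
          exact i.elim0
        rw [hS]
        simpa using hx'
      · intro x _ y _ h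
        exact (Prod.mk.inj h).1
    exact_mod_cast h1
  | succ d ih =>
    intro N X hN hX
    have hN' : (1 : ℝ) ≤ N := by exact_mod_cast hN
    set Y : ℤ → Finset ℤ := fun s => X.filter fun x => x + s ∈ X with hY
    have h1 : ∀ s, ((Y s).card : ℝ) ^ (2 ^ d) ≤ (3 * N : ℝ) ^ (2 ^ d - d - 1) * ((cubes d N (Y s)).card : ℝ) :=
      fun s => ih N (Y s) hN fun x hx => hX x (mem_filter.1 hx).1
    have h2 : (∑ s ∈ Icc (-(N : ℤ)) N, ((cubes d N (Y s)).card : ℝ)) ≤ ((cubes (d + 1) N X).card : ℝ) := by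
      exact_mod_cast step d N X
    have h3 : ∑ s ∈ Icc (-(N : ℤ)) N, ((Y s).card : ℝ) = (X.card : ℝ) ^ 2 := by
      rw [sq]
      exact_mod_cast pairs N X hX
    have h4 := pow_sum_div_card_le_sum_pow (s := Icc (-(N : ℤ)) N) (f := fun s => ((Y s).card : ℝ))
      (fun _ _ => Nat.cast_nonneg _) (2 ^ d - 1)
    have hp : 1 ≤ 2 ^ d := Nat.one_le_two_pow
    rw [Nat.sub_add_cancel hp] at h4
    have hc : ((Icc (-(N : ℤ)) N).card : ℝ) ≤ 3 * N := by
      rw [Int.card_Icc]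
      have h5 : ((N : ℤ) + 1 - -(N : ℤ)).toNat = 2 * N + 1 := by omega
      rw [h5]
      push_cast
      linarith
    have hc0 : (0 : ℝ) < ((Icc (-(N : ℤ)) N).card : ℝ) := by
      rw [Int.card_Icc]
      have h5 : ((N : ℤ) + 1 - -(N : ℤ)).toNat = 2 * N + 1 := by omega
      rw [h5]
      positivity
    rw [div_le_iff₀ (pow_pos hc0 _), h3] at h4
    have h6 : (X.card : ℝ) ^ (2 ^ (d + 1)) = ((X.card : ℝ) ^ 2) ^ (2 ^ d) := by
      rw [← pow_mul, pow_succ']
    have h7 : ∑ s ∈ Icc (-(N : ℤ)) N, ((Y s).card : ℝ) ^ (2 ^ d) ≤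
        (3 * N : ℝ) ^ (2 ^ d - d - 1) * ((cubes (d + 1) N X).card : ℝ) := by
      calc ∑ s ∈ Icc (-(N : ℤ)) N, ((Y s).card : ℝ) ^ (2 ^ d)
          ≤ ∑ s ∈ Icc (-(N : ℤ)) N, (3 * N : ℝ) ^ (2 ^ d - d - 1) * ((cubes d N (Y s)).card : ℝ) :=
            Finset.sum_le_sum fun s _ => h1 s
        _ = (3 * N : ℝ) ^ (2 ^ d - d - 1) * ∑ s ∈ Icc (-(N : ℤ)) N, ((cubes d N (Y s)).card : ℝ) := by
            rw [Finset.mul_sum]
        _ ≤ _ := mul_le_mul_of_nonneg_left h2 (by positivity)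
    have h8 : 2 ^ (d + 1) - (d + 1) - 1 = (2 ^ d - d - 1) + (2 ^ d - 1) := by
      have h9 : d < 2 ^ d := Nat.lt_two_pow_self
      rw [pow_succ]
      omega
    rw [h6, h8, pow_add]
    calc ((X.card : ℝ) ^ 2) ^ (2 ^ d)
        ≤ (∑ s ∈ Icc (-(N : ℤ)) N, ((Y s).card : ℝ) ^ (2 ^ d)) * ((Icc (-(N : ℤ)) N).card : ℝ) ^ (2 ^ d - 1) := h4
      _ ≤ ((3 * N : ℝ) ^ (2 ^ d - d - 1) * ((cubes (d + 1) N X).card : ℝ)) * (3 * N : ℝ) ^ (2 ^ d - 1) :=
          mul_le_mul h7 (pow_le_pow_left₀ hc0.le hc _) (by positivity) (by positivity)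
      _ = _ := by ring

end Pool.Agent.Lib.TU
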