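import Pool.Agent.Lib.TU.Basic

/-!
# TU / CubR (C3): from the relations at the vertices of a cube to a cube of one form
PROOF. For `S` let `m_S = m - ∑_{i ∈ S} s i * h (castSucc i)`, `r_S = r + A ∑_{i ∈ S} s i`: `A m_S + r_S h_j = A m + r h_j + A ∑_{i ∈ S} s i (h_j - h_i)`. Outside a set of measure `2^d ε` (`pr_exists_le`, `pr_shift`) all relations
`∏_j lam (...) = s` hold, in particular all factors are nonzero. The product over all `S` is `s^(2^d) = 1` (`d ≥ 1`); the factor of `j = castSucc i0` is the same for `S` and `S ∆ {i0}`: its product over `S` is a product of squares, `= 1`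
(`lam_sq`). What remains is the factor of `j = last d`.
-/

set_option autoImplicit false

open Finset

namespace Pool.Agent.Lib.TU

/-- the argument of the form `j` at the vertex `S` -/
private def cr {d : ℕ} (A : ℤ) (h : Fin (d + 1) → ℤ) (r : ℤ) (s : Fin d → ℤ) (m : ℤ) (S : Finset (Fin d)) (j : Fin (d + 1)) : ℤ :=
  A * (m + ∑ i ∈ S, s i * (h j - h (Fin.castSucc i))) + r * h j

private theorem cr_eq {d : ℕ} (A : ℤ) (h : Fin (d + 1) → ℤ) (r : ℤ) (s : Fin d → ℤ) (m : ℤ) (S : Finset (Fin d)) (j : Fin (d + 1)) :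
    A * (m + -(∑ i ∈ S, s i * h (Fin.castSucc i))) + (r + A * ∑ i ∈ S, s i) * h j = cr A h r s m S j := by
  unfold cr
  have e : ∑ i ∈ S, s i * (h j - h (Fin.castSucc i)) = (∑ i ∈ S, s i) * h j - ∑ i ∈ S, s i * h (Fin.castSucc i) := by
    rw [sum_mul, ← sum_sub_distrib]
    exact sum_congr rfl fun i _ => by ring
  rw [e]
  ring

private theorem cr_inv {d : ℕ} (A : ℤ) (h : Fin (d + 1) → ℤ) (r : ℤ) (s : Fin d → ℤ) (m : ℤ) (S : Finset (Fin d)) (i0 : Fin d) :
    cr A h r s m (symmDiff S {i0}) (Fin.castSucc i0) = cr A h r s m S (Fin.castSucc i0) := by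
  unfold cr
  have e : ∀ U : Finset (Fin d), ∑ i ∈ U, s i * (h (Fin.castSucc i0) - h (Fin.castSucc i)) =
      ∑ i ∈ U.erase i0, s i * (h (Fin.castSucc i0) - h (Fin.castSucc i)) := by
    intro U
    by_cases hU : i0 ∈ U
    · rw [← add_sum_erase U _ hU, sub_self, mul_zero, zero_add]
    · rw [erase_eq_of_notMem hU]
  have e2 : (symmDiff S {i0}).erase i0 = S.erase i0 := by
    ext x
    simp only [mem_erase, mem_symmDiff, mem_singleton]
    tauto
  rw [e (symmDiff S {i0}), e S, e2]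

theorem cubr {L : (ℤ → ℝ) →ₗ[ℝ] ℝ} (hL : IsMean L) {d : ℕ} (hd : 1 ≤ d) (A : ℤ) (h : Fin (d + 1) → ℤ) (r : ℤ) (s : Fin d → ℤ) (σ ε : ℝ)
    (hσ : σ = 1 ∨ σ = -1)
    (hr : ∀ S : Finset (Fin d), pr L (fun m => ∏ j, lam (A * m + (r + A * ∑ i ∈ S, s i) * h j) ≠ σ) ≤ ε) :
    pr L (fun m => ∏ S : Finset (Fin d), lam (A * (m + ∑ i ∈ S, s i * (h (Fin.last d) - h (Fin.castSucc i))) + r * h (Fin.last d)) ≠ 1) ≤ 2 ^ d * ε := by
  have h1 : ∀ S : Finset (Fin d), pr L (fun m => ∏ j, lam (cr A h r s m S j) ≠ σ) ≤ ε := by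
    intro S
    have h2 := pr_shift hL (fun m => ∏ j, lam (A * m + (r + A * ∑ i ∈ S, s i) * h j) ≠ σ) (-(∑ i ∈ S, s i * h (Fin.castSucc i)))
    simp only [cr_eq] at h2
    rw [h2]
    exact hr S
  have hσ0 : σ ≠ 0 := by rcases hσ with rfl | rfl <;> norm_num
  have key : ∀ m, (∏ S : Finset (Fin d), lam (A * (m + ∑ i ∈ S, s i * (h (Fin.last d) - h (Fin.castSucc i))) + r * h (Fin.last d)) ≠ 1) →
      ∃ S ∈ (univ : Finset (Finset (Fin d))), ∏ j, lam (cr A h r s m S j) ≠ σ := by
    intro m hm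
    by_contra hcon
    push Not at hcon
    apply hm
    have h3 : ∏ S : Finset (Fin d), ∏ j, lam (cr A h r s m S j) = 1 := by
      rw [prod_congr rfl fun S hS => hcon S hS, prod_const, card_univ, Fintype.card_finset, Fintype.card_fin]
      rcases hσ with rfl | rfl
      · exact one_pow _
      · exact Even.neg_one_pow ((Nat.even_pow.mpr ⟨even_two, by omega⟩))
    rw [prod_comm, Fin.prod_univ_castSucc] at h3
    have h4 : ∀ i0 : Fin d, ∏ S : Finset (Fin d), lam (cr A h r s m S (Fin.castSucc i0)) = 1 := by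
      intro i0
      refine prod_involution (fun S _ => symmDiff S {i0}) ?_ ?_ (fun _ _ => mem_univ _) ?_
      · intro S _
        rw [cr_inv]
        apply lam_sq
        intro h0
        have h5 := hcon S (mem_univ S)
        apply hσ0
        rw [← h5]
        refine prod_eq_zero (mem_univ (Fin.castSucc i0)) ?_
        rw [h0, lam_zero]
      · intro S _ _ hS
        have h6 : (symmDiff S {i0} = S) := hS
        rw [symmDiff_eq_left] at h6
        exact singleton_ne_empty i0 h6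
      · intro S _
        exact symmDiff_symmDiff_cancel_right _ _
    rw [prod_congr rfl fun i _ => h4 i, prod_const_one, one_mul] at h3
    exact h3
  calc pr L (fun m => ∏ S : Finset (Fin d), lam (A * (m + ∑ i ∈ S, s i * (h (Fin.last d) - h (Fin.castSucc i))) + r * h (Fin.last d)) ≠ 1)
      ≤ pr L (fun m => ∃ S ∈ (univ : Finset (Finset (Fin d))), ∏ j, lam (cr A h r s m S j) ≠ σ) := pr_mono hL key
    _ ≤ ∑ S : Finset (Fin d), pr L (fun m => ∏ j, lam (cr A h r s m S j) ≠ σ) := pr_exists_le hL _ _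
    _ ≤ ∑ _S : Finset (Fin d), ε := sum_le_sum fun S _ => h1 S
    _ = 2 ^ d * ε := by
        rw [sum_const, card_univ, Fintype.card_finset, Fintype.card_fin, nsmul_eq_mul]
        push_cast
        ring

end Pool.Agent.Lib.TU
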