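import Pool.Agent.Lib.TU.Basic
import Pool.Agent.Lib.MP_092512_nt.QC.Pin

/-!
# TU / Pinsk (E3): Pinsker's inequality for the mutual information (cf. Lib/MP_092512_nt/QC/Pin.lean, Lib/MP_8c24b6_lc/EntropyA.lean)
PROOF. Joint law `p(a,b)`, product law `q(a,b)`; `inf2 = ∑ p log (p/q)` and `q = 0` implies `p = 0`. Pinsker: `(∑ |p - q|)² ≤ 2 ∑ p log (p/q)`
(from `3 (u - 1)² ≤ (2 u + 4) (u log u - u + 1)` and Cauchy–Schwarz). Then
`|L φ(f,g) - ∑ q φ| = |∑ (p - q) φ| ≤ B ∑ |p - q| ≤ B √(2 inf2)`.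
-/

set_option autoImplicit false

open Finset

namespace Pool.Agent.Lib.TU

variable {L : (ℤ → ℝ) →ₗ[ℝ] ℝ} {α β γ : Type} [Fintype α] [Fintype β] [Fintype γ]

private theorem pinsk_term {P p q : ℝ} (hP : 0 ≤ P) (hp : P ≤ p) (hq : P ≤ q) :
    P * Real.log (P / (p * q)) = P * Real.log P - P * Real.log p - P * Real.log q := by
  rcases hP.eq_or_lt with h | h
  · rw [← h]
    simp
  · have hp' : 0 < p := lt_of_lt_of_le h hp
    have hq' : 0 < q := lt_of_lt_of_le h hq
    rw [Real.log_div h.ne' (mul_pos hp' hq').ne', Real.log_mul hp'.ne' hq'.ne']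
    ring

theorem pinsk (hL : IsMean L) (f : ℤ → α) (g : ℤ → β) (φ : α → β → ℝ) (B : ℝ) (hB : 0 ≤ B) (hφ : ∀ a b, |φ a b| ≤ B)
    (h0 : ∀ a, ∑ b, φ a b * pr L (fun n => g n = b) = 0) :
    |L (fun n => φ (f n) (g n))| ≤ B * Real.sqrt (2 * inf2 L f g) := by
  classical
  set P : α × β → ℝ := fun x => pr L (fun n => (f n, g n) = x) with hPd
  set p : α → ℝ := fun a => pr L (fun n => f n = a) with hpd
  set q : β → ℝ := fun b => pr L (fun n => g n = b) with hqd
  set Q : α × β → ℝ := fun x => p x.1 * q x.2 with hQd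
  have hP0 : ∀ x, 0 ≤ P x := fun x => pr_nonneg hL _
  have hp0 : ∀ a, 0 ≤ p a := fun a => pr_nonneg hL _
  have hq0 : ∀ b, 0 ≤ q b := fun b => pr_nonneg hL _
  have hPp : ∀ x, P x ≤ p x.1 := fun x => pr_mono hL fun n h => by rw [← h]
  have hPq : ∀ x, P x ≤ q x.2 := fun x => pr_mono hL fun n h => by rw [← h]
  have hsP : ∑ x, P x = 1 := sum_pr hL (fun n => (f n, g n))
  have hsp : ∑ a, p a = 1 := sum_pr hL f
  have hsq : ∑ b, q b = 1 := sum_pr hL g
  have hsQ : ∑ x, Q x = 1 := by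
    simp only [hQd]
    rw [Fintype.sum_prod_type]
    simp only [← Finset.mul_sum, hsq, mul_one]
    exact hsp
  have hm1 : ∀ a, ∑ b, P (a, b) = p a := by
    intro a
    rw [hpd]
    simp only
    rw [← sum_pr_and g (fun n => f n = a)]
    refine Finset.sum_congr rfl fun b _ => ?_
    rw [hPd]
    exact pr_congr fun n => by
      rw [Prod.mk.injEq]
      exact and_comm
  have hm2 : ∀ b, ∑ a, P (a, b) = q b := by
    intro b
    rw [hqd]
    simp only
    rw [← sum_pr_and f (fun n => g n = b)]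
    refine Finset.sum_congr rfl fun a _ => ?_
    rw [hPd]
    exact pr_congr fun n => by rw [Prod.mk.injEq]
  have hinf : inf2 L f g = ∑ x, P x * Real.log (P x / Q x) := by
    have e1 : ∀ x, P x * Real.log (P x / Q x) = P x * Real.log (P x) - P x * Real.log (p x.1) - P x * Real.log (q x.2) :=
      fun x => pinsk_term (hP0 x) (hPp x) (hPq x)
    rw [Finset.sum_congr rfl fun x _ => e1 x, Finset.sum_sub_distrib, Finset.sum_sub_distrib]
    have e2 : ∑ x : α × β, P x * Real.log (p x.1) = ∑ a, p a * Real.log (p a) := by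
      rw [Fintype.sum_prod_type]
      refine Finset.sum_congr rfl fun a _ => ?_
      have e7 := (Finset.sum_mul Finset.univ (fun b => P (a, b)) (Real.log (p a))).symm
      rw [hm1] at e7
      exact e7
    have e3 : ∑ x : α × β, P x * Real.log (q x.2) = ∑ b, q b * Real.log (q b) := by
      rw [Fintype.sum_prod_type_right]
      refine Finset.sum_congr rfl fun b _ => ?_
      have e7 := (Finset.sum_mul Finset.univ (fun a => P (a, b)) (Real.log (q b))).symm
      rw [hm2] at e7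
      exact e7
    rw [e2, e3]
    unfold inf2 ent
    simp only [Real.negMulLog]
    have e4 : ∀ x : α × β, -pr L (fun n => (f n, g n) = x) * Real.log (pr L (fun n => (f n, g n) = x)) = -(P x * Real.log (P x)) :=
      fun x => by rw [hPd]; ring
    have e5 : ∀ a : α, -pr L (fun n => f n = a) * Real.log (pr L (fun n => f n = a)) = -(p a * Real.log (p a)) :=
      fun a => by rw [hpd]; ring
    have e6 : ∀ b : β, -pr L (fun n => g n = b) * Real.log (pr L (fun n => g n = b)) = -(q b * Real.log (q b)) :=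
      fun b => by rw [hqd]; ring
    rw [Finset.sum_congr rfl fun x _ => e4 x, Finset.sum_congr rfl fun a _ => e5 a, Finset.sum_congr rfl fun b _ => e6 b,
      Finset.sum_neg_distrib, Finset.sum_neg_distrib, Finset.sum_neg_distrib]
    ring
  have hpin := MP_092512_nt.QC.pinsker P Q hP0 (fun x => mul_nonneg (hp0 _) (hq0 _)) (fun x hx => by
    rcases mul_eq_zero.mp hx with h | h
    · exact le_antisymm (h ▸ hPp x) (hP0 x)
    · exact le_antisymm (h ▸ hPq x) (hP0 x)) hsP hsQ
  rw [← hinf] at hpin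
  have hsum : ∑ x, |P x - Q x| ≤ Real.sqrt (2 * inf2 L f g) := Real.le_sqrt_of_sq_le hpin
  have hL1 : L (fun n => φ (f n) (g n)) = ∑ x : α × β, φ x.1 x.2 * P x := L_comp (L := L) (fun n => (f n, g n)) (fun x => φ x.1 x.2)
  have hQ0 : ∑ x : α × β, φ x.1 x.2 * Q x = 0 := by
    rw [Fintype.sum_prod_type]
    refine Finset.sum_eq_zero fun a _ => ?_
    have e1 : ∀ b, φ a b * Q (a, b) = p a * (φ a b * q b) := fun b => by
      simp only [hQd]
      ring
    rw [Finset.sum_congr rfl fun b _ => e1 b, ← Finset.mul_sum]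
    have e2 : ∑ b, φ a b * q b = 0 := h0 a
    rw [e2, mul_zero]
  have hdiff : L (fun n => φ (f n) (g n)) = ∑ x : α × β, φ x.1 x.2 * (P x - Q x) := by
    rw [hL1]
    simp only [mul_sub]
    rw [Finset.sum_sub_distrib, hQ0, sub_zero]
  rw [hdiff]
  calc |∑ x : α × β, φ x.1 x.2 * (P x - Q x)| ≤ ∑ x : α × β, |φ x.1 x.2 * (P x - Q x)| := Finset.abs_sum_le_sum_abs _ _
    _ ≤ ∑ x : α × β, B * |P x - Q x| := Finset.sum_le_sum fun x _ => by
        rw [abs_mul]
        exact mul_le_mul_of_nonneg_right (hφ _ _) (abs_nonneg _)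
    _ = B * ∑ x : α × β, |P x - Q x| := by rw [Finset.mul_sum]
    _ ≤ B * Real.sqrt (2 * inf2 L f g) := mul_le_mul_of_nonneg_left hsum hB

end Pool.Agent.Lib.TU
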