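import Mathlib

/-!
# TU / Scale (E6): the slowly growing sequence of scales

`H 0 = H0`, `H (j+1) = ⌈B log (H j)⌉ H j`, `y = log H`; `log log y_{j+1} - log log y_j ≤ (y_{j+1} - y_j)/(y_j log y_j) ≤ D/y_j`.
-/

set_option autoImplicit false

open Finset Filter

namespace Pool.Agent.Lib.TU

theorem one_lt_log_three : 1 < Real.log 3 := by
  rw [Real.lt_log_iff_exp_lt (by norm_num)]
  exact lt_trans Real.exp_one_lt_d9 (by norm_num)

theorem loglog_sub {a b : ℝ} (ha : 1 < a) (hab : a ≤ b) :
    Real.log (Real.log b) - Real.log (Real.log a) ≤ (b - a) / (a * Real.log a) := by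
  have h1 : 0 < Real.log a := Real.log_pos ha
  have h2 : 0 < Real.log b := Real.log_pos (lt_of_lt_of_le ha hab)
  have ha0 : 0 < a := by linarith
  have hb0 : 0 < b := by linarith
  have h3 : Real.log (Real.log b) - Real.log (Real.log a) ≤ Real.log b / Real.log a - 1 := by
    rw [← Real.log_div h2.ne' h1.ne']
    exact Real.log_le_sub_one_of_pos (by positivity)
  have h4 : Real.log b - Real.log a ≤ b / a - 1 := by
    rw [← Real.log_div hb0.ne' ha0.ne']
    exact Real.log_le_sub_one_of_pos (by positivity)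
  refine h3.trans ?_
  have h5 : Real.log b / Real.log a - 1 = (Real.log b - Real.log a) / Real.log a := by
    field_simp
  have h6 : (b - a) / (a * Real.log a) = (b / a - 1) / Real.log a := by
    field_simp
  rw [h5, h6]
  exact div_le_div_of_nonneg_right h4 h1.le

/-- the scales -/
noncomputable def scl (B : ℝ) (H0 : ℕ) : ℕ → ℕ
  | 0 => H0
  | j + 1 => ⌈B * Real.log (scl B H0 j)⌉₊ * scl B H0 j

/-- `u` decreases by at least `κ / log H` from one scale to the next: impossible for a sequence bounded below -/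
theorem scales (B κ : ℝ) (hB : 1 ≤ B) (hκ : 0 < κ) (u : ℕ → ℝ) (h0 : ∀ H, 0 ≤ u H) (H0 : ℕ) (hH0 : 3 ≤ H0) :
    ¬ ∀ H : ℕ, H0 ≤ H → u (⌈B * Real.log H⌉₊ * H) ≤ u H - κ / Real.log H := by
  intro hu
  have hL3 := one_lt_log_three
  -- size of the scales
  have hlog : ∀ H : ℕ, H0 ≤ H → Real.log 3 ≤ Real.log H := fun H hH =>
    Real.log_le_log (by norm_num) (by exact_mod_cast hH0.trans hH)
  have hceil : ∀ H : ℕ, H0 ≤ H → 2 ≤ ⌈B * Real.log H⌉₊ := fun H hH => by
    have h1 := hlog H hH
    have h2 : (1 : ℝ) < B * Real.log H := by nlinarith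
    have h3 : 1 < ⌈B * Real.log H⌉₊ := Nat.lt_ceil.2 (by exact_mod_cast h2)
    omega
  have hge : ∀ j, H0 ≤ scl B H0 j := fun j => by
    induction j with
    | zero => exact le_rfl
    | succ j ih =>
      change H0 ≤ ⌈B * Real.log (scl B H0 j)⌉₊ * scl B H0 j
      have := hceil _ ih
      nlinarith
  set y : ℕ → ℝ := fun j => Real.log (scl B H0 j) with hy
  have hy3 : ∀ j, Real.log 3 ≤ y j := fun j => hlog _ (hge j)
  have hy1 : ∀ j, 1 < y j := fun j => lt_of_lt_of_le hL3 (hy3 j)
  have hcp : ∀ j, 2 ≤ ⌈B * y j⌉₊ := fun j => hceil _ (hge j)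
  have hstep : ∀ j, y (j + 1) = Real.log (⌈B * y j⌉₊ : ℕ) + y j := fun j => by
    have h1 : (0 : ℝ) < (⌈B * y j⌉₊ : ℕ) := by
      have := hcp j
      exact_mod_cast (by omega : 0 < ⌈B * y j⌉₊)
    have h2 : (0 : ℝ) < (scl B H0 j : ℕ) := by
      have := hge j
      exact_mod_cast (by omega : 0 < scl B H0 j)
    change Real.log ((⌈B * Real.log (scl B H0 j)⌉₊ * scl B H0 j : ℕ) : ℝ) = _
    rw [Nat.cast_mul, Real.log_mul h1.ne' h2.ne']
  have hup : ∀ j, y (j + 1) - y j ≤ Real.log (B + 1) + Real.log (y j) := fun j => by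
    rw [hstep]
    have h1 : (0 : ℝ) < (⌈B * y j⌉₊ : ℕ) := by
      have := hcp j
      exact_mod_cast (by omega : 0 < ⌈B * y j⌉₊)
    have h2 : ((⌈B * y j⌉₊ : ℕ) : ℝ) ≤ (B + 1) * y j := by
      have h3 := Nat.ceil_lt_add_one (a := B * y j) (by have := hy1 j; positivity)
      have := hy1 j
      nlinarith
    have h4 := Real.log_le_log h1 h2
    rw [Real.log_mul (by positivity) (by have := hy1 j; positivity)] at h4
    linarith
  have hlow : ∀ j, Real.log 2 ≤ y (j + 1) - y j := fun j => by
    rw [hstep]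
    have h1 : (2 : ℝ) ≤ (⌈B * y j⌉₊ : ℕ) := by exact_mod_cast hceil _ (hge j)
    have h2 := Real.log_le_log (by norm_num) h1
    linarith
  have hl2 : 0 < Real.log 2 := Real.log_pos (by norm_num)
  have hyn : ∀ j : ℕ, j * Real.log 2 ≤ y j := fun j => by
    induction j with
    | zero => have := hy1 0; simp; linarith
    | succ j ih =>
      have := hlow j
      push_cast
      linarith
  have hll : 0 < Real.log (Real.log 3) := Real.log_pos hL3
  set D : ℝ := 1 + Real.log (B + 1) / Real.log (Real.log 3) with hD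
  have hlB : 0 ≤ Real.log (B + 1) := Real.log_nonneg (by linarith)
  have hD1 : 1 ≤ D := by
    have : 0 ≤ Real.log (B + 1) / Real.log (Real.log 3) := by positivity
    linarith
  have hD2 : ∀ j, y (j + 1) - y j ≤ D * Real.log (y j) := fun j => by
    refine (hup j).trans ?_
    have h1 : Real.log (Real.log 3) ≤ Real.log (y j) := Real.log_le_log (by linarith) (hy3 j)
    have h2 : Real.log (B + 1) ≤ Real.log (B + 1) / Real.log (Real.log 3) * Real.log (y j) := by
      rw [div_mul_eq_mul_div, le_div_iff₀ hll]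
      exact mul_le_mul_of_nonneg_left h1 hlB
    rw [hD]
    linarith
  set Φ : ℕ → ℝ := fun j => Real.log (Real.log (y j)) with hΦ
  have hΦs : ∀ j, Φ (j + 1) - Φ j ≤ D / y j := fun j => by
    have h1 := hlow j
    have h2 := loglog_sub (hy1 j) (by linarith : y j ≤ y (j + 1))
    refine h2.trans ?_
    have h3 : 0 < Real.log (y j) := Real.log_pos (hy1 j)
    have h4 : 0 < y j := by have := hy1 j; linarith
    rw [div_le_div_iff₀ (by positivity) h4]
    have h5 := hD2 j
    nlinarith
  have hD0 : 0 < D := by linarith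
  have hmain : ∀ n, u (scl B H0 n) + κ / D * Φ n ≤ u (scl B H0 0) + κ / D * Φ 0 := fun n => by
    induction n with
    | zero => exact le_rfl
    | succ n ih =>
      have h1 := hu _ (hge n)
      change u (scl B H0 (n + 1)) ≤ u (scl B H0 n) - κ / y n at h1
      have h2 := hΦs n
      have h3 : κ / D * (Φ (n + 1) - Φ n) ≤ κ / y n := by
        have h4 : 0 < y n := by have := hy1 n; linarith
        have h5 : κ / D * (D / y n) = κ / y n := by field_simp
        rw [← h5]
        exact mul_le_mul_of_nonneg_left h2 (by positivity)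
      rw [mul_sub] at h3
      linarith
  have hyt : Tendsto y atTop atTop :=
    tendsto_atTop_mono hyn (tendsto_natCast_atTop_atTop.atTop_mul_const hl2)
  have hΦt : Tendsto Φ atTop atTop :=
    Real.tendsto_log_atTop.comp (Real.tendsto_log_atTop.comp hyt)
  obtain ⟨n, hn⟩ := (hΦt.eventually_gt_atTop ((u (scl B H0 0) + κ / D * Φ 0) / (κ / D))).exists
  have h6 := hmain n
  have h7 := h0 (scl B H0 n)
  rw [div_lt_iff₀ (by positivity)] at hn
  linarith

end Pool.Agent.Lib.TU
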