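import Pool.Agent.Lib.TU.Wind
import Pool.Agent.Lib.TU.Scale
import Pool.Agent.Lib.TU.Cnt
import Pool.Agent.Lib.TU.Pinsk

/-!
# TU / Decr (E7): entropy decrement
-/

set_option autoImplicit false

open Finset

namespace Pool.Agent.Lib.TU

/-- the residue as an integer -/
private theorem decr_res_val {p : ℕ} (hp : 0 < p) (n : ℤ) : ((res p n : Fin (p + 1)) : ℕ) = (n % p).toNat := by
  have h1 : 0 ≤ n % p := Int.emod_nonneg _ (by exact_mod_cast hp.ne')
  have h2 : n % p < p := Int.emod_lt_of_pos _ (by exact_mod_cast hp)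
  unfold res
  show (n % p).toNat % (p + 1) = _
  rw [Nat.mod_eq_of_lt]
  omega

private theorem decr_dvd_iff {p : ℕ} (hp : 0 < p) (n : ℤ) (j : ℕ) :
    (p : ℤ) ∣ (((res p n : Fin (p + 1)) : ℕ) : ℤ) + j ↔ (p : ℤ) ∣ n + j := by
  have h1 : 0 ≤ n % p := Int.emod_nonneg _ (by exact_mod_cast hp.ne')
  rw [decr_res_val hp, Int.toNat_of_nonneg h1]
  constructor
  · intro h
    have : n + j = (n % p + j) + p * (n / p) := by
      have := Int.emod_add_mul_ediv n p
      linarith
    rw [this]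
    exact dvd_add h (dvd_mul_right _ _)
  · intro h
    have : n % p + j = (n + j) - p * (n / p) := by
      have := Int.emod_add_mul_ediv n p
      linarith
    rw [this]
    exact dvd_sub h (dvd_mul_right _ _)

/-- exactly one residue -/
private theorem decr_count {p : ℕ} (hp : 0 < p) (j : ℕ) :
    ∑ i ∈ range p, (if (p : ℤ) ∣ (i : ℤ) + j then (p : ℝ) else 0) = p := by
  have h0 : ∃ i0 ∈ range p, (p : ℤ) ∣ (i0 : ℤ) + j := by
    have h1 : 0 ≤ (-(j : ℤ)) % p := Int.emod_nonneg _ (by exact_mod_cast hp.ne')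
    have h2 : (-(j : ℤ)) % p < p := Int.emod_lt_of_pos _ (by exact_mod_cast hp)
    refine ⟨((-(j : ℤ)) % p).toNat, ?_, ?_⟩
    · rw [mem_range]
      omega
    · rw [Int.toNat_of_nonneg h1]
      have h3 := Int.emod_add_mul_ediv (-(j : ℤ)) p
      refine ⟨-((-(j : ℤ)) / p), ?_⟩
      linarith
  obtain ⟨i0, hi0, hd⟩ := h0
  rw [Finset.sum_eq_single i0]
  · rw [if_pos hd]
  · intro b hb hne
    rw [if_neg]
    intro hb2
    apply hne
    have h4 : (p : ℤ) ∣ (b : ℤ) - i0 := by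
      have := dvd_sub hb2 hd
      have e : (b : ℤ) + j - (i0 + j) = b - i0 := by ring
      rwa [e] at this
    have h5 := Int.eq_zero_of_abs_lt_dvd h4 (by
      rw [mem_range] at hb hi0
      rw [abs_lt]
      constructor <;> omega)
    omega
  · intro h
    exact absurd hi0 h

/-- number of multiples in a short interval -/
private theorem decr_mult {p : ℕ} (hp : 0 < p) (b H : ℕ) :
    ∑ j ∈ range H, (if (p : ℤ) ∣ (b : ℤ) + j then (p : ℝ) else 0) ≤ H + p := by
  have h1 : ∑ j ∈ range H, (if (p : ℤ) ∣ (b : ℤ) + j then (p : ℝ) else 0)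
      = p * (((range H).filter (fun j => p ∣ b + j)).card : ℝ) := by
    rw [← Finset.sum_filter, Finset.sum_const, nsmul_eq_mul, mul_comm]
    congr 3
    ext j
    simp only [mem_filter]
    constructor
    · rintro ⟨h, h2⟩
      exact ⟨h, by exact_mod_cast h2⟩
    · rintro ⟨h, h2⟩
      exact ⟨h, by exact_mod_cast h2⟩
  have h2 : ((range H).filter (fun j => p ∣ b + j)).card ≤ H / p + 1 := by
    have e : (range H).filter (fun j => p ∣ b + j) = (range H).filter (fun j => j ≡ p - b % p [MOD p]) := by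
      apply Finset.filter_congr
      intro j _
      rw [Nat.modEq_iff_dvd]
      have hb : (b : ℤ) = (b % p : ℕ) + p * (b / p : ℕ) := by exact_mod_cast (Nat.mod_add_div b p).symm
      have hv : ((p - b % p : ℕ) : ℤ) = p - (b % p : ℕ) := Nat.cast_sub (Nat.mod_lt b hp).le
      rw [hv]
      constructor
      · rintro ⟨c, hc⟩
        refine ⟨1 + (b / p : ℕ) - c, ?_⟩
        have h3 : (b : ℤ) + j = p * c := by exact_mod_cast hc
        linear_combination hb - h3
      · rintro ⟨c, hc⟩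
        have h4 : (p : ℤ) ∣ ((b + j : ℕ) : ℤ) := by
          refine ⟨1 + (b / p : ℕ) - c, ?_⟩
          push_cast
          push_cast at hb hc
          linear_combination hb - hc
        exact_mod_cast h4
    rw [e, ← Nat.count_eq_card_filter_range, Nat.count_modEq_card _ hp]
    split_ifs <;> omega
  have h3 : (p : ℝ) * (((range H).filter (fun j => p ∣ b + j)).card : ℝ) ≤ p * ((H / p : ℕ) + 1 : ℝ) := by
    apply mul_le_mul_of_nonneg_left _ (Nat.cast_nonneg _)
    exact_mod_cast h2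
  have h4 : (p : ℝ) * ((H / p : ℕ) : ℝ) ≤ H := by
    exact_mod_cast Nat.mul_div_le H p
  rw [h1]
  linarith

/-- one prime -/
private theorem decr_one {L : (ℤ → ℝ) →ₗ[ℝ] ℝ} (hL : IsMean L) {α : Type} [Fintype α] (ξ : ℤ → α) (C H p : ℕ)
    (hp : 0 < p) (hpH : p ≤ H) (F : ℤ → ℝ) (hF1 : ∀ n, |F n| ≤ 1)
    (hF2 : ∀ m n : ℤ, (∀ j : ℕ, j < C * H → ξ (m + j) = ξ (n + j)) → F m = F n) :
    |L (fun n => F n * ((if (p : ℤ) ∣ n then (p : ℝ) else 0) - 1))| ≤
      3 * Real.sqrt (2 * inf2 L (win ξ ((C + 1) * H)) (res p)) := by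
  classical
  have hH : 0 < H := lt_of_lt_of_le hp hpH
  have hH' : (0 : ℝ) < H := by exact_mod_cast hH
  set x : ℤ → (Fin ((C + 1) * H) → α) := win ξ ((C + 1) * H) with hx
  let ψ : ℤ → Fin (p + 1) → ℝ := fun m b =>
    (∑ j ∈ range H, F (m + j) * ((if (p : ℤ) ∣ ((b : ℕ) : ℤ) + j then (p : ℝ) else 0) - 1)) / H
  have hψle : ∀ m b, |ψ m b| ≤ 3 := by
    intro m b
    show |(∑ j ∈ range H, F (m + j) * ((if (p : ℤ) ∣ ((b : ℕ) : ℤ) + j then (p : ℝ) else 0) - 1)) / H| ≤ 3
    rw [abs_div, abs_of_pos hH', div_le_iff₀ hH']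
    calc |∑ j ∈ range H, F (m + j) * ((if (p : ℤ) ∣ ((b : ℕ) : ℤ) + j then (p : ℝ) else 0) - 1)|
        ≤ ∑ j ∈ range H, |F (m + j) * ((if (p : ℤ) ∣ ((b : ℕ) : ℤ) + j then (p : ℝ) else 0) - 1)| :=
          Finset.abs_sum_le_sum_abs _ _
      _ ≤ ∑ j ∈ range H, ((if (p : ℤ) ∣ ((b : ℕ) : ℤ) + j then (p : ℝ) else 0) + 1) := by
          refine sum_le_sum fun j _ => ?_
          rw [abs_mul]
          have h1 : |(if (p : ℤ) ∣ ((b : ℕ) : ℤ) + j then (p : ℝ) else 0) - 1| ≤
              (if (p : ℤ) ∣ ((b : ℕ) : ℤ) + j then (p : ℝ) else 0) + 1 := by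
            have h2 : (0 : ℝ) ≤ (if (p : ℤ) ∣ ((b : ℕ) : ℤ) + j then (p : ℝ) else 0) := by
              split_ifs <;> positivity
            rw [abs_le]
            constructor <;> linarith
          calc _ ≤ 1 * |(if (p : ℤ) ∣ ((b : ℕ) : ℤ) + j then (p : ℝ) else 0) - 1| :=
                mul_le_mul_of_nonneg_right (hF1 _) (abs_nonneg _)
            _ ≤ _ := by rw [one_mul]; exact h1
      _ ≤ H + p + H := by
          rw [sum_add_distrib, sum_const, card_range, nsmul_eq_mul, mul_one]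
          have := decr_mult hp (b : ℕ) H
          linarith
      _ ≤ 3 * H := by
          have : (p : ℝ) ≤ H := by exact_mod_cast hpH
          linarith
  have hψx : ∀ m n, x m = x n → ψ m = ψ n := by
    intro m n h
    funext b
    show (∑ j ∈ range H, F (m + j) * _) / (H : ℝ) = (∑ j ∈ range H, F (n + j) * _) / (H : ℝ)
    congr 1
    refine sum_congr rfl fun j hj => ?_
    have : F (m + j) = F (n + j) := by
      apply hF2
      intro i hi
      have h3 : j + i < (C + 1) * H := by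
        rw [mem_range] at hj
        nlinarith
      have h4 := congrFun h ⟨j + i, h3⟩
      simp only [hx, win] at h4
      push_cast at h4
      rw [add_assoc, add_assoc]
      exact h4
    rw [this]
  let φ : (Fin ((C + 1) * H) → α) → Fin (p + 1) → ℝ := fun a =>
    if h : ∃ n, x n = a then ψ h.choose else fun _ => 0
  have hφx : ∀ n, φ (x n) = ψ n := by
    intro n
    have h : ∃ m, x m = x n := ⟨n, rfl⟩
    show (if h : ∃ m, x m = x n then ψ h.choose else fun _ => 0) = ψ n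
    rw [dif_pos h]
    exact hψx _ _ h.choose_spec
  have hφle : ∀ a b, |φ a b| ≤ 3 := by
    intro a b
    show |(if h : ∃ n, x n = a then ψ h.choose else fun _ => 0) b| ≤ 3
    split_ifs with h
    · exact hψle _ _
    · simp
  have hres : ∀ i ∈ range p, ((res p (i : ℤ) : Fin (p + 1)) : ℕ) = i := by
    intro i hi
    have h1 : ((i : ℤ) % (p : ℤ)) = (i : ℤ) :=
      Int.emod_eq_of_lt (Int.natCast_nonneg i) (by exact_mod_cast mem_range.1 hi)
    rw [decr_res_val hp, h1]
    simp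
  have hψ0 : ∀ m, ∑ i ∈ range p, ψ m (res p (i : ℤ)) = 0 := by
    intro m
    show ∑ i ∈ range p, (∑ j ∈ range H, F (m + j) *
      ((if (p : ℤ) ∣ (((res p (i : ℤ) : Fin (p + 1)) : ℕ) : ℤ) + j then (p : ℝ) else 0) - 1)) / (H : ℝ) = 0
    rw [← Finset.sum_div, Finset.sum_comm]
    have : ∑ j ∈ range H, ∑ i ∈ range p, F (m + j) *
        ((if (p : ℤ) ∣ (((res p (i : ℤ) : Fin (p + 1)) : ℕ) : ℤ) + j then (p : ℝ) else 0) - 1) = 0 := by
      refine sum_eq_zero fun j _ => ?_
      rw [← Finset.mul_sum, Finset.sum_sub_distrib]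
      have h1 : ∑ i ∈ range p, (if (p : ℤ) ∣ (((res p (i : ℤ) : Fin (p + 1)) : ℕ) : ℤ) + j then (p : ℝ) else 0) = p := by
        refine Eq.trans (sum_congr rfl fun i hi => ?_) (decr_count hp j)
        rw [hres i hi]
      rw [h1]
      simp
    rw [this, zero_div]
  have h0 : ∀ a, ∑ b, φ a b * pr L (fun n => res p n = b) = 0 := by
    intro a
    rw [sum_res hL hp]
    have : ∑ i ∈ range p, φ a (res p (i : ℤ)) = 0 := by
      show ∑ i ∈ range p, (if h : ∃ n, x n = a then ψ h.choose else fun _ => 0) (res p (i : ℤ)) = 0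
      split_ifs with h
      · exact hψ0 _
      · simp
    rw [this, zero_div]
  have hmain := pinsk hL x (res p) φ 3 (by norm_num) hφle h0
  have hg : ∀ f : ℤ → ℝ, Bd f → L (fun n => (∑ j ∈ range H, f (n + (j : ℕ))) / H) = L f := by
    intro f hf
    have e1 : (fun n : ℤ => (∑ j ∈ range H, f (n + (j : ℕ))) / (H : ℝ)) =
        fun n => (1 / (H : ℝ)) * (∑ j ∈ range H, f (n + (j : ℕ))) := by
      funext n
      ring
    rw [e1, L_mul, L_sum, Finset.sum_congr rfl (fun j _ => hL.shift_nat hf j), sum_const, card_range, nsmul_eq_mul]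
    field_simp
  have hbd : Bd (fun n => F n * ((if (p : ℤ) ∣ n then (p : ℝ) else 0) - 1)) := by
    refine ⟨(p : ℝ) + 1, fun n => ?_⟩
    rw [abs_mul]
    have h1 : |(if (p : ℤ) ∣ n then (p : ℝ) else 0) - 1| ≤ (p : ℝ) + 1 := by
      have h2 : (0 : ℝ) ≤ p := Nat.cast_nonneg _
      split_ifs
      · rw [abs_le]; constructor <;> linarith
      · rw [abs_le]; constructor <;> linarith
    calc _ ≤ 1 * |(if (p : ℤ) ∣ n then (p : ℝ) else 0) - 1| := mul_le_mul_of_nonneg_right (hF1 _) (abs_nonneg _)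
      _ ≤ _ := by rw [one_mul]; exact h1
  have heq : L (fun n => φ (x n) (res p n)) = L (fun n => F n * ((if (p : ℤ) ∣ n then (p : ℝ) else 0) - 1)) := by
    rw [← hg _ hbd]
    congr 1
    funext n
    rw [hφx]
    show (∑ j ∈ range H, F (n + j) *
      ((if (p : ℤ) ∣ (((res p n : Fin (p + 1)) : ℕ) : ℤ) + j then (p : ℝ) else 0) - 1)) / (H : ℝ) = _
    congr 1
    refine sum_congr rfl fun j _ => ?_
    congr 2
    exact if_congr (decr_dvd_iff hp n j) rfl rfl
  rw [heq] at hmain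
  exact hmain

theorem decrement {L : (ℤ → ℝ) →ₗ[ℝ] ℝ} (hL : IsMean L) {α : Type} [Fintype α] (ξ : ℤ → α) (C : ℕ) (δ : ℝ) (hδ : 0 < δ) (H0 : ℕ) :
    ∃ H : ℕ, H0 ≤ H ∧ ∃ G : Finset ℕ, G ⊆ PP H ∧ (PP H).card ≤ 2 * G.card ∧ ∀ p ∈ G, ∀ F : ℤ → ℝ, (∀ n, |F n| ≤ 1) →
      (∀ m n : ℤ, (∀ j : ℕ, j < C * H → ξ (m + j) = ξ (n + j)) → F m = F n) →
      |L (fun n => F n * ((if (p : ℤ) ∣ n then (p : ℝ) else 0) - 1))| ≤ δ := by
  classical
  by_contra hcon
  push Not at hcon
  obtain ⟨c, hc, H1, hH1⟩ := card_PP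
  -- the bad primes
  have key : ∀ H : ℕ, max (max H0 H1) 3 ≤ H →
      δ ^ 2 / 36 * (c * H / Real.log H) ≤ inf2 L (win ξ ((C + 1) * H)) (res (∏ p ∈ PP H, p)) := by
    intro H hH
    have hH0 : H0 ≤ H := le_trans (le_trans (le_max_left _ _) (le_max_left _ _)) hH
    have hH1' : H1 ≤ H := le_trans (le_trans (le_max_right _ _) (le_max_left _ _)) hH
    set Bad : ℕ → Prop := fun p => ∃ F : ℤ → ℝ, (∀ n, |F n| ≤ 1) ∧
      (∀ m n : ℤ, (∀ j : ℕ, j < C * H → ξ (m + j) = ξ (n + j)) → F m = F n) ∧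
      δ < |L (fun n => F n * ((if (p : ℤ) ∣ n then (p : ℝ) else 0) - 1))| with hBad
    have hlt : 2 * ((PP H).filter (fun p => ¬ Bad p)).card < (PP H).card := by
      by_contra hle
      push Not at hle
      obtain ⟨p, hp, F, hF1, hF2, hF3⟩ := hcon H hH0 _ (filter_subset _ _) hle
      exact (mem_filter.1 hp).2 ⟨F, hF1, hF2, hF3⟩
    have hsum : ((PP H).filter Bad).card + ((PP H).filter (fun p => ¬ Bad p)).card = (PP H).card :=
      Finset.card_filter_add_card_filter_not _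
    have hBc : ((PP H).card : ℝ) / 2 ≤ (((PP H).filter Bad).card : ℝ) := by
      have : (PP H).card ≤ 2 * ((PP H).filter Bad).card := by omega
      have : ((PP H).card : ℝ) ≤ 2 * (((PP H).filter Bad).card : ℝ) := by exact_mod_cast this
      linarith
    have hprime : ∀ p ∈ PP H, p.Prime := fun p hp => (mem_filter.1 hp).2
    have hle : ∀ p ∈ PP H, p ≤ H := fun p hp => (mem_Ioc.1 (mem_filter.1 hp).1).2
    have hinf0 : ∀ p, 0 ≤ inf2 L (win ξ ((C + 1) * H)) (res p) := by
      intro p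
      have := subadd hL (win ξ ((C + 1) * H)) (res p)
      unfold inf2
      linarith
    have hinfB : ∀ p ∈ (PP H).filter Bad, δ ^ 2 / 18 ≤ inf2 L (win ξ ((C + 1) * H)) (res p) := by
      intro p hp
      obtain ⟨hp1, F, hF1, hF2, hF3⟩ := mem_filter.1 hp
      have h1 := decr_one hL ξ C H p (hprime p hp1).pos (hle p hp1) F hF1 hF2
      have h2 : δ < 3 * Real.sqrt (2 * inf2 L (win ξ ((C + 1) * H)) (res p)) := lt_of_lt_of_le hF3 h1
      have h3 : δ ^ 2 ≤ (3 * Real.sqrt (2 * inf2 L (win ξ ((C + 1) * H)) (res p))) ^ 2 :=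
        pow_le_pow_left₀ hδ.le h2.le 2
      rw [mul_pow, Real.sq_sqrt (mul_nonneg (by norm_num) (hinf0 p))] at h3
      linarith
    calc δ ^ 2 / 36 * (c * H / Real.log H) ≤ δ ^ 2 / 36 * ((PP H).card : ℝ) :=
          mul_le_mul_of_nonneg_left (hH1 H hH1') (by positivity)
      _ = δ ^ 2 / 18 * (((PP H).card : ℝ) / 2) := by ring
      _ ≤ δ ^ 2 / 18 * (((PP H).filter Bad).card : ℝ) := mul_le_mul_of_nonneg_left hBc (by positivity)
      _ = ∑ p ∈ (PP H).filter Bad, δ ^ 2 / 18 := by rw [sum_const, nsmul_eq_mul]; ring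
      _ ≤ ∑ p ∈ (PP H).filter Bad, inf2 L (win ξ ((C + 1) * H)) (res p) := sum_le_sum hinfB
      _ ≤ ∑ p ∈ PP H, inf2 L (win ξ ((C + 1) * H)) (res p) :=
          sum_le_sum_of_subset_of_nonneg (filter_subset _ _) (fun p _ _ => hinf0 p)
      _ ≤ _ := infsum hL _ _ hprime
  -- the sequence
  let E : ℕ → ℝ := fun n => ent L (win ξ n)
  let u : ℕ → ℝ := fun H => E ((C + 1) * H) / ((C + 1) * H : ℕ)
  have hu0 : ∀ H, 0 ≤ u H := fun H => div_nonneg (ent_nonneg hL _) (Nat.cast_nonneg _)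
  set κ : ℝ := δ ^ 2 * c / (72 * (C + 1)) with hκdef
  have hκ : 0 < κ := by positivity
  set B : ℝ := max 1 (144 / (δ ^ 2 * c)) with hBdef
  have hB1 : 1 ≤ B := le_max_left _ _
  refine scales B κ hB1 hκ u hu0 (max (max H0 H1) 3) (le_max_right _ _) fun H hH => ?_
  have hH3 : 3 ≤ H := le_trans (le_max_right _ _) hH
  have hHr : (3 : ℝ) ≤ H := by exact_mod_cast hH3
  have hlog : 0 < Real.log H := Real.log_pos (by linarith)
  set K : ℕ := ⌈B * Real.log H⌉₊ with hK
  have hKB : B * Real.log H ≤ K := Nat.le_ceil _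
  have hBl : 0 < B * Real.log H := by positivity
  have hKpos : 0 < K := Nat.ceil_pos.2 hBl
  have hKr : (0 : ℝ) < K := by exact_mod_cast hKpos
  set P : ℕ := ∏ p ∈ PP H, p with hP
  have hPpos : 0 < P := Finset.prod_pos fun p hp => ((mem_filter.1 hp).2).pos
  have hw := window hL ξ ((C + 1) * H) K P hPpos
  have hlogP := log_prod_PP H
  have hk := key H hH
  have hl : (0 : ℝ) < ((C + 1) * H : ℕ) := by
    have : 0 < (C + 1) * H := by positivity
    exact_mod_cast this
  have hE : E ((C + 1) * (K * H)) = ent L (win ξ (K * ((C + 1) * H))) := by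
    have : (C + 1) * (K * H) = K * ((C + 1) * H) := by ring
    show ent L (win ξ ((C + 1) * (K * H))) = _
    rw [this]
  have hu1 : u (K * H) = ent L (win ξ (K * ((C + 1) * H))) / (K * ((C + 1) * H : ℕ)) := by
    show E ((C + 1) * (K * H)) / ((C + 1) * (K * H) : ℕ) = _
    rw [hE]
    congr 1
    push_cast
    ring
  rw [hu1]
  have hu2 : u H = ent L (win ξ ((C + 1) * H)) / ((C + 1) * H : ℕ) := rfl
  rw [hu2]
  set e1 : ℝ := ent L (win ξ ((C + 1) * H)) with he1
  set i1 : ℝ := inf2 L (win ξ ((C + 1) * H)) (res P) with hi1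
  have h1 : ent L (win ξ (K * ((C + 1) * H))) / (K * ((C + 1) * H : ℕ)) ≤
      (2 * H + K * (e1 - i1)) / (K * ((C + 1) * H : ℕ)) := by
    apply div_le_div_of_nonneg_right _ (by positivity)
    linarith
  refine h1.trans ?_
  have h2 : (2 * H + K * (e1 - i1)) / (K * ((C + 1) * H : ℕ)) =
      2 / ((C + 1) * K) + e1 / ((C + 1) * H : ℕ) - i1 / ((C + 1) * H : ℕ) := by
    have hHp : (0 : ℝ) < H := by linarith
    push_cast
    field_simp
    ring
  rw [h2]
  have h3 : 2 * κ / Real.log H ≤ i1 / ((C + 1) * H : ℕ) := by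
    rw [div_le_div_iff₀ hlog hl]
    have h4 : δ ^ 2 / 36 * (c * H / Real.log H) * Real.log H ≤ i1 * Real.log H :=
      mul_le_mul_of_nonneg_right hk hlog.le
    have h5 : δ ^ 2 / 36 * (c * H / Real.log H) * Real.log H = δ ^ 2 / 36 * (c * H) := by
      field_simp
    rw [h5] at h4
    have h6 : 2 * κ * ((C + 1) * H : ℕ) = δ ^ 2 / 36 * (c * H) := by
      rw [hκdef]
      push_cast
      field_simp
      ring
    rw [h6]
    exact h4
  have h7 : 2 / ((C + 1) * K) ≤ κ / Real.log H := by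
    have hC1 : (0 : ℝ) < (C : ℝ) + 1 := by positivity
    rw [div_le_div_iff₀ (by positivity) hlog]
    have h8 : 144 / (δ ^ 2 * c) ≤ B := le_max_right _ _
    have h9 : 144 / (δ ^ 2 * c) * Real.log H ≤ K := le_trans (mul_le_mul_of_nonneg_right h8 hlog.le) hKB
    have h10 : κ * ((C + 1) * (144 / (δ ^ 2 * c) * Real.log H)) ≤ κ * ((C + 1) * K) :=
      mul_le_mul_of_nonneg_left (mul_le_mul_of_nonneg_left h9 hC1.le) hκ.le
    have h11 : κ * ((C + 1) * (144 / (δ ^ 2 * c) * Real.log H)) = 2 * Real.log H := by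
      rw [hκdef]
      field_simp
      ring
    linarith
  have h12 : 2 * κ / Real.log H = κ / Real.log H + κ / Real.log H := by ring
  linarith

end Pool.Agent.Lib.TU
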