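import Mathlib

/-!
# TU: uniform gap for products of values of the Liouville function, definitions

A mean is a linear functional on all functions `ℤ → ℝ` which is a positive, shift invariant,
dilation covariant mean on the bounded ones (a limit of logarithmic averages along an ultrafilter,
extended linearly). All error terms `o(1)` vanish.
-/

set_option autoImplicit false

open Finset

namespace Pool.Agent.Lib.TU

/-- bounded functions -/
def Bd (f : ℤ → ℝ) : Prop := ∃ C : ℝ, ∀ n, |f n| ≤ C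

/-- logarithmic average over `1 ≤ n ≤ X` -/
noncomputable def lav (X : ℕ) (f : ℤ → ℝ) : ℝ :=
  (∑ n ∈ Icc 1 X, f (n : ℤ) / n) / ∑ n ∈ Icc 1 X, (1 : ℝ) / n

/-- Logarithmic mean. -/
structure IsMean (L : (ℤ → ℝ) →ₗ[ℝ] ℝ) : Prop where
  nonneg : ∀ f : ℤ → ℝ, Bd f → (∀ n, 0 ≤ f n) → 0 ≤ L f
  one : L (fun _ => 1) = 1
  shift : ∀ f : ℤ → ℝ, Bd f → L (fun n => f (n + 1)) = L f
  dil : ∀ (f : ℤ → ℝ) (q : ℕ), Bd f → 0 < q →
    L (fun n => if (q : ℤ) ∣ n then f (n / q) else 0) = L f / q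
  dyad : ∀ (f : ℤ → ℝ) (η : ℝ) (X0 : ℕ), Bd f → (∀ n, 0 ≤ f n) →
    (∀ X : ℕ, X0 ≤ X → ∑ n ∈ Ioc X (2 * X), f (n : ℤ) ≤ η * X) → L f ≤ 2 * η

open Classical in
/-- the measure of a set of integers -/
noncomputable def pr (L : (ℤ → ℝ) →ₗ[ℝ] ℝ) (s : ℤ → Prop) : ℝ := L (fun n => if s n then 1 else 0)

/-- the Liouville function on the integers, `0` at `0` -/
noncomputable def lam (n : ℤ) : ℝ := ((ArithmeticFunction.liouville n.natAbs : ℤ) : ℝ)

/-- entropy of a function with finitely many values -/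
noncomputable def ent (L : (ℤ → ℝ) →ₗ[ℝ] ℝ) {α : Type} [Fintype α] (f : ℤ → α) : ℝ :=
  ∑ a, Real.negMulLog (pr L (fun n => f n = a))

/-- mutual information -/
noncomputable def inf2 (L : (ℤ → ℝ) →ₗ[ℝ] ℝ) {α β : Type} [Fintype α] [Fintype β]
    (f : ℤ → α) (g : ℤ → β) : ℝ := ent L f + ent L g - ent L (fun n => (f n, g n))

/-- the residue of `n` modulo `q`, as an element of `Fin (q + 1)` -/
def res (q : ℕ) (n : ℤ) : Fin (q + 1) := Fin.ofNat (q + 1) (n % q).toNat

/-- a window of length `K` -/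
def win {α : Type} (ξ : ℤ → α) (K : ℕ) (n : ℤ) : Fin K → α := fun j => ξ (n + (j : ℕ))

/-- the primes in `(H/2, H]` -/
def PP (H : ℕ) : Finset ℕ := (Ioc (H / 2) H).filter Nat.Prime

/-- product of the values of `g` over the cube at `n` with sides `t i * c i` -/
noncomputable def cube {d : ℕ} (g : ℤ → ℝ) (c t : Fin d → ℤ) (n : ℤ) : ℝ :=
  ∏ S : Finset (Fin d), g (n + ∑ i ∈ S, t i * c i)

/-- a family of relations which is a group in each coordinate, up to errors -/
structure Coord (d : ℕ) (T : ℝ → (Fin d → ℤ) → Prop) : Prop where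
  mono : ∀ a b t, a ≤ b → T a t → T b t
  zero : ∀ t i, t i = 0 → T 0 t
  sub : ∀ a b t t' i, (∀ j, j ≠ i → t j = t' j) → T a t → T b t' →
    T (a + b) (Function.update t i (t i - t' i))

end Pool.Agent.Lib.TU
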