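import Pool.Agent.Lib.TU.Defs

/-!
# TU / PhiM (P3): moments of `n/φ(n)`
PROOF. `(v/φ v)^q = ∏_{p ∣ v} (1 - 1/p)^(-q) ≤ ∏_{p ∣ v} (1 + A/p) = ∑_{e ∣ v squarefree} ∏_{p ∣ e} A/p`, `A = 2 (2^q - 1)`;
`∑_{v ≤ V} ≤ V ∏_{p ≤ V} (1 + A/p²) ≤ V exp (A ∑ 1/n²)`.
-/

set_option autoImplicit false

open Finset

namespace Pool.Agent.Lib.TU

private theorem phiM_local (q : ℕ) {x : ℝ} (h0 : 0 ≤ x) (h1 : x ≤ 1 / 2) :
    ((1 - x)⁻¹) ^ q ≤ 1 + 2 * (2 ^ q - 1) * x := by
  induction q with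
  | zero => simp
  | succ q ih =>
    have hx : (1 - x)⁻¹ ≤ 1 + 2 * x := by
      rw [inv_le_iff_one_le_mul₀ (by linarith)]
      nlinarith
    have hpos : (0 : ℝ) ≤ (1 - x)⁻¹ := inv_nonneg.2 (by linarith)
    have h2 : (1 : ℝ) ≤ 2 ^ q := one_le_pow₀ (by norm_num)
    have h3 : (0 : ℝ) ≤ (2 ^ q - 1) * x := mul_nonneg (by linarith) h0
    calc ((1 - x)⁻¹) ^ (q + 1) = ((1 - x)⁻¹) ^ q * (1 - x)⁻¹ := pow_succ _ _
      _ ≤ (1 + 2 * (2 ^ q - 1) * x) * (1 + 2 * x) := by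
          apply mul_le_mul ih hx hpos
          nlinarith
      _ ≤ 1 + 2 * (2 ^ (q + 1) - 1) * x := by
          rw [pow_succ]
          nlinarith [mul_nonneg h3 (by linarith : (0 : ℝ) ≤ 1 - 2 * x)]

private theorem phiM_eq {v : ℕ} (hv : 0 < v) :
    (v : ℝ) / (Nat.totient v : ℝ) = ∏ p ∈ v.primeFactors, (1 - (p : ℝ)⁻¹)⁻¹ := by
  have h := Nat.totient_eq_mul_prod_factors v
  have h' : ((Nat.totient v : ℕ) : ℝ) = v * ∏ p ∈ v.primeFactors, (1 - (p : ℝ)⁻¹) := by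
    have := congrArg (fun x : ℚ => (x : ℝ)) h
    push_cast at this
    exact this
  have hv' : (v : ℝ) ≠ 0 := by exact_mod_cast hv.ne'
  rw [h', div_mul_eq_div_div, div_self hv', one_div, prod_inv_distrib]

private theorem phiM_count (V : ℕ) (t : Finset ℕ) (ht : ∀ p ∈ t, p.Prime) :
    (((Icc 1 V).filter fun v => ∀ p ∈ t, p ∣ v).card : ℝ) ≤ V / ∏ p ∈ t, (p : ℝ) := by
  have h1 : ((Icc 1 V).filter fun v => ∀ p ∈ t, p ∣ v) = (Ioc 0 V).filter fun v => (∏ p ∈ t, p) ∣ v := by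
    ext v
    simp only [mem_filter, mem_Icc, mem_Ioc]
    constructor
    · rintro ⟨h, h'⟩
      exact ⟨by omega, Finset.prod_primes_dvd v (fun p hp => (ht p hp).prime) h'⟩
    · rintro ⟨h, h'⟩
      exact ⟨by omega, fun p hp => (Finset.dvd_prod_of_mem _ hp).trans h'⟩
  rw [h1, Nat.Ioc_filter_dvd_card_eq_div]
  calc ((V / ∏ p ∈ t, p : ℕ) : ℝ) ≤ (V : ℝ) / ((∏ p ∈ t, p : ℕ) : ℝ) := Nat.cast_div_le
    _ = _ := by push_cast; rfl

theorem phi_moment (q : ℕ) : ∃ C : ℝ, 0 < C ∧ ∀ V : ℕ, ∑ v ∈ Icc 1 V, ((v : ℝ) / (Nat.totient v : ℝ)) ^ q ≤ C * V := by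
  classical
  have hsum : Summable fun n : ℕ => (1 : ℝ) / (n : ℝ) ^ 2 := Real.summable_one_div_nat_pow.2 (by norm_num)
  set A : ℝ := 2 * (2 ^ q - 1) with hA
  have hA0 : 0 ≤ A := by
    have : (1 : ℝ) ≤ 2 ^ q := one_le_pow₀ (by norm_num)
    rw [hA]; linarith
  refine ⟨Real.exp (A * ∑' n : ℕ, (1 : ℝ) / (n : ℝ) ^ 2), Real.exp_pos _, fun V => ?_⟩
  set P : Finset ℕ := (Icc 1 V).filter Nat.Prime with hP
  have hstep : ∀ v ∈ Icc 1 V, ((v : ℝ) / (Nat.totient v : ℝ)) ^ q ≤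
      ∑ t ∈ P.powerset, (∏ p ∈ t, (A / (p : ℝ))) * (if (∀ p ∈ t, p ∣ v) then 1 else 0) := by
    intro v hv
    have hv1 := mem_Icc.1 hv
    have hv0 : 0 < v := by omega
    have hpf : v.primeFactors = P.filter (· ∣ v) := by
      ext p
      simp only [Nat.mem_primeFactors, hP, mem_filter, mem_Icc]
      constructor
      · rintro ⟨h1, h2, h3⟩
        exact ⟨⟨⟨h1.one_le, (Nat.le_of_dvd hv0 h2).trans hv1.2⟩, h1⟩, h2⟩
      · rintro ⟨⟨_, h1⟩, h2⟩
        exact ⟨h1, h2, hv0.ne'⟩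
    rw [phiM_eq hv0, ← prod_pow]
    calc ∏ p ∈ v.primeFactors, ((1 - (p : ℝ)⁻¹)⁻¹) ^ q ≤ ∏ p ∈ v.primeFactors, (1 + A / (p : ℝ)) := by
          apply prod_le_prod
          · intro p hp
            have h2 : (2 : ℝ) ≤ p := by exact_mod_cast (Nat.prime_of_mem_primeFactors hp).two_le
            have : (p : ℝ)⁻¹ ≤ 1 / 2 := by
              rw [one_div]; exact inv_anti₀ (by norm_num) h2
            exact pow_nonneg (inv_nonneg.2 (by linarith)) _
          · intro p hp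
            have h2 : (2 : ℝ) ≤ p := by exact_mod_cast (Nat.prime_of_mem_primeFactors hp).two_le
            have h3 : (p : ℝ)⁻¹ ≤ 1 / 2 := by
              rw [one_div]; exact inv_anti₀ (by norm_num) h2
            exact phiM_local q (by positivity) h3
      _ = ∑ t ∈ (P.filter (· ∣ v)).powerset, ∏ p ∈ t, (A / (p : ℝ)) := by
          rw [hpf, Finset.prod_one_add]
      _ = ∑ t ∈ P.powerset, (∏ p ∈ t, (A / (p : ℝ))) * (if (∀ p ∈ t, p ∣ v) then 1 else 0) := by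
          have hsub : (P.filter (· ∣ v)).powerset = P.powerset.filter fun t => ∀ p ∈ t, p ∣ v := by
            ext t
            simp only [mem_powerset, mem_filter]
            constructor
            · intro h
              exact ⟨fun p hp => (mem_filter.1 (h hp)).1, fun p hp => (mem_filter.1 (h hp)).2⟩
            · rintro ⟨h1, h2⟩ p hp
              exact mem_filter.2 ⟨h1 hp, h2 p hp⟩
          rw [hsub, sum_filter]
          apply sum_congr rfl
          intro t _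
          split_ifs <;> simp
  calc ∑ v ∈ Icc 1 V, ((v : ℝ) / (Nat.totient v : ℝ)) ^ q
      ≤ ∑ v ∈ Icc 1 V, ∑ t ∈ P.powerset, (∏ p ∈ t, (A / (p : ℝ))) * (if (∀ p ∈ t, p ∣ v) then 1 else 0) :=
        sum_le_sum hstep
    _ = ∑ t ∈ P.powerset, (∏ p ∈ t, (A / (p : ℝ))) * (((Icc 1 V).filter fun v => ∀ p ∈ t, p ∣ v).card : ℝ) := by
        rw [sum_comm]
        apply sum_congr rfl
        intro t _
        rw [← mul_sum, sum_boole]
    _ ≤ ∑ t ∈ P.powerset, (∏ p ∈ t, (A / (p : ℝ))) * (V / ∏ p ∈ t, (p : ℝ)) := by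
        apply sum_le_sum
        intro t ht
        apply mul_le_mul_of_nonneg_left
        · exact phiM_count V t fun p hp => (mem_filter.1 (mem_powerset.1 ht hp)).2
        · exact prod_nonneg fun p _ => div_nonneg hA0 (Nat.cast_nonneg p)
    _ = (∑ t ∈ P.powerset, ∏ p ∈ t, (A * (1 / (p : ℝ) ^ 2))) * V := by
        rw [sum_mul]
        apply sum_congr rfl
        intro t _
        have : ∏ p ∈ t, (A * (1 / (p : ℝ) ^ 2)) = (∏ p ∈ t, (A / (p : ℝ))) * (∏ p ∈ t, (p : ℝ))⁻¹ := by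
          rw [← prod_inv_distrib, ← prod_mul_distrib]
          apply prod_congr rfl
          intro p _
          rw [pow_two]
          by_cases h : (p : ℝ) = 0
          · simp [h]
          · field_simp
        rw [this]
        ring
    _ = (∏ p ∈ P, (1 + A * (1 / (p : ℝ) ^ 2))) * V := by rw [Finset.prod_one_add]
    _ ≤ Real.exp (A * ∑' n : ℕ, (1 : ℝ) / (n : ℝ) ^ 2) * V := by
        apply mul_le_mul_of_nonneg_right _ (Nat.cast_nonneg V)
        calc ∏ p ∈ P, (1 + A * (1 / (p : ℝ) ^ 2)) ≤ ∏ p ∈ P, Real.exp (A * (1 / (p : ℝ) ^ 2)) := by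
              apply prod_le_prod
              · intro p _; positivity
              · intro p _
                rw [add_comm]; exact Real.add_one_le_exp _
          _ = Real.exp (A * ∑ p ∈ P, (1 / (p : ℝ) ^ 2)) := by rw [← Real.exp_sum, mul_sum]
          _ ≤ _ := by
              apply Real.exp_le_exp.2
              apply mul_le_mul_of_nonneg_left _ hA0
              exact hsum.sum_le_tsum P fun n _ => by positivity

theorem phi_ge_one {v : ℕ} (hv : 0 < v) : 1 ≤ (v : ℝ) / (Nat.totient v : ℝ) := by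
  have h : (0 : ℝ) < (Nat.totient v : ℝ) := by exact_mod_cast Nat.totient_pos.2 hv
  rw [le_div_iff₀ h, one_mul]
  exact_mod_cast Nat.totient_le v

/-- submultiplicativity -/
theorem phi_prod {ι : Type*} (s : Finset ι) (f : ι → ℕ) (hf : ∀ i ∈ s, 0 < f i) :
    ((∏ i ∈ s, f i : ℕ) : ℝ) / (Nat.totient (∏ i ∈ s, f i) : ℝ) ≤ ∏ i ∈ s, ((f i : ℝ) / (Nat.totient (f i) : ℝ)) := by
  classical
  induction s using Finset.induction_on with
  | empty => simp
  | insert a s ha ih =>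
    rw [prod_insert ha, prod_insert ha]
    have ha0 : 0 < f a := hf a (mem_insert_self _ _)
    have hs0 : 0 < ∏ i ∈ s, f i := prod_pos fun i hi => hf i (mem_insert_of_mem hi)
    have p1 : (0 : ℝ) < (Nat.totient (f a) : ℝ) := by exact_mod_cast Nat.totient_pos.2 ha0
    have p2 : (0 : ℝ) < (Nat.totient (∏ i ∈ s, f i) : ℝ) := by exact_mod_cast Nat.totient_pos.2 hs0
    have hsup : (Nat.totient (f a) : ℝ) * (Nat.totient (∏ i ∈ s, f i) : ℝ) ≤ (Nat.totient (f a * ∏ i ∈ s, f i) : ℝ) := by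
      exact_mod_cast Nat.totient_super_multiplicative (f a) (∏ i ∈ s, f i)
    calc ((f a * ∏ i ∈ s, f i : ℕ) : ℝ) / (Nat.totient (f a * ∏ i ∈ s, f i) : ℝ)
        ≤ ((f a * ∏ i ∈ s, f i : ℕ) : ℝ) / ((Nat.totient (f a) : ℝ) * (Nat.totient (∏ i ∈ s, f i) : ℝ)) := by
          apply div_le_div_of_nonneg_left (by positivity) (by positivity) hsup
      _ = (f a : ℝ) / (Nat.totient (f a) : ℝ) * (((∏ i ∈ s, f i : ℕ) : ℝ) / (Nat.totient (∏ i ∈ s, f i) : ℝ)) := by
          push_cast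
          rw [mul_div_mul_comm]
      _ ≤ _ := by
          apply mul_le_mul_of_nonneg_left (ih fun i hi => hf i (mem_insert_of_mem hi)) (by positivity)

end Pool.Agent.Lib.TU
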