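import Mathlib
import Pool.Agent.Lib.TU.PhiM

/-!
# TU / SingA (P5a): the average of the singular series over the sides
`nd t`: the `2^d` sums `∑_{i ∈ S} t i` are distinct; `Dl t` = the product of the absolute values of their differences.
PROOF. `phi_prod`: `Dl/φ(Dl) ≤ ∏_{S ≠ S'} v/φ(v)`, `v = |∑_S t - ∑_{S'} t| ≤ 2 d N`; a product of `n` numbers `≥ 1` is at most the sum of their `n`-th powers; for one pair `S ≠ S'` choose `i` in the symmetric difference:
for fixed other coordinates `t i ↦ ∑_S t - ∑_{S'} t` is injective, so each `v` appears at most twice: `∑_t (v/φ v)^m ≤ 2 (2N+1)^(d-1) ∑_{v ≤ 2dN} (v/φ v)^m`, `phi_moment`.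
`few_deg`: for one pair the number of `t` with equality is `≤ (2N+1)^(d-1)`; at most `4^d` pairs.
-/

set_option autoImplicit false

open Finset

namespace Pool.Agent.Lib.TU

/-- nondegenerate sides -/
def nd {d : ℕ} (t : Fin d → ℤ) : Prop := ∀ S S' : Finset (Fin d), S ≠ S' → ∑ i ∈ S, t i ≠ ∑ i ∈ S', t i

instance {d : ℕ} : DecidablePred (nd : (Fin d → ℤ) → Prop) := fun _ => by unfold nd; infer_instance

/-- product of the differences of the vertices -/
def Dl {d : ℕ} (t : Fin d → ℤ) : ℕ :=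
  ∏ q : Finset (Fin d) × Finset (Fin d), if q.1 = q.2 then 1 else (∑ i ∈ q.1, t i - ∑ i ∈ q.2, t i).natAbs

/-- the box of the sides -/
noncomputable def box (d N : ℕ) : Finset (Fin d → ℤ) := Fintype.piFinset fun _ : Fin d => Icc (-(N : ℤ)) N

theorem Dl_pos {d : ℕ} {t : Fin d → ℤ} (ht : nd t) : 0 < Dl t := by
  unfold Dl
  refine Finset.prod_pos fun q _ => ?_
  split_ifs with h
  · exact one_pos
  · exact Int.natAbs_pos.2 (sub_ne_zero.2 (ht q.1 q.2 h))

/-- the box with one coordinate fixed at `0` -/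
private noncomputable def box' (d N : ℕ) (i : Fin d) : Finset (Fin d → ℤ) :=
  Fintype.piFinset fun j : Fin d => if j = i then {0} else Icc (-(N : ℤ)) N

private theorem card_box' (d N : ℕ) (hN : 1 ≤ N) (i : Fin d) :
    ((box' d N i).card : ℝ) ≤ (3 * N : ℝ) ^ (d - 1) := by
  unfold box'
  rw [Fintype.card_piFinset]
  have h1 : ∀ j : Fin d, (if j = i then ({0} : Finset ℤ) else Icc (-(N : ℤ)) N).card
      = if j = i then 1 else 2 * N + 1 := by
    intro j
    split_ifs
    · simp
    · rw [Int.card_Icc]; omega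
  simp_rw [h1]
  rw [← Finset.mul_prod_erase univ _ (mem_univ i)]
  rw [if_pos rfl, one_mul]
  have h2 : ∏ x ∈ univ.erase i, (if x = i then 1 else 2 * N + 1) = (2 * N + 1) ^ (d - 1) := by
    rw [Finset.prod_congr rfl (g := fun _ => 2 * N + 1)
      (fun x hx => if_neg (Finset.ne_of_mem_erase hx))]
    rw [Finset.prod_const, Finset.card_erase_of_mem (mem_univ i), Finset.card_univ, Fintype.card_fin]
  rw [h2]
  push_cast
  have hN' : (1 : ℝ) ≤ N := by exact_mod_cast hN
  exact pow_le_pow_left₀ (by positivity) (by linarith) _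

private theorem card_box (d N : ℕ) (hN : 1 ≤ N) : ((box d N).card : ℝ) ≤ (3 * N : ℝ) ^ d := by
  unfold box
  rw [Fintype.card_piFinset]
  simp only [Int.card_Icc, Finset.prod_const, Finset.card_univ, Fintype.card_fin]
  have hN' : (1 : ℝ) ≤ N := by exact_mod_cast hN
  have h1 : ((N : ℤ) + 1 - -(N : ℤ)).toNat = 2 * N + 1 := by omega
  rw [h1]
  push_cast
  exact pow_le_pow_left₀ (by positivity) (by linarith) _

/-- the linear form of a pair -/
private def lf {d : ℕ} (S S' : Finset (Fin d)) (t : Fin d → ℤ) : ℤ := ∑ i ∈ S, t i - ∑ i ∈ S', t i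

private theorem lf_inj {d : ℕ} {S S' : Finset (Fin d)} {i : Fin d}
    (hi : (i ∈ S ∧ i ∉ S') ∨ (i ∉ S ∧ i ∈ S')) {t t' : Fin d → ℤ} (h : ∀ j, j ≠ i → t j = t' j)
    (hl : lf S S' t = lf S S' t') : t = t' := by
  have key : ∀ U : Finset (Fin d), ∑ j ∈ U, t j - ∑ j ∈ U, t' j = if i ∈ U then t i - t' i else 0 := by
    intro U
    rw [← Finset.sum_sub_distrib]
    split_ifs with hU
    · refine Finset.sum_eq_single i (fun j _ hj => ?_) (fun h => absurd hU h)
      rw [h j hj, sub_self]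
    · refine Finset.sum_eq_zero fun j hj => ?_
      rw [h j (fun e => hU (e ▸ hj)), sub_self]
  have h1 := key S
  have h2 := key S'
  unfold lf at hl
  have h3 : t i = t' i := by
    rcases hi with ⟨a, b⟩ | ⟨a, b⟩
    · rw [if_pos a] at h1
      rw [if_neg b] at h2
      omega
    · rw [if_neg a] at h1
      rw [if_pos b] at h2
      omega
  funext j
  by_cases hj : j = i
  · rw [hj, h3]
  · exact h j hj

private theorem upd_mem {d N : ℕ} {i : Fin d} {t : Fin d → ℤ} (ht : t ∈ box d N) :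
    Function.update t i 0 ∈ box' d N i := by
  unfold box at ht
  unfold box'
  rw [Fintype.mem_piFinset] at ht ⊢
  intro j
  by_cases hj : j = i
  · subst hj
    simp
  · rw [if_neg hj, Function.update_of_ne hj]
    exact ht j

private theorem upd_eq {d : ℕ} {i : Fin d} {t t' : Fin d → ℤ}
    (h : Function.update t i 0 = Function.update t' i 0) : ∀ j, j ≠ i → t j = t' j := by
  intro j hj
  have := congrFun h j
  rwa [Function.update_of_ne hj, Function.update_of_ne hj] at this

private theorem lf_abs {d N : ℕ} (S S' : Finset (Fin d)) {t : Fin d → ℤ} (ht : t ∈ box d N) :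
    |lf S S' t| ≤ 2 * d * N := by
  unfold box at ht
  rw [Fintype.mem_piFinset] at ht
  have h1 : ∀ U : Finset (Fin d), |∑ j ∈ U, t j| ≤ d * N := by
    intro U
    calc |∑ j ∈ U, t j| ≤ ∑ j ∈ U, |t j| := Finset.abs_sum_le_sum_abs _ _
      _ ≤ ∑ j ∈ U, (N : ℤ) := Finset.sum_le_sum fun j _ => by
          have := ht j
          rw [Finset.mem_Icc] at this
          exact abs_le.2 this
      _ = U.card * N := by rw [Finset.sum_const, nsmul_eq_mul]
      _ ≤ d * N := by
          have : U.card ≤ d := by simpa using Finset.card_le_univ U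
          exact mul_le_mul_of_nonneg_right (by exact_mod_cast this) (by positivity)
  unfold lf
  calc |∑ i ∈ S, t i - ∑ i ∈ S', t i| ≤ |∑ i ∈ S, t i| + |∑ i ∈ S', t i| := abs_sub _ _
    _ ≤ d * N + d * N := add_le_add (h1 S) (h1 S')
    _ = 2 * d * N := by ring

private theorem exists_symm {d : ℕ} {S S' : Finset (Fin d)} (h : S ≠ S') :
    ∃ i : Fin d, (i ∈ S ∧ i ∉ S') ∨ (i ∉ S ∧ i ∈ S') := by
  by_contra hc
  push Not at hc
  apply h
  ext i
  have := hc i
  tauto

/-- one pair -/
private theorem pair_avg {d N : ℕ} {S S' : Finset (Fin d)} (h : S ≠ S') (hN : 1 ≤ N) (g : ℕ → ℝ)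
    (hg : ∀ v, 0 ≤ g v) :
    ∑ t ∈ (box d N).filter nd, g (lf S S' t).natAbs ≤
      (3 * N : ℝ) ^ (d - 1) * (2 * ∑ v ∈ Icc 1 (2 * d * N), g v) := by
  classical
  obtain ⟨i, hi⟩ := exists_symm h
  set V : Finset ℤ := (Icc (-((2 * d * N : ℕ) : ℤ)) ((2 * d * N : ℕ) : ℤ)).erase 0 with hV
  have h1 : ∑ t ∈ (box d N).filter nd, g (lf S S' t).natAbs ≤
      ∑ q ∈ (box' d N i) ×ˢ V, g q.2.natAbs := by
    have h2 : ∑ t ∈ (box d N).filter nd, g (lf S S' t).natAbs
        = ∑ q ∈ ((box d N).filter nd).image (fun t => (Function.update t i 0, lf S S' t)), g q.2.natAbs := by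
      rw [Finset.sum_image]
      intro t _ t' _ htt
      simp only [Prod.mk.injEq] at htt
      exact lf_inj hi (upd_eq htt.1) htt.2
    rw [h2]
    refine Finset.sum_le_sum_of_subset_of_nonneg ?_ (fun q _ _ => hg _)
    intro q hq
    rw [Finset.mem_image] at hq
    obtain ⟨t, ht, rfl⟩ := hq
    rw [Finset.mem_filter] at ht
    rw [Finset.mem_product]
    refine ⟨upd_mem ht.1, ?_⟩
    rw [hV, Finset.mem_erase, Finset.mem_Icc]
    refine ⟨?_, ?_⟩
    · exact sub_ne_zero.2 (ht.2 S S' h)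
    · have := lf_abs S S' ht.1
      rw [abs_le] at this
      push_cast
      exact this
  refine h1.trans ?_
  rw [Finset.sum_product]
  simp only [Finset.sum_const, nsmul_eq_mul]
  refine mul_le_mul (card_box' d N hN i) ?_ (Finset.sum_nonneg fun v _ => hg _) (by positivity)
  -- the sum over nonzero integers
  have h3 : V ⊆ ((Icc 1 (2 * d * N)).image (fun v : ℕ => (v : ℤ))) ∪
      ((Icc 1 (2 * d * N)).image (fun v : ℕ => -(v : ℤ))) := by
    intro v hv
    rw [hV, Finset.mem_erase, Finset.mem_Icc] at hv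
    rw [Finset.mem_union, Finset.mem_image, Finset.mem_image]
    rcases le_total 0 v with hv0 | hv0
    · left
      refine ⟨v.toNat, ?_, by omega⟩
      rw [Finset.mem_Icc]
      omega
    · right
      refine ⟨(-v).toNat, ?_, by omega⟩
      rw [Finset.mem_Icc]
      omega
  calc ∑ v ∈ V, g v.natAbs
      ≤ ∑ v ∈ ((Icc 1 (2 * d * N)).image (fun v : ℕ => (v : ℤ))) ∪
          ((Icc 1 (2 * d * N)).image (fun v : ℕ => -(v : ℤ))), g v.natAbs :=
        Finset.sum_le_sum_of_subset_of_nonneg h3 (fun _ _ _ => hg _)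
    _ ≤ ∑ v ∈ (Icc 1 (2 * d * N)).image (fun v : ℕ => (v : ℤ)), g v.natAbs +
          ∑ v ∈ (Icc 1 (2 * d * N)).image (fun v : ℕ => -(v : ℤ)), g v.natAbs := by
        rw [← Finset.sum_union_inter]
        exact le_add_of_nonneg_right (Finset.sum_nonneg fun _ _ => hg _)
    _ = ∑ v ∈ Icc 1 (2 * d * N), g v + ∑ v ∈ Icc 1 (2 * d * N), g v := by
        rw [Finset.sum_image (fun a _ b _ hab => by exact_mod_cast hab),
          Finset.sum_image (fun a _ b _ hab => by simpa using hab)]
        simp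
    _ = 2 * ∑ v ∈ Icc 1 (2 * d * N), g v := by ring

private theorem prod_le_sum_pow {ι : Type*} [Fintype ι] [Nonempty ι] (a : ι → ℝ) (ha : ∀ q, 1 ≤ a q) :
    ∏ q, a q ≤ ∑ q, a q ^ (Fintype.card ι) := by
  obtain ⟨q0, -, hq0⟩ := Finset.exists_max_image (univ : Finset ι) a ⟨Classical.arbitrary ι, mem_univ _⟩
  calc ∏ q, a q ≤ ∏ _q : ι, a q0 :=
        Finset.prod_le_prod (fun q _ => by linarith [ha q]) (fun q _ => hq0 q (mem_univ q))
    _ = a q0 ^ (Fintype.card ι) := by rw [Finset.prod_const, Finset.card_univ]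
    _ ≤ ∑ q, a q ^ (Fintype.card ι) :=
        Finset.single_le_sum (f := fun q => a q ^ (Fintype.card ι))
          (fun q _ => pow_nonneg (by linarith [ha q]) _) (mem_univ q0)

theorem sing_avg (d m : ℕ) : ∃ C : ℝ, 0 < C ∧ ∀ N : ℕ, 1 ≤ N →
    ∑ t ∈ (box d N).filter nd, ((Dl t : ℝ) / (Nat.totient (Dl t) : ℝ)) ^ m ≤ C * (N : ℝ) ^ d := by
  classical
  set n : ℕ := Fintype.card (Finset (Fin d) × Finset (Fin d)) with hn
  obtain ⟨C, hC, hCb⟩ := phi_moment (m * n)
  refine ⟨n * (3 ^ d + 3 ^ (d - 1) * 2 * C * (2 * d)), ?_, ?_⟩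
  · have hn0 : 0 < n := Fintype.card_pos
    have : (0 : ℝ) < n := by exact_mod_cast hn0
    positivity
  intro N hN
  have hN' : (1 : ℝ) ≤ N := by exact_mod_cast hN
  -- the factor of a pair
  set a : (Fin d → ℤ) → (Finset (Fin d) × Finset (Fin d)) → ℝ := fun t q =>
    (((if q.1 = q.2 then 1 else (lf q.1 q.2 t).natAbs : ℕ) : ℝ) /
      (Nat.totient (if q.1 = q.2 then 1 else (lf q.1 q.2 t).natAbs) : ℝ)) with ha
  have hpos : ∀ t : Fin d → ℤ, nd t → ∀ q : Finset (Fin d) × Finset (Fin d),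
      0 < (if q.1 = q.2 then 1 else (lf q.1 q.2 t).natAbs : ℕ) := by
    intro t ht q
    split_ifs with h
    · exact one_pos
    · exact Int.natAbs_pos.2 (sub_ne_zero.2 (ht q.1 q.2 h))
  have ha1 : ∀ t : Fin d → ℤ, nd t → ∀ q, 1 ≤ a t q := fun t ht q => phi_ge_one (hpos t ht q)
  have h1 : ∀ t ∈ (box d N).filter nd, ((Dl t : ℝ) / (Nat.totient (Dl t) : ℝ)) ^ m ≤
      ∑ q, a t q ^ (m * n) := by
    intro t ht
    rw [Finset.mem_filter] at ht
    have h2 : (Dl t : ℝ) / (Nat.totient (Dl t) : ℝ) ≤ ∏ q, a t q :=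
      phi_prod univ (fun q : Finset (Fin d) × Finset (Fin d) =>
        if q.1 = q.2 then 1 else (lf q.1 q.2 t).natAbs) (fun q _ => hpos t ht.2 q)
    calc ((Dl t : ℝ) / (Nat.totient (Dl t) : ℝ)) ^ m ≤ (∏ q, a t q) ^ m :=
          pow_le_pow_left₀ (by positivity) h2 _
      _ = ∏ q, a t q ^ m := by rw [Finset.prod_pow]
      _ ≤ ∑ q, (a t q ^ m) ^ n := prod_le_sum_pow _ (fun q => one_le_pow₀ (ha1 t ht.2 q))
      _ = ∑ q, a t q ^ (m * n) := by
          refine Finset.sum_congr rfl fun q _ => ?_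
          rw [← pow_mul]
  calc ∑ t ∈ (box d N).filter nd, ((Dl t : ℝ) / (Nat.totient (Dl t) : ℝ)) ^ m
      ≤ ∑ t ∈ (box d N).filter nd, ∑ q, a t q ^ (m * n) := Finset.sum_le_sum h1
    _ = ∑ q, ∑ t ∈ (box d N).filter nd, a t q ^ (m * n) := Finset.sum_comm
    _ ≤ ∑ _q : Finset (Fin d) × Finset (Fin d), (3 ^ d + 3 ^ (d - 1) * 2 * C * (2 * d)) * (N : ℝ) ^ d := by
        refine Finset.sum_le_sum fun q _ => ?_
        by_cases hq : q.1 = q.2
        · have h3 : ∀ t ∈ (box d N).filter nd, a t q ^ (m * n) = 1 := by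
            intro t _
            simp only [ha, if_pos hq]
            simp
          rw [Finset.sum_congr rfl h3, Finset.sum_const, nsmul_eq_mul, mul_one]
          have h4 : (((box d N).filter nd).card : ℝ) ≤ ((box d N).card : ℝ) := by
            exact_mod_cast Finset.card_filter_le _ _
          have h5 := card_box d N hN
          have h6 : (3 * (N : ℝ)) ^ d = 3 ^ d * (N : ℝ) ^ d := mul_pow _ _ _
          have h7 : 0 ≤ 3 ^ (d - 1) * 2 * C * (2 * d) * (N : ℝ) ^ d := by positivity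
          nlinarith
        · have hd : 1 ≤ d := by
            rcases Nat.eq_zero_or_pos d with h | h
            · subst h
              exact absurd (Subsingleton.elim _ _) hq
            · exact h
          have h3 : ∀ t ∈ (box d N).filter nd, a t q ^ (m * n) =
              (fun v : ℕ => ((v : ℝ) / (Nat.totient v : ℝ)) ^ (m * n)) (lf q.1 q.2 t).natAbs := by
            intro t _
            simp only [ha, if_neg hq]
          rw [Finset.sum_congr rfl h3]
          have h4 := pair_avg hq hN (fun v : ℕ => ((v : ℝ) / (Nat.totient v : ℝ)) ^ (m * n))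
            (fun v => by positivity)
          have h5 := hCb (2 * d * N)
          refine h4.trans ?_
          have h6 : (3 * (N : ℝ)) ^ (d - 1) = 3 ^ (d - 1) * (N : ℝ) ^ (d - 1) := mul_pow _ _ _
          have h7 : (N : ℝ) ^ d = (N : ℝ) ^ (d - 1) * N := by
            rw [← pow_succ]
            congr 1
            omega
          calc (3 * (N : ℝ)) ^ (d - 1) * (2 * ∑ v ∈ Icc 1 (2 * d * N), ((v : ℝ) / (Nat.totient v : ℝ)) ^ (m * n))
              ≤ (3 * (N : ℝ)) ^ (d - 1) * (2 * (C * ((2 * d * N : ℕ) : ℝ))) := by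
                gcongr
            _ = 3 ^ (d - 1) * 2 * C * (2 * d) * (N : ℝ) ^ d := by
                rw [h6, h7]
                push_cast
                ring
            _ ≤ (3 ^ d + 3 ^ (d - 1) * 2 * C * (2 * d)) * (N : ℝ) ^ d := by
                have : (0 : ℝ) ≤ 3 ^ d * (N : ℝ) ^ d := by positivity
                nlinarith
    _ = n * (3 ^ d + 3 ^ (d - 1) * 2 * C * (2 * d)) * (N : ℝ) ^ d := by
        rw [Finset.sum_const, Finset.card_univ, nsmul_eq_mul]
        ring

theorem few_deg (d : ℕ) (hd : 1 ≤ d) (N : ℕ) (hN : 1 ≤ N) :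
    (((box d N).filter (fun t => ¬ nd t)).card : ℝ) ≤ 4 ^ d * (3 * N : ℝ) ^ (d - 1) := by
  classical
  have h1 : (box d N).filter (fun t => ¬ nd t) ⊆
      (univ : Finset (Finset (Fin d) × Finset (Fin d))).biUnion
        (fun q => (box d N).filter (fun t => q.1 ≠ q.2 ∧ lf q.1 q.2 t = 0)) := by
    intro t ht
    rw [Finset.mem_filter] at ht
    have h2 := ht.2
    unfold nd at h2
    push Not at h2
    obtain ⟨S, S', hS, he⟩ := h2
    rw [Finset.mem_biUnion]
    refine ⟨(S, S'), mem_univ _, ?_⟩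
    rw [Finset.mem_filter]
    exact ⟨ht.1, hS, sub_eq_zero.2 he⟩
  have h2 : ∀ q : Finset (Fin d) × Finset (Fin d),
      (((box d N).filter (fun t => q.1 ≠ q.2 ∧ lf q.1 q.2 t = 0)).card : ℝ) ≤ (3 * N : ℝ) ^ (d - 1) := by
    intro q
    by_cases hq : q.1 = q.2
    · have : (box d N).filter (fun t => q.1 ≠ q.2 ∧ lf q.1 q.2 t = 0) = ∅ := by
        refine Finset.filter_eq_empty_iff.2 fun t _ h => h.1 hq
      rw [this]
      simp only [Finset.card_empty, Nat.cast_zero]
      positivity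
    · obtain ⟨i, hi⟩ := exists_symm hq
      refine le_trans ?_ (card_box' d N hN i)
      have h3 : ((box d N).filter (fun t => q.1 ≠ q.2 ∧ lf q.1 q.2 t = 0)).card ≤ (box' d N i).card := by
        refine Finset.card_le_card_of_injOn (fun t => Function.update t i 0) ?_ ?_
        · intro t ht
          have ht' := Finset.mem_filter.1 (Finset.mem_coe.1 ht)
          exact Finset.mem_coe.2 (upd_mem ht'.1)
        · intro t ht t' ht' htt
          have h4 := Finset.mem_filter.1 (Finset.mem_coe.1 ht)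
          have h5 := Finset.mem_filter.1 (Finset.mem_coe.1 ht')
          exact lf_inj hi (upd_eq htt) (h4.2.2.trans h5.2.2.symm)
      exact_mod_cast h3
  calc (((box d N).filter (fun t => ¬ nd t)).card : ℝ)
      ≤ (((univ : Finset (Finset (Fin d) × Finset (Fin d))).biUnion
        (fun q => (box d N).filter (fun t => q.1 ≠ q.2 ∧ lf q.1 q.2 t = 0))).card : ℝ) := by
        exact_mod_cast Finset.card_le_card h1
    _ ≤ ((∑ q : Finset (Fin d) × Finset (Fin d),
          ((box d N).filter (fun t => q.1 ≠ q.2 ∧ lf q.1 q.2 t = 0)).card : ℕ) : ℝ) := by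
        exact_mod_cast Finset.card_biUnion_le
    _ = ∑ q : Finset (Fin d) × Finset (Fin d),
          (((box d N).filter (fun t => q.1 ≠ q.2 ∧ lf q.1 q.2 t = 0)).card : ℝ) := by push_cast; rfl
    _ ≤ ∑ _q : Finset (Fin d) × Finset (Fin d), (3 * N : ℝ) ^ (d - 1) := Finset.sum_le_sum fun q _ => h2 q
    _ = 4 ^ d * (3 * N : ℝ) ^ (d - 1) := by
        rw [Finset.sum_const, Finset.card_univ, nsmul_eq_mul, Fintype.card_prod, Fintype.card_finset,
          Fintype.card_fin]
        push_cast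
        rw [← mul_pow]
        norm_num

end Pool.Agent.Lib.TU
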