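import Pool.Agent.Lib.TU.Defs
import Pool.Agent.Lib.Sieve.TupleSieve

/-!
# TU / TupP (P2): upper bound sieve for tuples in a progression

As `Sieve.tuple_sieve`, with the shifts `h i + u`, `W u ≡ b` modulo the sifting primes.
-/

set_option autoImplicit false

open Finset

namespace Pool.Agent.Lib.TU

open Pool.Agent.Lib.Sieve

/-- bound of the sifted sum (the proof of `Sieve.tuple_count_le`) -/
private theorem sifted_le (k : ℕ) (hk : 1 ≤ k) (h : Fin k → ℕ) (N W M : ℕ) (hW : 1 ≤ W)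
    (hM0 : M ≠ 0) (hM : ∀ p, p.Prime → p ≤ k → p ∣ M)
    (hinj : ∀ i j, i ≠ j → ∀ p, p.Prime → (h i : ZMod p) = (h j : ZMod p) → p ∣ M) :
    (tupleSieve k h N (W ^ k) M hk hM).siftedSum ≤
      ((M : ℝ) / (Nat.totient M : ℝ)) ^ k * N / (Real.log (W + 1)) ^ k + (W : ℝ) ^ (4 * k) := by
  set s := tupleSieve k h N (W ^ k) M hk hM with hs
  have hZ : 1 ≤ W ^ k := Nat.one_le_pow _ _ hW
  have hsel := selberg_bound s (W ^ k) hZ
  have hharm : Real.log ((W : ℝ) + 1) ≤ ∑ w ∈ Finset.Icc 1 W, (1 : ℝ) / w := by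
    have h := log_add_one_le_harmonic W
    rw [harmonic_eq_sum_Icc] at h
    push_cast at h
    simpa [one_div] using h
  have hWr : (1 : ℝ) ≤ W := by exact_mod_cast hW
  have hlog : 0 < Real.log ((W : ℝ) + 1) := Real.log_pos (by linarith)
  have hS := selS_pos s (W ^ k) hZ
  have hSge : (∑ w ∈ Finset.Icc 1 W, (1 : ℝ) / w) ^ k ≤
      ((M : ℝ) / (Nat.totient M : ℝ)) ^ k * selS s (W ^ k) := tuple_selS_ge W hM0
  have hmain : s.totalMass / selS s (W ^ k)
      ≤ ((M : ℝ) / (Nat.totient M : ℝ)) ^ k * N / (Real.log (W + 1)) ^ k := by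
    change (N : ℝ) / selS s (W ^ k) ≤ _
    rw [div_le_div_iff₀ hS (by positivity)]
    have h3 : (Real.log ((W : ℝ) + 1)) ^ k
        ≤ ((M : ℝ) / (Nat.totient M : ℝ)) ^ k * selS s (W ^ k) :=
      (pow_le_pow_left₀ hlog.le hharm k).trans hSge
    calc (N : ℝ) * (Real.log ((W : ℝ) + 1)) ^ k
        ≤ (N : ℝ) * (((M : ℝ) / (Nat.totient M : ℝ)) ^ k * selS s (W ^ k)) := by gcongr
      _ = ((M : ℝ) / (Nat.totient M : ℝ)) ^ k * N * selS s (W ^ k) := by ring
  have herr : ∑ d1 ∈ s.prodPrimes.divisors with d1 ≤ W ^ k,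
      ∑ d2 ∈ s.prodPrimes.divisors with d2 ≤ W ^ k, |s.rem (d1.lcm d2)| ≤
        (W : ℝ) ^ (4 * k) := by
    have hterm : ∀ d1 ∈ s.prodPrimes.divisors.filter (fun d => d ≤ W ^ k),
        ∀ d2 ∈ s.prodPrimes.divisors.filter (fun d => d ≤ W ^ k),
        |s.rem (d1.lcm d2)| ≤ (W : ℝ) ^ (2 * k) := by
      intro d1 h1 d2 h2
      have h1' := Finset.mem_filter.mp h1
      have h2' := Finset.mem_filter.mp h2
      have hd1 := Nat.dvd_of_mem_divisors h1'.1
      have hd2 := Nat.dvd_of_mem_divisors h2'.1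
      have h10 := Nat.pos_of_mem_divisors h1'.1
      have h20 := Nat.pos_of_mem_divisors h2'.1
      refine (tuple_abs_rem_le hinj (Nat.lcm_dvd hd1 hd2)).trans ?_
      have : d1.lcm d2 ≤ W ^ (2 * k) := by
        calc d1.lcm d2 ≤ d1 * d2 := Nat.le_of_dvd (Nat.mul_pos h10 h20) (Nat.lcm_dvd_mul d1 d2)
          _ ≤ W ^ k * W ^ k := Nat.mul_le_mul h1'.2 h2'.2
          _ = W ^ (2 * k) := by ring
      exact_mod_cast this
    have hcard : ((s.prodPrimes.divisors.filter (fun d => d ≤ W ^ k)).card : ℝ) ≤ (W : ℝ) ^ k := by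
      have : (s.prodPrimes.divisors.filter (fun d => d ≤ W ^ k)).card ≤ W ^ k := by
        have hsub : s.prodPrimes.divisors.filter (fun d => d ≤ W ^ k) ⊆ Finset.Icc 1 (W ^ k) := by
          intro d hd
          have hd' := Finset.mem_filter.mp hd
          exact Finset.mem_Icc.mpr ⟨Nat.pos_of_mem_divisors hd'.1, hd'.2⟩
        exact (Finset.card_le_card hsub).trans (by simp)
      exact_mod_cast this
    calc ∑ d1 ∈ s.prodPrimes.divisors with d1 ≤ W ^ k,
          ∑ d2 ∈ s.prodPrimes.divisors with d2 ≤ W ^ k, |s.rem (d1.lcm d2)|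
        ≤ ∑ d1 ∈ s.prodPrimes.divisors with d1 ≤ W ^ k,
          ∑ d2 ∈ s.prodPrimes.divisors with d2 ≤ W ^ k, (W : ℝ) ^ (2 * k) :=
          Finset.sum_le_sum fun d1 h1 => Finset.sum_le_sum fun d2 h2 => hterm d1 h1 d2 h2
      _ = ((s.prodPrimes.divisors.filter (fun d => d ≤ W ^ k)).card : ℝ)
          * (((s.prodPrimes.divisors.filter (fun d => d ≤ W ^ k)).card : ℝ) *
            (W : ℝ) ^ (2 * k)) := by
          simp only [Finset.sum_const, nsmul_eq_mul]
      _ ≤ (W : ℝ) ^ k * ((W : ℝ) ^ k * (W : ℝ) ^ (2 * k)) := by gcongr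
      _ = (W : ℝ) ^ (4 * k) := by ring
  linarith

private theorem tp_count (k : ℕ) (hk : 1 ≤ k) (h : Fin k → ℕ) (N W b V M : ℕ) (hV : 1 ≤ V) (hW0 : 0 < W) (hWM : W ∣ M)
    (hM0 : M ≠ 0) (hM : ∀ p, p.Prime → p ≤ k → p ∣ M)
    (hinj : ∀ i j, i ≠ j → ∀ p, p.Prime → (h i : ZMod p) = (h j : ZMod p) → p ∣ M) :
    (((Finset.Icc 1 N).filter (fun n => ∀ i, (b + W * (n + h i)).Prime)).card : ℝ) ≤
      (V : ℝ) ^ k + ((M : ℝ) / (Nat.totient M : ℝ)) ^ k * N / (Real.log (V + 1)) ^ k +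
        (V : ℝ) ^ (4 * k) := by
  classical
  set P : ℕ := ∏ p ∈ (Finset.Icc 1 (V ^ k)).filter (fun p => p.Prime ∧ ¬ p ∣ M), p with hP
  have hPpos : 0 < P := Finset.prod_pos fun p hp => (Finset.mem_filter.mp hp).2.1.pos
  have hPM : Nat.Coprime P M := by
    rw [hP]
    apply Nat.Coprime.prod_left
    intro p hp
    have hp' := (Finset.mem_filter.mp hp).2
    exact (Nat.Prime.coprime_iff_not_dvd hp'.1).mpr hp'.2
  have hWP : Nat.Coprime W P := (hPM.coprime_dvd_right hWM).symm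
  have : NeZero P := ⟨hPpos.ne'⟩
  set u : ℕ := (((W : ZMod P))⁻¹ * (b : ZMod P)).val with hu
  have hub : W * u ≡ b [MOD P] := by
    rw [← ZMod.natCast_eq_natCast_iff]
    push_cast
    rw [hu, ZMod.natCast_zmod_val, ← mul_assoc, ZMod.coe_mul_inv_eq_one W hWP, one_mul]
  set h' : Fin k → ℕ := fun i => h i + u with hh'
  have hinj' : ∀ i j, i ≠ j → ∀ p, p.Prime → (h' i : ZMod p) = (h' j : ZMod p) → p ∣ M := by
    intro i j hij p hp he
    refine hinj i j hij p hp ?_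
    simp only [hh', Nat.cast_add] at he
    exact add_right_cancel he
  have hmain := sifted_le k hk h' N V M hV hM0 hM hinj'
  have h1 : (((Finset.Icc 1 N).filter (fun n => ∀ i, (b + W * (n + h i)).Prime)).card : ℝ)
      ≤ (V : ℝ) ^ k + (tupleSieve k h' N (V ^ k) M hk hM).siftedSum := by
    rw [tuple_siftedSum]
    have hsub : (Finset.Icc 1 N).filter (fun n => ∀ i, (b + W * (n + h i)).Prime) ⊆
        (Finset.Icc 1 (V ^ k)) ∪ ((Finset.Icc 1 N).filter (fun n =>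
          (tupleSieve k h' N (V ^ k) M hk hM).prodPrimes.Coprime (tupleProd h' n))) := by
      intro n hn
      have hn' := Finset.mem_filter.mp hn
      have hnI := Finset.mem_Icc.mp hn'.1
      rw [Finset.mem_union]
      by_cases hnV : n ≤ V ^ k
      · exact Or.inl (Finset.mem_Icc.mpr ⟨hnI.1, hnV⟩)
      · right
        refine Finset.mem_filter.mpr ⟨hn'.1, ?_⟩
        unfold tupleProd
        apply Nat.Coprime.prod_right
        intro i _
        rw [Nat.coprime_iff_gcd_eq_one]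
        by_contra hne
        obtain ⟨p, hp, hpd⟩ := Nat.exists_prime_and_dvd hne
        have hp1 : p ∣ (tupleSieve k h' N (V ^ k) M hk hM).prodPrimes := hpd.trans (Nat.gcd_dvd_left _ _)
        have hp2 : p ∣ n + h' i := hpd.trans (Nat.gcd_dvd_right _ _)
        have hpV := (tuple_prime_dvd_prodPrimes hp hp1).1
        have hpP : p ∣ P := hp1
        have hub' : W * u ≡ b [MOD p] := hub.of_dvd hpP
        have hp3 : p ∣ b + W * (n + h i) := by
          have h3 : W * (n + h' i) ≡ b + W * (n + h i) [MOD p] := by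
            have h4 : W * (n + h' i) = W * u + W * (n + h i) := by simp only [hh']; ring
            rw [h4]
            exact hub'.add_right _
          have h5 : p ∣ W * (n + h' i) := hp2.mul_left _
          exact Nat.modEq_zero_iff_dvd.mp (h3.symm.trans (Nat.modEq_zero_iff_dvd.mpr h5))
        have hpe : p = b + W * (n + h i) := (Nat.prime_dvd_prime_iff_eq hp (hn'.2 i)).mp hp3
        have h6 : n ≤ b + W * (n + h i) := by nlinarith
        omega
    have := (Finset.card_le_card hsub).trans (Finset.card_union_le _ _)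
    rw [Nat.card_Icc, Nat.add_sub_cancel] at this
    exact_mod_cast this
  linarith

theorem tuple_prog (k : ℕ) (hk : 1 ≤ k) : ∃ C : ℝ, 0 < C ∧ ∀ (N W b : ℕ) (h : Fin k → ℕ) (M : ℕ),
    2 ≤ N → 0 < W → W ∣ M → M ≠ 0 → (∀ p, p.Prime → p ≤ k → p ∣ M) →
    (∀ i j, i ≠ j → ∀ p, p.Prime → (h i : ZMod p) = (h j : ZMod p) → p ∣ M) →
    (((Finset.Icc 1 N).filter (fun n => ∀ i, (b + W * (n + h i)).Prime)).card : ℝ) ≤
      C * ((M : ℝ) / (Nat.totient M : ℝ)) ^ k * N / (Real.log N) ^ k := by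
  refine ⟨2 * (2 * (k + 1)) ^ k + (8 * k) ^ k, by positivity, ?_⟩
  intro N W0 b h M hN hW00 hWM hM0 hM hinj
  have hNr : (2 : ℝ) ≤ N := by exact_mod_cast hN
  have hN0 : (0 : ℝ) < N := by linarith
  have hlogN : 0 < Real.log N := Real.log_pos (by linarith)
  have hphi : 1 ≤ ((M : ℝ) / (Nat.totient M : ℝ)) ^ k :=
    one_le_pow₀ (one_le_div_totient M (Nat.pos_of_ne_zero hM0))
  have hkr : (1 : ℝ) ≤ k := by exact_mod_cast hk
  have hsqrt0 : 0 < Real.sqrt N := Real.sqrt_pos.mpr hN0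
  have hlog2 := log_pow_le k N (by linarith)
  have hsq : Real.sqrt N ≤ (2 * (k + 1)) ^ k * N / (Real.log N) ^ k := by
    rw [le_div_iff₀ (by positivity)]
    calc Real.sqrt N * (Real.log N) ^ k ≤ Real.sqrt N * ((2 * (k + 1)) ^ k * Real.sqrt N) := by
          gcongr
      _ = (2 * (k + 1)) ^ k * (Real.sqrt N * Real.sqrt N) := by ring
      _ = (2 * (k + 1)) ^ k * N := by rw [Real.mul_self_sqrt hN0.le]
  set W := ⌊(N : ℝ) ^ (1 / (8 * k) : ℝ)⌋₊ with hW
  have hexp : 0 ≤ (1 / (8 * k) : ℝ) := by positivity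
  have hpow1 : (1 : ℝ) ≤ (N : ℝ) ^ (1 / (8 * k) : ℝ) := Real.one_le_rpow (by linarith) hexp
  have hW1 : 1 ≤ W := Nat.one_le_floor_iff _ |>.mpr hpow1
  have hWle : (W : ℝ) ≤ (N : ℝ) ^ (1 / (8 * k) : ℝ) := Nat.floor_le (by positivity)
  have hWlt : (N : ℝ) ^ (1 / (8 * k) : ℝ) < W + 1 := Nat.lt_floor_add_one _
  have hW8 : (W : ℝ) ^ (4 * k) ≤ Real.sqrt N := by
    calc (W : ℝ) ^ (4 * k) ≤ ((N : ℝ) ^ (1 / (8 * k) : ℝ)) ^ (4 * k) := by gcongr
      _ = Real.sqrt N := by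
        rw [← Real.rpow_natCast, ← Real.rpow_mul hN0.le, Real.sqrt_eq_rpow]
        congr 1
        push_cast
        field_simp
        norm_num
  have hWr : (1 : ℝ) ≤ W := by exact_mod_cast hW1
  have hW2 : (W : ℝ) ^ k ≤ (W : ℝ) ^ (4 * k) := pow_le_pow_right₀ hWr (by omega)
  have hlogW : Real.log N / (8 * k) ≤ Real.log ((W : ℝ) + 1) := by
    have : Real.log ((N : ℝ) ^ (1 / (8 * k) : ℝ)) ≤ Real.log ((W : ℝ) + 1) :=
      Real.log_le_log (by positivity) hWlt.le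
    rw [Real.log_rpow hN0] at this
    calc Real.log N / (8 * k) = 1 / (8 * k) * Real.log N := by ring
      _ ≤ _ := this
  have hmain := tp_count k hk h N W0 b W M hW1 hW00 hWM hM0 hM hinj
  have hm : ((M : ℝ) / (Nat.totient M : ℝ)) ^ k * N / (Real.log ((W : ℝ) + 1)) ^ k
      ≤ (8 * k) ^ k * ((M : ℝ) / (Nat.totient M : ℝ)) ^ k * N / (Real.log N) ^ k := by
    have hl : (Real.log N / (8 * k)) ^ k ≤ (Real.log ((W : ℝ) + 1)) ^ k :=
      pow_le_pow_left₀ (by positivity) hlogW k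
    calc ((M : ℝ) / (Nat.totient M : ℝ)) ^ k * N / (Real.log ((W : ℝ) + 1)) ^ k
        ≤ ((M : ℝ) / (Nat.totient M : ℝ)) ^ k * N / (Real.log N / (8 * k)) ^ k := by gcongr
      _ = (8 * k) ^ k * ((M : ℝ) / (Nat.totient M : ℝ)) ^ k * N / (Real.log N) ^ k := by
        have e : (Real.log N / (8 * k)) ^ k = (Real.log N) ^ k / (8 * k) ^ k := div_pow _ _ _
        rw [e, div_div_eq_mul_div]
        ring
  have herr : 2 * Real.sqrt N ≤
      2 * (2 * (k + 1)) ^ k * ((M : ℝ) / (Nat.totient M : ℝ)) ^ k * N / (Real.log N) ^ k := by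
    calc 2 * Real.sqrt N ≤ 2 * ((2 * (k + 1)) ^ k * N / (Real.log N) ^ k) := by gcongr
      _ = 2 * (2 * (k + 1)) ^ k * 1 * N / (Real.log N) ^ k := by ring
      _ ≤ _ := by gcongr
  have hfin : (2 * (2 * (k + 1)) ^ k + (8 * k) ^ k) * ((M : ℝ) / (Nat.totient M : ℝ)) ^ k * N /
      (Real.log N) ^ k =
      2 * (2 * (k + 1)) ^ k * ((M : ℝ) / (Nat.totient M : ℝ)) ^ k * N / (Real.log N) ^ k +
      (8 * k) ^ k * ((M : ℝ) / (Nat.totient M : ℝ)) ^ k * N / (Real.log N) ^ k := by ring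
  rw [hfin]
  linarith

end Pool.Agent.Lib.TU
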