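import Pool.Agent.Lib.TU.CubL
import Pool.Agent.Lib.TU.SingA
import Pool.Agent.Lib.TU.TupP
import Pool.Agent.Lib.TU.Cnt

/-!
# TU / Dense (P5): the sides of cubes of good primes have positive density
-/

set_option autoImplicit false

open Finset

namespace Pool.Agent.Lib.TU

/-- one residue class with many elements -/
private theorem dense_class {W : ℕ} (hW : 0 < W) (G : Finset ℕ) (hG : ∀ p ∈ G, p.Prime ∧ W < p) :
    ∃ b, b < W ∧ G.card ≤ Nat.totient W * (G.filter (fun p => p % W = b)).card := by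
  classical
  by_contra hcon
  push Not at hcon
  have hmaps : ∀ p ∈ G, p % W ∈ (range W).filter (W.Coprime) := by
    intro p hp
    obtain ⟨hpp, hWp⟩ := hG p hp
    refine mem_filter.2 ⟨mem_range.2 (Nat.mod_lt _ hW), ?_⟩
    have h1 : Nat.Coprime W p := by
      rw [Nat.coprime_comm]
      exact (Nat.Prime.coprime_iff_not_dvd hpp).2 fun h => absurd (Nat.le_of_dvd hW h) (by omega)
    unfold Nat.Coprime at h1 ⊢
    rw [← h1]
    rw [Nat.gcd_comm W (p % W), ← Nat.gcd_rec]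
  have h1 : G.card = ∑ b ∈ (range W).filter W.Coprime, (G.filter (fun p => p % W = b)).card :=
    card_eq_sum_card_fiberwise hmaps
  have h2 : Nat.totient W * G.card < Nat.totient W * G.card := by
    calc Nat.totient W * G.card
        = ∑ b ∈ (range W).filter W.Coprime, Nat.totient W * (G.filter (fun p => p % W = b)).card := by
          rw [← mul_sum, ← h1]
      _ < ∑ b ∈ (range W).filter W.Coprime, G.card := by
          refine sum_lt_sum_of_nonempty ?_ fun b hb => hcon b (mem_range.1 (mem_filter.1 hb).1)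
          rw [← card_pos]
          exact Nat.totient_pos.2 hW
      _ = Nat.totient W * G.card := by
          rw [sum_const, smul_eq_mul]
          rfl
  exact absurd h2 (lt_irrefl _)

/-- upper bound for the number of cubes with given nondegenerate sides -/
private theorem nt_le {d : ℕ} {C : ℝ} (hC0 : 0 < C) (hC : ∀ (N W b : ℕ) (h : Fin (2 ^ d) → ℕ) (M : ℕ),
    2 ≤ N → 0 < W → W ∣ M → M ≠ 0 → (∀ p, p.Prime → p ≤ 2 ^ d → p ∣ M) →
    (∀ i j, i ≠ j → ∀ p, p.Prime → (h i : ZMod p) = (h j : ZMod p) → p ∣ M) →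
    (((Finset.Icc 1 N).filter (fun n => ∀ i, (b + W * (n + h i)).Prime)).card : ℝ) ≤
      C * ((M : ℝ) / (Nat.totient M : ℝ)) ^ (2 ^ d) * N / (Real.log N) ^ (2 ^ d))
    {N W b : ℕ} (hN : 2 ≤ N) (hW : 0 < W) (X : Finset ℤ) (hX : ∀ x ∈ X, 1 ≤ x ∧ x ≤ N)
    (hXp : ∀ x ∈ X, (b + W * x.toNat).Prime) (t : Fin d → ℤ) (ht : nd t) :
    (((Icc (1 : ℤ) N).filter (fun n => ∀ S : Finset (Fin d), n + ∑ i ∈ S, t i ∈ X)).card : ℝ) ≤
      C * (((2 ^ d).factorial : ℝ) / (Nat.totient (2 ^ d).factorial : ℝ)) ^ (2 ^ d) *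
        ((W : ℝ) / (Nat.totient W : ℝ)) ^ (2 ^ d) * ((Dl t : ℝ) / (Nat.totient (Dl t) : ℝ)) ^ (2 ^ d) *
          N / (Real.log N) ^ (2 ^ d) := by
  classical
  set m : ℤ := ∑ i, max (-t i) 0 with hm
  have hm0 : ∀ S : Finset (Fin d), 0 ≤ ∑ i ∈ S, t i + m := by
    intro S
    have h1 : ∑ i ∈ S, max (-t i) 0 ≤ m := by
      rw [hm]
      exact sum_le_sum_of_subset_of_nonneg (subset_univ _) fun i _ _ => le_max_right _ _
    have h2 : 0 ≤ ∑ i ∈ S, (t i + max (-t i) 0) := by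
      refine sum_nonneg fun i _ => ?_
      have := le_max_left (-t i) 0
      linarith
    rw [sum_add_distrib] at h2
    linarith
  have hmin : ∑ i ∈ univ.filter (fun i => t i < 0), t i = -m := by
    rw [hm, sum_filter, ← sum_neg_distrib]
    refine sum_congr rfl fun i _ => ?_
    by_cases h : t i < 0
    · rw [if_pos h, max_eq_left (by linarith)]
      ring
    · rw [if_neg h, max_eq_right (by linarith)]
      ring
  let e : Finset (Fin d) ≃ Fin (2 ^ d) := Fintype.equivFinOfCardEq (by simp)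
  let h : Fin (2 ^ d) → ℕ := fun i => (∑ j ∈ e.symm i, t j + m).toNat
  have hh : ∀ i, (h i : ℤ) = ∑ j ∈ e.symm i, t j + m := fun i => Int.toNat_of_nonneg (hm0 _)
  have hDl := Dl_pos ht
  set M : ℕ := W * ((2 ^ d).factorial * Dl t) with hM
  have hM0 : M ≠ 0 := by
    rw [hM]
    have := Nat.factorial_pos (2 ^ d)
    positivity
  have key := hC N W b h M hN hW (Dvd.intro _ rfl) hM0 (fun p hp hpk => by
      rw [hM]
      exact Dvd.dvd.mul_left (Dvd.dvd.mul_right ((Nat.Prime.dvd_factorial hp).2 hpk) _) _) (fun i j hij p hp heq => by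
      have h1 : ((h i : ℤ) : ZMod p) = ((h j : ℤ) : ZMod p) := by exact_mod_cast heq
      rw [hh, hh] at h1
      rw [ZMod.intCast_eq_intCast_iff_dvd_sub] at h1
      have h2 : (p : ℤ) ∣ ∑ k ∈ e.symm j, t k - ∑ k ∈ e.symm i, t k := by
        convert h1 using 1
        ring
      have h3 : p ∣ (∑ k ∈ e.symm j, t k - ∑ k ∈ e.symm i, t k).natAbs := by
        rwa [← Int.natCast_dvd]
      have h4 : e.symm j ≠ e.symm i := fun h => hij (e.symm.injective h).symm
      have h5 : (∑ k ∈ e.symm j, t k - ∑ k ∈ e.symm i, t k).natAbs ∣ Dl t := by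
        unfold Dl
        have h6 := Finset.dvd_prod_of_mem (fun q : Finset (Fin d) × Finset (Fin d) =>
          if q.1 = q.2 then 1 else (∑ i ∈ q.1, t i - ∑ i ∈ q.2, t i).natAbs) (mem_univ (e.symm j, e.symm i))
        simpa [h4] using h6
      rw [hM]
      exact ((h3.trans h5).mul_left _).mul_left _)
  have hcard : ((Icc (1 : ℤ) N).filter (fun n => ∀ S : Finset (Fin d), n + ∑ i ∈ S, t i ∈ X)).card ≤
      ((Finset.Icc 1 N).filter (fun n => ∀ i, (b + W * (n + h i)).Prime)).card := by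
    refine card_le_card_of_injOn (fun n => (n - m).toNat) ?_ ?_
    · intro n hn
      have hn' := (mem_filter.1 (mem_coe.1 hn)).2
      have h1 := hn' (univ.filter (fun i => t i < 0))
      rw [hmin] at h1
      have h2 := hX _ h1
      rw [mem_coe, mem_filter, mem_Icc]
      refine ⟨⟨?_, ?_⟩, fun i => ?_⟩
      · change 1 ≤ (n - m).toNat
        omega
      · change (n - m).toNat ≤ N
        omega
      · have h3 := hXp _ (hn' (e.symm i))
        convert h3 using 3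
        have h4 := hh i
        have h5 := hX _ (hn' (e.symm i))
        simp only
        omega
    · intro n hn n' hn' heq
      have h1 := (mem_filter.1 (mem_coe.1 hn)).2 (univ.filter (fun i => t i < 0))
      have h2 := (mem_filter.1 (mem_coe.1 hn')).2 (univ.filter (fun i => t i < 0))
      rw [hmin] at h1 h2
      have h3 := hX _ h1
      have h4 := hX _ h2
      simp only at heq
      omega
  have hlog : 0 < Real.log N := Real.log_pos (by exact_mod_cast (by omega : 1 < N))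
  have hphi : (M : ℝ) / (Nat.totient M : ℝ) ≤ ((W : ℝ) / (Nat.totient W : ℝ)) *
      ((((2 ^ d).factorial : ℕ) : ℝ) / (Nat.totient (2 ^ d).factorial : ℝ) * ((Dl t : ℝ) / (Nat.totient (Dl t) : ℝ))) := by
    have h1 := phi_prod (Finset.univ : Finset (Fin 3)) ![W, (2 ^ d).factorial, Dl t] (by
      intro i _
      fin_cases i
      · exact hW
      · exact Nat.factorial_pos _
      · exact hDl)
    have h2 : ∏ i, (![W, (2 ^ d).factorial, Dl t] : Fin 3 → ℕ) i = M := by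
      rw [Fin.prod_univ_three, hM, ← mul_assoc]
      rfl
    rw [h2] at h1
    refine h1.trans (le_of_eq ?_)
    rw [Fin.prod_univ_three, ← mul_assoc]
    rfl
  calc (((Icc (1 : ℤ) N).filter (fun n => ∀ S : Finset (Fin d), n + ∑ i ∈ S, t i ∈ X)).card : ℝ)
      ≤ (((Finset.Icc 1 N).filter (fun n => ∀ i, (b + W * (n + h i)).Prime)).card : ℝ) := by exact_mod_cast hcard
    _ ≤ C * ((M : ℝ) / (Nat.totient M : ℝ)) ^ (2 ^ d) * N / (Real.log N) ^ (2 ^ d) := key
    _ ≤ C * (((W : ℝ) / (Nat.totient W : ℝ)) *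
      ((((2 ^ d).factorial : ℕ) : ℝ) / (Nat.totient (2 ^ d).factorial : ℝ) * ((Dl t : ℝ) / (Nat.totient (Dl t) : ℝ)))) ^ (2 ^ d) * N / (Real.log N) ^ (2 ^ d) := by
        gcongr
    _ = _ := by
        rw [mul_pow, mul_pow]
        ring

/-- the cubes by sides -/
private theorem card_cubes_eq (d N : ℕ) (X : Finset ℤ) : (cubes d N X).card =
    ∑ t ∈ box d N, ((Icc (1 : ℤ) N).filter (fun n => ∀ S : Finset (Fin d), n + ∑ i ∈ S, t i ∈ X)).card := by
  classical
  rw [card_eq_sum_card_fiberwise (f := Prod.snd) (t := box d N)]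
  · refine sum_congr rfl fun t ht => ?_
    refine card_bij (fun q _ => q.1) ?_ ?_ ?_
    · intro q hq
      rw [mem_filter, cubes, mem_filter, mem_product] at hq
      obtain ⟨⟨⟨h1, _⟩, h2⟩, rfl⟩ := hq
      exact mem_filter.2 ⟨h1, h2⟩
    · intro q hq q' hq' h
      have h1 := (mem_filter.1 hq).2
      have h2 := (mem_filter.1 hq').2
      exact Prod.ext h (h1.trans h2.symm)
    · intro n hn
      rw [mem_filter] at hn
      refine ⟨(n, t), ?_, rfl⟩
      rw [mem_filter, cubes, mem_filter, mem_product]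
      exact ⟨⟨⟨hn.1, ht⟩, hn.2⟩, rfl⟩
  · intro q hq
    rw [mem_coe, cubes, mem_filter, mem_product] at hq
    exact hq.1.2

private theorem log_pow_le (K : ℝ) (hK : 0 < K) (J : ℕ) : ∃ N0 : ℕ, ∀ N : ℕ, N0 ≤ N → K * (Real.log N) ^ J ≤ N := by
  have h1 := (Real.isLittleO_pow_log_id_atTop (n := J)).def (c := 1 / K) (by positivity)
  have h2 := tendsto_natCast_atTop_atTop (R := ℝ) |>.eventually h1
  obtain ⟨N0, hN0⟩ := Filter.eventually_atTop.1 h2
  refine ⟨N0, fun N hN => ?_⟩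
  have h3 := hN0 N hN
  simp only [id, Real.norm_eq_abs] at h3
  have h4 : (Real.log N) ^ J ≤ 1 / K * N := by
    have h5 : |(N : ℝ)| = N := abs_of_nonneg (Nat.cast_nonneg _)
    rw [h5] at h3
    exact (le_abs_self _).trans h3
  calc K * (Real.log N) ^ J ≤ K * (1 / K * N) := by gcongr
    _ = N := by field_simp

theorem dense (d : ℕ) (hd : 1 ≤ d) : ∃ c : ℝ, 0 < c ∧ ∀ W : ℕ, 0 < W → ∃ H0 : ℕ, ∀ H : ℕ, H0 ≤ H → ∀ G : Finset ℕ, G ⊆ PP H →
    (PP H).card ≤ 2 * G.card → ∃ b : ℕ, b < W ∧ ∃ A : Finset (Fin d → ℤ), (∀ t ∈ A, ∀ i, |t i| ≤ (H / W : ℕ)) ∧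
      c * (2 * (H / W : ℕ) + 1 : ℝ) ^ d ≤ (A.card : ℝ) ∧
      ∀ t ∈ A, ∃ j : ℤ, ∀ S : Finset (Fin d), ∃ p ∈ G, (p : ℤ) = b + W * (j + ∑ i ∈ S, t i) := by
  classical
  obtain ⟨c0, hc0, H1, hH1⟩ := card_PP
  obtain ⟨C, hC0, hC⟩ := tuple_prog (2 ^ d) (Nat.one_le_two_pow)
  obtain ⟨C2, hC2, hC2'⟩ := sing_avg d (2 ^ d * 2)
  set F : ℝ := (((2 ^ d).factorial : ℝ) / (Nat.totient (2 ^ d).factorial : ℝ)) ^ (2 ^ d) with hF
  have hF1 : 1 ≤ F := one_le_pow₀ (phi_ge_one (Nat.factorial_pos _))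
  have hF0 : 0 < F := lt_of_lt_of_le one_pos hF1
  set c1 : ℝ := (c0 / 4) ^ (2 ^ d) / 3 ^ (2 ^ d - d - 1) with hc1
  have hc1p : 0 < c1 := by positivity
  obtain ⟨N0, hN0⟩ := log_pow_le (4 ^ d * 3 ^ (d - 1) * 2 / c1) (by positivity) (2 ^ d)
  refine ⟨(c1 / (2 * (C * F))) ^ 2 / (C2 * 3 ^ d), by positivity, fun W hW => ⟨max H1 (W * (N0 + 2 * W + 3)), fun H hH G hG hcard => ?_⟩⟩
  have hH1' : H1 ≤ H := (le_max_left _ _).trans hH
  have hH2' : W * (N0 + 2 * W + 3) ≤ H := (le_max_right _ _).trans hH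
  set N : ℕ := H / W with hN
  have hNN0 : N0 + 2 * W + 3 ≤ N := (Nat.le_div_iff_mul_le hW).2 (by rw [mul_comm]; exact hH2')
  have hWN : W * N ≤ H := by rw [mul_comm]; exact Nat.div_mul_le_self H W
  have hHN' : H < W * (N + 1) := by
    have := Nat.lt_mul_div_succ H hW
    exact this
  have hHN : H ≤ N * N := by nlinarith
  have hWp : ∀ p ∈ G, p.Prime ∧ W < p := by
    intro p hp
    have h1 := hG hp
    rw [PP, mem_filter, mem_Ioc] at h1
    refine ⟨h1.2, lt_of_le_of_lt ?_ h1.1.1⟩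
    rw [Nat.le_div_iff_mul_le (by norm_num)]
    nlinarith
  have hpH : ∀ p ∈ G, p ≤ H := by
    intro p hp
    have h1 := hG hp
    rw [PP, mem_filter, mem_Ioc] at h1
    exact h1.1.2
  obtain ⟨b, hb, hbG⟩ := dense_class hW G hWp
  set G' := G.filter (fun p => p % W = b) with hG'
  set X : Finset ℤ := G'.image (fun p => ((p / W : ℕ) : ℤ)) with hXdef
  have hdm : ∀ p ∈ G', b + W * (p / W) = p := by
    intro p hp
    have h1 := (mem_filter.1 hp).2
    rw [← h1]
    exact Nat.mod_add_div p W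
  have hXcard : X.card = G'.card := by
    refine card_image_of_injOn fun p hp q hq h => ?_
    have h1 : p / W = q / W := by exact_mod_cast h
    rw [← hdm p hp, ← hdm q hq, h1]
  have hX : ∀ x ∈ X, 1 ≤ x ∧ x ≤ N := by
    intro x hx
    obtain ⟨p, hp, rfl⟩ := mem_image.1 hx
    have hpG := (mem_filter.1 hp).1
    constructor
    · have h1 : 1 ≤ p / W := (Nat.le_div_iff_mul_le hW).2 (by rw [one_mul]; exact (hWp p hpG).2.le)
      exact_mod_cast h1
    · have h1 : p / W ≤ H / W := Nat.div_le_div_right (hpH p hpG)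
      exact_mod_cast h1
  have hXG : ∀ x ∈ X, ∃ p ∈ G, (p : ℤ) = b + W * x := by
    intro x hx
    obtain ⟨p, hp, rfl⟩ := mem_image.1 hx
    refine ⟨p, (mem_filter.1 hp).1, ?_⟩
    exact_mod_cast (hdm p hp).symm
  have hXp : ∀ x ∈ X, (b + W * x.toNat).Prime := by
    intro x hx
    obtain ⟨p, hp, rfl⟩ := mem_image.1 hx
    rw [Int.toNat_natCast, hdm p hp]
    exact (hWp p (mem_filter.1 hp).1).1
  have hN2 : 2 ≤ N := by omega
  have hNpos : (0 : ℝ) < N := by exact_mod_cast (by omega : 0 < N)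
  have hlogN : 0 < Real.log N := Real.log_pos (by exact_mod_cast (by omega : 1 < N))
  have hHpos : (0 : ℝ) < H := by exact_mod_cast (by nlinarith : 0 < H)
  have hH1lt : 1 < H := by nlinarith
  have hlogHp : 0 < Real.log H := Real.log_pos (by exact_mod_cast hH1lt)
  have hlogH : Real.log H ≤ 2 * Real.log N := by
    have h1 : (H : ℝ) ≤ (N : ℝ) * N := by exact_mod_cast hHN
    calc Real.log H ≤ Real.log ((N : ℝ) * N) := Real.log_le_log hHpos h1
      _ = 2 * Real.log N := by rw [Real.log_mul hNpos.ne' hNpos.ne']; ring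
  have hphi0 : (0 : ℝ) < Nat.totient W := by exact_mod_cast Nat.totient_pos.2 hW
  have hW0 : (0 : ℝ) < W := by exact_mod_cast hW
  set R : ℝ := (W : ℝ) / (Nat.totient W : ℝ) with hR
  have hR1 : 1 ≤ R := phi_ge_one hW
  have hR0 : 0 < R := lt_of_lt_of_le one_pos hR1
  have hXsize : (c0 / 4) * R * (N / Real.log N) ≤ X.card := by
    have h1 : (G.card : ℝ) ≤ (Nat.totient W : ℝ) * G'.card := by exact_mod_cast hbG
    have h2 : ((PP H).card : ℝ) ≤ 2 * G.card := by exact_mod_cast hcard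
    have h3 := hH1 H hH1'
    have h4 : c0 * (W * N) / (2 * Real.log N) ≤ c0 * H / Real.log H := by
      have h5 : (W : ℝ) * N ≤ H := by exact_mod_cast hWN
      gcongr
    have h5 : c0 * (W * N) / (2 * Real.log N) ≤ 2 * ((Nat.totient W : ℝ) * G'.card) := by linarith
    rw [hXcard, hR]
    calc (c0 / 4) * ((W : ℝ) / (Nat.totient W : ℝ)) * (N / Real.log N)
        = (c0 * (W * N) / (2 * Real.log N)) / (2 * (Nat.totient W : ℝ)) := by field_simp; ring
      _ ≤ (2 * ((Nat.totient W : ℝ) * G'.card)) / (2 * (Nat.totient W : ℝ)) := by gcongr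
      _ = G'.card := by field_simp
  have hcub := card_cubes d N X (by omega) hX
  have hexp : 2 ^ d = (2 ^ d - d - 1) + (d + 1) := by
    have := Nat.lt_two_pow_self (n := d)
    omega
  set Q : ℝ := R ^ (2 ^ d) * (N : ℝ) ^ (d + 1) / (Real.log N) ^ (2 ^ d) with hQ
  have hcubes : c1 * Q ≤ (cubes d N X).card := by
    have h1 : ((c0 / 4) * R * (N / Real.log N)) ^ (2 ^ d) ≤ (3 * N : ℝ) ^ (2 ^ d - d - 1) * ((cubes d N X).card : ℝ) :=
      (pow_le_pow_left₀ (by positivity) hXsize _).trans hcub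
    have h2 : ((c0 / 4) * R * (N / Real.log N)) ^ (2 ^ d) = (3 * N : ℝ) ^ (2 ^ d - d - 1) * (c1 * Q) := by
      have h3 : (N : ℝ) ^ (2 ^ d) = (N : ℝ) ^ (2 ^ d - d - 1) * (N : ℝ) ^ (d + 1) := by rw [← pow_add, ← hexp]
      rw [hQ, hc1, mul_pow, mul_pow, div_pow (N : ℝ), h3, mul_pow]
      field_simp
    rw [h2] at h1
    exact le_of_mul_le_mul_left h1 (by positivity)
  set n : (Fin d → ℤ) → ℕ := fun t => ((Icc (1 : ℤ) N).filter (fun n => ∀ S : Finset (Fin d), n + ∑ i ∈ S, t i ∈ X)).card with hn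
  have hsum : ((cubes d N X).card : ℝ) = ∑ t ∈ (box d N).filter nd, (n t : ℝ) + ∑ t ∈ (box d N).filter (fun t => ¬ nd t), (n t : ℝ) := by
    rw [sum_filter_add_sum_filter_not, card_cubes_eq, Nat.cast_sum]
  have hdeg : ∑ t ∈ (box d N).filter (fun t => ¬ nd t), (n t : ℝ) ≤ c1 / 2 * Q := by
    have h1 : ∀ t ∈ (box d N).filter (fun t => ¬ nd t), (n t : ℝ) ≤ N := by
      intro t _
      have h2 : n t ≤ N := by
        rw [hn]
        refine (card_filter_le _ _).trans ?_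
        rw [Int.card_Icc]
        omega
      exact_mod_cast h2
    have h2 := sum_le_card_nsmul _ _ _ h1
    rw [nsmul_eq_mul] at h2
    have h3 := few_deg d hd N (by omega)
    have h4 := hN0 N (by omega)
    have h5 : (N : ℝ) ^ d = (N : ℝ) ^ (d - 1) * N := by
      rw [← pow_succ]
      congr 1
      omega
    have hR2 : 1 ≤ R ^ (2 ^ d) := one_le_pow₀ hR1
    calc ∑ t ∈ (box d N).filter (fun t => ¬ nd t), (n t : ℝ)
        ≤ (4 ^ d * (3 * N : ℝ) ^ (d - 1)) * N := h2.trans (by gcongr)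
      _ = (c1 / 2) * (N ^ d * (4 ^ d * 3 ^ (d - 1) * 2 / c1 * (Real.log N) ^ (2 ^ d))) / (Real.log N) ^ (2 ^ d) := by
          rw [h5, mul_pow]
          field_simp
      _ ≤ (c1 / 2) * (N ^ d * N) / (Real.log N) ^ (2 ^ d) := by gcongr
      _ = (c1 / 2) * (1 * N ^ (d + 1) / (Real.log N) ^ (2 ^ d)) := by
          rw [pow_succ]
          ring
      _ ≤ (c1 / 2) * Q := by
          rw [hQ]
          gcongr
  have hnd : c1 / 2 * Q ≤ ∑ t ∈ (box d N).filter nd, (n t : ℝ) := by linarith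
  set A : Finset (Fin d → ℤ) := ((box d N).filter nd).filter (fun t => 0 < n t) with hA
  set s : (Fin d → ℤ) → ℝ := fun t => (Dl t : ℝ) / (Nat.totient (Dl t) : ℝ) with hs
  have hs1 : ∀ t ∈ (box d N).filter nd, 1 ≤ s t := fun t ht => phi_ge_one (Dl_pos (mem_filter.1 ht).2)
  have hupper : ∑ t ∈ (box d N).filter nd, (n t : ℝ) ≤ C * F * R ^ (2 ^ d) * N / (Real.log N) ^ (2 ^ d) * ∑ t ∈ A, (s t) ^ (2 ^ d) := by
    calc ∑ t ∈ (box d N).filter nd, (n t : ℝ) = ∑ t ∈ A, (n t : ℝ) := by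
          refine (sum_filter_of_ne fun t _ h => ?_).symm
          exact Nat.pos_of_ne_zero fun h0 => h (by rw [h0, Nat.cast_zero])
      _ ≤ ∑ t ∈ A, C * F * R ^ (2 ^ d) * N / (Real.log N) ^ (2 ^ d) * (s t) ^ (2 ^ d) := by
          refine sum_le_sum fun t ht => ?_
          have h1 := nt_le hC0 hC hN2 hW X hX hXp t (mem_filter.1 (mem_filter.1 ht).1).2
          refine h1.trans (le_of_eq ?_)
          rw [hs, hF, hR]
          ring
      _ = _ := by rw [mul_sum]
  have hsA : c1 / (2 * (C * F)) * (N : ℝ) ^ d ≤ ∑ t ∈ A, (s t) ^ (2 ^ d) := by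
    have h1 := hnd.trans hupper
    have h2 : c1 / 2 * Q = C * F * R ^ (2 ^ d) * N / (Real.log N) ^ (2 ^ d) * (c1 / (2 * (C * F)) * (N : ℝ) ^ d) := by
      rw [hQ, pow_succ]
      field_simp
    rw [h2] at h1
    exact le_of_mul_le_mul_left h1 (by positivity)
  have hcs : (∑ t ∈ A, (s t) ^ (2 ^ d)) ^ 2 ≤ A.card * (C2 * (N : ℝ) ^ d) := by
    calc (∑ t ∈ A, (s t) ^ (2 ^ d)) ^ 2 ≤ A.card * ∑ t ∈ A, ((s t) ^ (2 ^ d)) ^ 2 := sq_sum_le_card_mul_sum_sq
      _ ≤ A.card * ∑ t ∈ (box d N).filter nd, ((s t) ^ (2 ^ d)) ^ 2 :=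
          mul_le_mul_of_nonneg_left (sum_le_sum_of_subset_of_nonneg (filter_subset _ _) fun t _ _ => sq_nonneg _) (Nat.cast_nonneg _)
      _ ≤ A.card * (C2 * (N : ℝ) ^ d) := by
          refine mul_le_mul_of_nonneg_left ?_ (Nat.cast_nonneg _)
          have h1 := hC2' N (by omega)
          refine le_trans (le_of_eq (sum_congr rfl fun t _ => ?_)) h1
          rw [← pow_mul]
  have hfin : (c1 / (2 * (C * F))) ^ 2 / (C2 * 3 ^ d) * (2 * (N : ℝ) + 1) ^ d ≤ (A.card : ℝ) := by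
    have h1 : (c1 / (2 * (C * F)) * (N : ℝ) ^ d) ^ 2 ≤ A.card * (C2 * (N : ℝ) ^ d) :=
      (pow_le_pow_left₀ (by positivity) hsA 2).trans hcs
    have h2 : (2 * (N : ℝ) + 1) ^ d ≤ 3 ^ d * (N : ℝ) ^ d := by
      rw [← mul_pow]
      have h3 : (1 : ℝ) ≤ N := by exact_mod_cast (by omega : 1 ≤ N)
      exact pow_le_pow_left₀ (by positivity) (by linarith) _
    have h3 : (c1 / (2 * (C * F))) ^ 2 * (N : ℝ) ^ d / C2 ≤ A.card := by
      rw [div_le_iff₀ hC2]
      have h4 : (c1 / (2 * (C * F))) ^ 2 * (N : ℝ) ^ d * (N : ℝ) ^ d ≤ A.card * C2 * (N : ℝ) ^ d := by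
        calc (c1 / (2 * (C * F))) ^ 2 * (N : ℝ) ^ d * (N : ℝ) ^ d = (c1 / (2 * (C * F)) * (N : ℝ) ^ d) ^ 2 := by ring
          _ ≤ A.card * (C2 * (N : ℝ) ^ d) := h1
          _ = A.card * C2 * (N : ℝ) ^ d := by ring
      exact le_of_mul_le_mul_right h4 (by positivity)
    calc (c1 / (2 * (C * F))) ^ 2 / (C2 * 3 ^ d) * (2 * (N : ℝ) + 1) ^ d
        ≤ (c1 / (2 * (C * F))) ^ 2 / (C2 * 3 ^ d) * (3 ^ d * (N : ℝ) ^ d) := by gcongr
      _ = (c1 / (2 * (C * F))) ^ 2 * (N : ℝ) ^ d / C2 := by field_simp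
      _ ≤ A.card := h3
  refine ⟨b, hb, A, ?_, hfin, ?_⟩
  · intro t ht i
    have h1 := (mem_filter.1 (mem_filter.1 ht).1).1
    rw [box, Fintype.mem_piFinset] at h1
    have h2 := mem_Icc.1 (h1 i)
    exact abs_le.2 h2
  · intro t ht
    have h1 := (mem_filter.1 ht).2
    rw [hn] at h1
    obtain ⟨j, hj⟩ := card_pos.1 h1
    have h2 := (mem_filter.1 hj).2
    exact ⟨j, fun S => hXG _ (h2 S)⟩

end Pool.Agent.Lib.TU
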