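import Pool.Agent.Lib.TU.Basic

/-!
# TU / Ent (E1): elementary rules for the entropy
-/

set_option autoImplicit false

open Finset

namespace Pool.Agent.Lib.TU

variable {L : (ℤ → ℝ) →ₗ[ℝ] ℝ} {α β γ : Type} [Fintype α] [Fintype β] [Fintype γ]

/-- `negMulLog` is subadditive on nonnegative numbers -/
private theorem ent_nml_sum {ι : Type} (s : Finset ι) (x : ι → ℝ) (hx : ∀ i ∈ s, 0 ≤ x i) :
    Real.negMulLog (∑ i ∈ s, x i) ≤ ∑ i ∈ s, Real.negMulLog (x i) := by
  have h1 : Real.negMulLog (∑ i ∈ s, x i) = ∑ i ∈ s, -(x i * Real.log (∑ i ∈ s, x i)) := by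
    rw [Real.negMulLog, neg_mul, Finset.sum_mul, Finset.sum_neg_distrib]
  rw [h1]
  refine Finset.sum_le_sum fun i hi => ?_
  rw [Real.negMulLog, neg_mul, neg_le_neg_iff]
  rcases (hx i hi).eq_or_lt with h0 | h0
  · rw [← h0, zero_mul, zero_mul]
  · exact mul_le_mul_of_nonneg_left (Real.log_le_log h0 (Finset.single_le_sum hx hi)) h0.le

theorem ent_nonneg (hL : IsMean L) (f : ℤ → α) : 0 ≤ ent L f :=
  Finset.sum_nonneg fun _ _ => Real.negMulLog_nonneg (pr_nonneg hL _) (pr_le_one hL _)

theorem ent_le_log_card (hL : IsMean L) (f : ℤ → α) : ent L f ≤ Real.log (Fintype.card α) := by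
  have hne : Nonempty α := ⟨f 0⟩
  have hc : (0 : ℝ) < Fintype.card α := by exact_mod_cast Fintype.card_pos
  have h1 : ∀ a : α, Real.negMulLog (pr L fun n => f n = a) - (pr L fun n => f n = a) * Real.log (Fintype.card α) ≤
      1 / (Fintype.card α : ℝ) - pr L fun n => f n = a := by
    intro a
    have h0 := pr_nonneg hL (fun n => f n = a)
    generalize (pr L fun n => f n = a) = p at h0
    rcases h0.eq_or_lt with h | h
    · rw [← h]
      simp only [Real.negMulLog_zero, zero_mul, sub_zero]
      positivity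
    · have h2 := Real.log_le_sub_one_of_pos (show 0 < 1 / (Fintype.card α * p) by positivity)
      rw [Real.log_div one_ne_zero (by positivity), Real.log_one, Real.log_mul hc.ne' h.ne', zero_sub] at h2
      have h3 := mul_le_mul_of_nonneg_left h2 h.le
      have h4 : p * (1 / (Fintype.card α * p) - 1) = 1 / (Fintype.card α : ℝ) - p := by
        field_simp
      rw [h4] at h3
      rw [Real.negMulLog]
      linarith
  have h5 := Finset.sum_le_sum fun a (_ : a ∈ (Finset.univ : Finset α)) => h1 a
  rw [Finset.sum_sub_distrib, Finset.sum_sub_distrib, ← Finset.sum_mul, sum_pr hL f, Finset.sum_const, nsmul_eq_mul,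
    Finset.card_univ, mul_one_div_cancel hc.ne', sub_self, one_mul] at h5
  unfold ent
  linarith

theorem ent_comp_le (hL : IsMean L) (f : ℤ → α) (φ : α → β) : ent L (fun n => φ (f n)) ≤ ent L f := by
  classical
  have h1 : ∀ b : β, pr L (fun n => φ (f n) = b) = ∑ a ∈ Finset.univ.filter (fun a => φ a = b), pr L fun n => f n = a := by
    intro b
    rw [pr_def, L_comp f (fun a => if φ a = b then (1 : ℝ) else 0), Finset.sum_filter]
    refine Finset.sum_congr rfl fun a _ => ?_
    split_ifs
    · rw [one_mul]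
    · rw [zero_mul]
  unfold ent
  rw [← Finset.sum_fiberwise (s := Finset.univ) (g := φ) (f := fun a => Real.negMulLog (pr L fun n => f n = a))]
  refine Finset.sum_le_sum fun b _ => ?_
  rw [h1]
  exact ent_nml_sum _ _ fun a _ => pr_nonneg hL _

private theorem ent_factor_le (hL : IsMean L) (f : ℤ → α) (g : ℤ → β) (h : ∀ m n, g m = g n → f m = f n) :
    ent L f ≤ ent L g := by
  classical
  have h1 : ∃ φ : β → α, ∀ n, φ (g n) = f n := by
    refine ⟨fun b => if hb : ∃ n, g n = b then f hb.choose else f 0, fun n => ?_⟩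
    have hb : ∃ m, g m = g n := ⟨n, rfl⟩
    simp only [dif_pos hb]
    exact h _ _ hb.choose_spec
  obtain ⟨φ, hφ⟩ := h1
  have h2 := ent_comp_le hL g φ
  have h3 : (fun n => φ (g n)) = f := funext hφ
  rwa [h3] at h2

/-- entropies of equivalent functions -/
theorem ent_congr (hL : IsMean L) (f : ℤ → α) (g : ℤ → β) (h : ∀ m n, f m = f n ↔ g m = g n) : ent L f = ent L g :=
  le_antisymm (ent_factor_le hL f g fun m n => (h m n).2) (ent_factor_le hL g f fun m n => (h m n).1)

theorem ent_shift (hL : IsMean L) (f : ℤ → α) (m : ℤ) : ent L (fun n => f (n + m)) = ent L f := by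
  unfold ent
  refine Finset.sum_congr rfl fun a _ => ?_
  rw [pr_shift hL (fun n => f n = a) m]

end Pool.Agent.Lib.TU
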