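import Pool.Agent.Lib.TU.Basic

/-!
# TU / Frob (C4): equal sides, and `(1 - T^D)^(2^m) = 1 - T^(2^m D)` modulo 2
PROOF. `∂ g n = g n * g (n + D)`, `∂^[d] g n = ∏_{S ⊂ [d]} g (n + |S| D)` (cube with all sides `D`; in the hypothesis `t i * c i = D` for all `i`). Outside error sets: `∂^[e] g = 1` with error `η` gives `∂^[e+1] g = 1` with error `2 η`; so
`∂^[2^d] g = 1` with error `2^(2^d) η` (`d ≤ 2^d`). For `g` with values `±1`: `∂^[2^m] g n = g n * g (n + 2^m D)` (induction: `∂^[2^(m+1)] = ∂^[2^m] ∘ ∂^[2^m]`, squares cancel; where `g` vanishes add the null sets of the finitely many shifts).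
-/

set_option autoImplicit false

open Finset

namespace Pool.Agent.Lib.TU

/-- multiplicative derivative -/
private noncomputable def dd (D : ℤ) (g : ℤ → ℝ) (n : ℤ) : ℝ := g n * g (n + D)

private theorem dd_powerset {ι : Type} [DecidableEq ι] (D : ℤ) (s : Finset ι) : ∀ (g : ℤ → ℝ) (n : ℤ),
    ∏ T ∈ s.powerset, g (n + T.card * D) = (dd D)^[s.card] g n := by
  induction s using Finset.induction_on with
  | empty => intro g n; simp
  | insert a s ha ih =>
    intro g n
    rw [Finset.prod_powerset_insert ha, card_insert_of_notMem ha, Function.iterate_succ_apply, ← ih (dd D g) n,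
      ← prod_mul_distrib]
    refine prod_congr rfl fun T hT => ?_
    have haT : a ∉ T := fun h => ha (mem_powerset.1 hT h)
    rw [card_insert_of_notMem haT]
    unfold dd
    congr 2
    push_cast
    ring

private theorem cube_dd {d : ℕ} (g : ℤ → ℝ) (c t : Fin d → ℤ) (D : ℤ) (hD : ∀ i, t i * c i = D) (n : ℤ) :
    cube g c t n = (dd D)^[d] g n := by
  have h := dd_powerset D (univ : Finset (Fin d)) g n
  rw [Finset.powerset_univ, card_univ, Fintype.card_fin] at h
  rw [← h]
  unfold cube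
  refine prod_congr rfl fun S _ => ?_
  congr 2
  rw [sum_congr rfl fun i _ => hD i, sum_const, nsmul_eq_mul]

private theorem dd_frob (D : ℤ) (m : ℕ) : ∀ g : ℤ → ℝ, (∀ n, g n * g n = 1) → ∀ n,
    (dd D)^[2 ^ m] g n = g n * g (n + 2 ^ m * D) := by
  induction m with
  | zero => intro g _ n; simp [dd]
  | succ m ih =>
    intro g hg n
    have e1 : (2 : ℕ) ^ (m + 1) = 2 ^ m + 2 ^ m := by ring
    have h1 : (dd D)^[2 ^ m] g = fun n => g n * g (n + 2 ^ m * D) := funext fun n => ih g hg n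
    rw [e1, Function.iterate_add_apply, h1]
    rw [ih _ (fun n => by
      have h2 := hg n
      have h3 := hg (n + 2 ^ m * D)
      calc g n * g (n + 2 ^ m * D) * (g n * g (n + 2 ^ m * D)) = (g n * g n) * (g (n + 2 ^ m * D) * g (n + 2 ^ m * D)) := by ring
        _ = 1 := by rw [h2, h3, one_mul])]
    have h4 := hg (n + 2 ^ m * D)
    have e2 : n + 2 ^ m * D + 2 ^ m * D = n + 2 ^ (m + 1) * D := by ring
    rw [e2]
    calc g n * g (n + 2 ^ m * D) * (g (n + 2 ^ m * D) * g (n + 2 ^ (m + 1) * D))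
        = g n * (g (n + 2 ^ m * D) * g (n + 2 ^ m * D)) * g (n + 2 ^ (m + 1) * D) := by ring
      _ = _ := by rw [h4, mul_one]

private theorem dd_err {L : (ℤ → ℝ) →ₗ[ℝ] ℝ} (hL : IsMean L) (D : ℤ) (g : ℤ → ℝ) (e : ℕ) (η : ℝ)
    (h : pr L (fun n => (dd D)^[e] g n ≠ 1) ≤ η) (j : ℕ) : pr L (fun n => (dd D)^[e + j] g n ≠ 1) ≤ 2 ^ j * η := by
  induction j with
  | zero => simpa using h
  | succ j ih =>
    have h1 : pr L (fun n => (dd D)^[e + (j + 1)] g n ≠ 1) ≤
        pr L (fun n => (dd D)^[e + j] g n ≠ 1 ∨ (dd D)^[e + j] g (n + D) ≠ 1) := by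
      refine pr_mono hL fun n hn => ?_
      by_contra hne
      push Not at hne
      apply hn
      rw [← add_assoc, Function.iterate_succ_apply']
      show (dd D)^[e + j] g n * (dd D)^[e + j] g (n + D) = 1
      rw [hne.1, hne.2, one_mul]
    refine h1.trans ((pr_or_le hL _ _).trans ?_)
    rw [pr_shift hL (fun n => (dd D)^[e + j] g n ≠ 1)]
    calc _ ≤ 2 ^ j * η + 2 ^ j * η := add_le_add ih ih
      _ = 2 ^ (j + 1) * η := by ring

theorem frob {L : (ℤ → ℝ) →ₗ[ℝ] ℝ} (hL : IsMean L) {d : ℕ} (g : ℤ → ℝ) (hg : ∀ n, g n = 1 ∨ g n = -1 ∨ g n = 0)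
    (h0 : pr L (fun n => g n = 0) = 0) (c t : Fin d → ℤ) (D : ℤ) (hD : ∀ i, t i * c i = D) (η : ℝ)
    (h : pr L (fun n => cube g c t n ≠ 1) ≤ η) : pr L (fun n => g n ≠ g (n + 2 ^ d * D)) ≤ 2 ^ (2 ^ d) * η := by
  classical
  have hη : 0 ≤ η := (pr_nonneg hL _).trans h
  -- make `g` nonzero everywhere
  set g' : ℤ → ℝ := fun n => if g n = 0 then 1 else g n with hg'
  have hsq : ∀ n, g' n * g' n = 1 := by
    intro n
    simp only [hg']
    split_ifs with hn
    · norm_num
    · rcases hg n with h | h | h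
      · rw [h]; norm_num
      · rw [h]; norm_num
      · exact absurd h hn
  have hgg : ∀ n, g n ≠ 0 → g' n = g n := by
    intro n hn
    simp only [hg', if_neg hn]
  have h1 : pr L (fun n => (dd D)^[d] g' n ≠ 1) ≤ η := by
    have h2 : pr L (fun n => (dd D)^[d] g' n ≠ 1) ≤ pr L (fun n => cube g c t n ≠ 1 ∨
        ∃ S ∈ (univ : Finset (Finset (Fin d))), g (n + ∑ j ∈ S, t j * c j) = 0) := by
      refine pr_mono hL fun n hn => ?_
      by_contra hne
      push Not at hne
      apply hn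
      rw [← cube_dd g' c t D hD, ← hne.1]
      unfold cube
      exact prod_congr rfl fun S _ => hgg _ (hne.2 S (mem_univ _))
    refine h2.trans ((pr_or_le hL _ _).trans ?_)
    have h3 : pr L (fun n => ∃ S ∈ (univ : Finset (Finset (Fin d))), g (n + ∑ j ∈ S, t j * c j) = 0) ≤ 0 := by
      refine (pr_exists_le hL _ _).trans (le_of_eq (sum_eq_zero fun S _ => ?_))
      rw [pr_shift hL (fun n => g n = 0), h0]
    linarith
  have hd : d + (2 ^ d - d) = 2 ^ d := by
    have := (Nat.lt_two_pow_self (n := d)).le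
    omega
  have h4 := dd_err hL D g' d η h1 (2 ^ d - d)
  rw [hd] at h4
  have h5 : pr L (fun n => g n ≠ g (n + 2 ^ d * D)) ≤ pr L (fun n => (dd D)^[2 ^ d] g' n ≠ 1 ∨ (g n = 0 ∨ g (n + 2 ^ d * D) = 0)) := by
    refine pr_mono hL fun n hn => ?_
    by_contra hne
    push Not at hne
    apply hn
    obtain ⟨e1, e2, e3⟩ := hne
    rw [dd_frob D d g' hsq, hgg n e2, hgg _ e3] at e1
    rcases hg n with h | h | h
    · rw [h] at e1 ⊢
      linarith
    · rw [h] at e1 ⊢
      linarith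
    · exact absurd h e2
  refine h5.trans ((pr_or_le hL _ _).trans ?_)
  have h6 := pr_or_le hL (fun n => g n = 0) (fun n => g (n + 2 ^ d * D) = 0)
  rw [pr_shift hL (fun n => g n = 0), h0] at h6
  have h7 : (2 : ℝ) ^ (2 ^ d - d) * η ≤ 2 ^ (2 ^ d) * η := by
    refine mul_le_mul_of_nonneg_right ?_ hη
    exact pow_le_pow_right₀ (by norm_num) (Nat.sub_le _ _)
  linarith

end Pool.Agent.Lib.TU
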