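import Pool.Agent.Lib.TU.Dense
import Pool.Agent.Lib.TU.Clos
import Pool.Agent.Lib.TU.CubR
import Pool.Agent.Lib.TU.CubC
import Pool.Agent.Lib.TU.Frob

/-!
# TU / GapB (C5b): from the good primes to long relations for one form
PROOF. `c0` from `dense d`, `M, C1` from `clos d c0`, `C = 2^(2^d) C1 2^d`. `H0` from `dense` with `W = A`. Given the data: `dense` gives `b`, a set `T0`; for `t ∈ T0`, `j` as there: `cubr` with `r = b + A j`, `s = t` (the primes are `r + A ∑_S t`): relation for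
`lam (A (m + ∑_S t i (h_last - h i)) + (b + A j) h_last) = g (m + j h_last + ∑ ...)`, `g m = lam (A m + b h_last)`; `pr_shift`: `pr (cube g c t ≠ 1) ≤ 2^d ε`, `c i = h_last - h i`. `g = 0` at most at one point (`pr_single`). `cubc`, `clos` with `N = H / A`: for `z' i = (E / c i) z`
(`E = ∏ c i`, `c i ∣ E`; `M |z' i| ≤ M |E| |z| ≤ N`): `pr (cube g c (M z') ≠ 1) ≤ C1 2^d ε`, all sides `M z' i c i = M E z = D`. `frob`.
-/

set_option autoImplicit false

open Finset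

namespace Pool.Agent.Lib.TU

theorem lam_three (n : ℤ) : lam n = 1 ∨ lam n = -1 ∨ lam n = 0 := by
  by_cases h : n = 0
  · right; right; rw [h, lam_zero]
  · rcases lam_cases h with h | h
    · exact Or.inl h
    · exact Or.inr (Or.inl h)

theorem lam_eq_zero {n : ℤ} (h : lam n = 0) : n = 0 := by
  by_contra h1
  rcases lam_cases h1 with h2 | h2 <;> rw [h] at h2 <;> norm_num at h2

theorem long_rel (d : ℕ) (hd : 1 ≤ d) : ∃ (M : ℕ) (C : ℝ), 0 < M ∧ 0 < C ∧ ∀ A : ℕ, 0 < A → ∃ H0 : ℕ, ∀ H : ℕ, H0 ≤ H → ∀ G : Finset ℕ, G ⊆ PP H →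
    (PP H).card ≤ 2 * G.card → ∀ L : (ℤ → ℝ) →ₗ[ℝ] ℝ, IsMean L → ∀ h : Fin (d + 1) → ℤ, Function.Injective h → ∀ σ ε : ℝ, σ = 1 ∨ σ = -1 → 0 ≤ ε →
    (∀ p ∈ G, pr L (fun m => ∏ i, lam (A * m + p * h i) ≠ σ) ≤ ε) →
    ∃ b : ℕ, b < A ∧ ∀ z : ℤ, M * |∏ i : Fin d, (h (Fin.last d) - h (Fin.castSucc i))| * |z| ≤ (H / A : ℕ) →
      pr L (fun n => lam (A * n + b * h (Fin.last d)) ≠
        lam (A * (n + 2 ^ d * (M * (∏ i : Fin d, (h (Fin.last d) - h (Fin.castSucc i))) * z)) + b * h (Fin.last d))) ≤ C * ε := by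
  obtain ⟨c0, hc0, hdense⟩ := dense d hd
  obtain ⟨M, C1, hM, hC1, hclos⟩ := clos d c0 hc0
  refine ⟨M, 2 ^ (2 ^ d) * (C1 * 2 ^ d) + 1, hM, by positivity, fun A hA => ?_⟩
  obtain ⟨H0, hH0⟩ := hdense A hA
  refine ⟨H0, fun H hH G hG hGc L hL h hinj σ ε hσ hε hrel => ?_⟩
  obtain ⟨b, hb, T0, hT1, hT2, hT3⟩ := hH0 H hH G hG hGc
  refine ⟨b, hb, fun z hz => ?_⟩
  set hl : ℤ := h (Fin.last d) with hhl
  set c : Fin d → ℤ := fun i => hl - h (Fin.castSucc i) with hc
  set g : ℤ → ℝ := fun n => lam (A * n + b * hl) with hg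
  have hAz : (A : ℤ) ≠ 0 := by exact_mod_cast hA.ne'
  have hg3 : ∀ n, g n = 1 ∨ g n = -1 ∨ g n = 0 := fun n => lam_three _
  have hg0 : pr L (fun n => g n = 0) = 0 := by
    refine le_antisymm ?_ (pr_nonneg hL _)
    refine le_trans (pr_mono hL (t := fun n => n = -(b * hl) / A) fun n hn => ?_) (le_of_eq (pr_single hL _))
    have h1 := lam_eq_zero hn
    have h2 : -(b * hl) = A * n := by linarith
    rw [h2, Int.mul_ediv_cancel_left _ hAz]
  have hci : ∀ i, c i ≠ 0 := fun i h0 => by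
    have h1 : hl = h (Fin.castSucc i) := by
      have : hl - h (Fin.castSucc i) = 0 := h0
      linarith
    have h2 := hinj h1
    exact (Fin.castSucc_lt_last i).ne h2.symm
  have hcoord := cubc hL g hg3 hg0 c
  -- the relations at the sides in `T0`
  have hT0 : ∀ t ∈ T0, pr L (fun n => cube g c t n ≠ 1) ≤ 2 ^ d * ε := by
    intro t ht
    obtain ⟨j, hj⟩ := hT3 t ht
    have h1 := cubr hL hd A h (b + A * j) t σ ε hσ (fun S => by
      obtain ⟨p, hp, hpe⟩ := hj S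
      have h2 := hrel p hp
      have h3 : (b : ℤ) + A * j + A * ∑ i ∈ S, t i = (p : ℤ) := by rw [hpe]; ring
      rw [h3]
      exact h2)
    rw [← pr_shift hL (fun n => cube g c t n ≠ 1) (j * hl)]
    refine le_trans (le_of_eq (pr_congr fun m => ?_)) h1
    rw [not_iff_not]
    have h4 : cube g c t (m + j * hl) =
        ∏ S : Finset (Fin d), lam (A * (m + ∑ i ∈ S, t i * (h (Fin.last d) - h (Fin.castSucc i))) + (b + A * j) * h (Fin.last d)) := by
      unfold cube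
      refine prod_congr rfl fun S _ => ?_
      simp only [hg, hc, hhl]
      congr 1
      ring
    rw [h4]
  have h5 := hclos (H / A) _ hcoord T0 (2 ^ d * ε) (by positivity) hT0 (fun t ht i => hT1 t ht i) hT2
    (fun i => (∏ k ∈ univ.erase i, c k) * z) (fun i => ?_)
  · have hE : ∀ i, (M : ℤ) * ((∏ k ∈ univ.erase i, c k) * z) * c i = M * (∏ k, c k) * z := fun i => by
      have h6 : (∏ k ∈ univ.erase i, c k) * c i = ∏ k, c k := prod_erase_mul _ _ (mem_univ i)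
      rw [← h6]
      ring
    have h7 := frob hL g hg3 hg0 c (fun i => (M : ℤ) * ((∏ k ∈ univ.erase i, c k) * z)) (M * (∏ k, c k) * z) hE
      (C1 * (2 ^ d * ε)) h5
    refine h7.trans ?_
    have h8 : (2 : ℝ) ^ (2 ^ d) * (C1 * (2 ^ d * ε)) = 2 ^ (2 ^ d) * (C1 * 2 ^ d) * ε := by ring
    rw [h8]
    exact mul_le_mul_of_nonneg_right (by linarith) hε
  · refine le_trans ?_ hz
    rw [abs_mul, ← mul_assoc]
    refine mul_le_mul_of_nonneg_right (mul_le_mul_of_nonneg_left ?_ (by positivity)) (abs_nonneg _)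
    rw [abs_prod, abs_prod, ← prod_erase_mul univ (fun k => |c k|) (mem_univ i)]
    exact le_mul_of_one_le_right (prod_nonneg fun _ _ => abs_nonneg _) (Int.one_le_abs (hci i))

end Pool.Agent.Lib.TU
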