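import Pool.Agent.Lib.TU.Basic
import Pool.Agent.Lib.MRT.LamAP

/-!
# TU / MrP (R2): Matomäki–Radziwiłł for `λ` in progressions in terms of the mean

From `MRT.lam_ap` (natural averages) by `dyad`.
-/

set_option autoImplicit false

open Finset

namespace Pool.Agent.Lib.TU

theorem lam_nat {n : ℕ} (hn : n ≠ 0) : lam (n : ℤ) = Pool.Agent.Lib.MP_45349e_nt.LS.lam n := by
  unfold lam Pool.Agent.Lib.MP_45349e_nt.LS.lam
  rw [Int.natAbs_natCast, ArithmeticFunction.liouville_apply hn]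
  push_cast
  rfl

theorem mr_prog {L : (ℤ → ℝ) →ₗ[ℝ] ℝ} (hL : IsMean L) (q : ℕ) (hq : 0 < q) (η : ℝ) (hη : 0 < η) :
    ∃ Z0 : ℕ, ∀ Z : ℕ, Z0 ≤ Z → L (fun x => |∑ z ∈ range Z, lam (x + q * z)|) ≤ η * Z := by
  obtain ⟨D0, hD0⟩ := Pool.Agent.Lib.MRT.lam_ap q hq (η / 4) (by positivity)
  refine ⟨D0, fun Z hZ => ?_⟩
  obtain ⟨N0, hN0⟩ := hD0 Z hZ
  have h1 := hL.dyad (fun x => |∑ z ∈ range Z, lam (x + q * z)|) (η * Z / 2) (N0 + 1)
    (Bd.abs (Bd.sum (range Z) (f := fun z x => lam (x + q * z)) fun z _ => ⟨1, fun n => lam_abs_le _⟩))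
    (fun n => abs_nonneg _) (fun X hX => ?_)
  · linarith
  have h2 := hN0 (2 * X) (by omega)
  have h3 : ∑ n ∈ Ioc X (2 * X), |∑ z ∈ range Z, lam ((n : ℤ) + q * z)| ≤
      ∑ n ∈ Icc 1 (2 * X), ‖∑ d ∈ range Z, ((Pool.Agent.Lib.MP_45349e_nt.LS.lam (n + q * d) : ℝ) : ℂ)‖ := by
    calc ∑ n ∈ Ioc X (2 * X), |∑ z ∈ range Z, lam ((n : ℤ) + q * z)|
        ≤ ∑ n ∈ Icc 1 (2 * X), |∑ z ∈ range Z, lam ((n : ℤ) + q * z)| := by
          refine sum_le_sum_of_subset_of_nonneg ?_ (fun _ _ _ => abs_nonneg _)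
          intro n hn
          rw [mem_Ioc] at hn
          rw [mem_Icc]
          omega
      _ = _ := by
          refine sum_congr rfl fun n hn => ?_
          rw [mem_Icc] at hn
          rw [← Complex.ofReal_sum, Complex.norm_real, Real.norm_eq_abs]
          congr 1
          refine sum_congr rfl fun z _ => ?_
          have h4 : (n : ℤ) + q * z = ((n + q * z : ℕ) : ℤ) := by push_cast; ring
          rw [h4, lam_nat (by omega)]
  refine h3.trans (h2.trans (le_of_eq ?_))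
  push_cast
  ring

end Pool.Agent.Lib.TU
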