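import Pool.Agent.Lib.TU.GapA
import Pool.Agent.Lib.TU.GapB
import Pool.Agent.Lib.TU.MrP

/-!
# TU / Gap (C5c): the theorem for means

For every `k ≥ 1` there is `c > 0` such that `|L (∏ lam (A m + h i))| ≤ 1 - c` for all means, all `A ≥ 1` and all distinct `h i`.
-/

set_option autoImplicit false

open Finset

namespace Pool.Agent.Lib.TU

variable {L : (ℤ → ℝ) →ₗ[ℝ] ℝ}

private theorem gp_lam_bd : Bd lam := ⟨1, lam_abs_le⟩

private theorem gp_ind (s : ℤ → Prop) [DecidablePred s] : Bd (fun n => if s n then (1 : ℝ) else 0) := by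
  refine ⟨1, fun n => ?_⟩
  by_cases h : s n <;> simp [h]

/-- the mean of `|∑ lam (A n + v + q z)|` -/
private theorem gp_up (hL : IsMean L) (A q : ℕ) (hA : 0 < A) (v : ℤ) (Z : ℕ) (η : ℝ)
    (h : L (fun x => |∑ z ∈ range Z, lam (x + q * z)|) ≤ η * Z) :
    L (fun n => |∑ z ∈ range Z, lam (A * n + v + q * z)|) ≤ A * (η * Z) := by
  have hb : Bd (fun x : ℤ => |∑ z ∈ range Z, lam (x + q * z)|) :=
    (Bd.sum (range Z) fun z _ => gp_lam_bd.comp fun x => x + q * z).abs
  have h1 := L_prog_le hL hb (fun n => abs_nonneg _) hA v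
  refine h1.trans ?_
  gcongr

private theorem gp_one (hL : IsMean L) (A : ℕ) (hA : 0 < A) (v : ℤ) : |L (fun m => lam (A * m + v))| ≤ 1 / 2 := by
  have hAr : (0 : ℝ) < A := by exact_mod_cast hA
  obtain ⟨Z0, hZ0⟩ := mr_prog hL A hA (1 / (2 * A)) (by positivity)
  set Z := Z0 + 1 with hZ
  have hZr : (0 : ℝ) < Z := by rw [hZ]; positivity
  have h1 := gp_up hL A A hA v Z (1 / (2 * A)) (hZ0 Z (by omega))
  have hf : Bd (fun m : ℤ => lam (A * m + v)) := gp_lam_bd.comp fun m => A * m + v
  have h2 : ∀ z : ℕ, L (fun m : ℤ => lam (A * m + v + A * z)) = L (fun m => lam (A * m + v)) := by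
    intro z
    rw [← hL.shift_nat hf z]
    congr 1
    ext m
    congr 1
    push_cast
    ring
  have h3 : L (fun m : ℤ => ∑ z ∈ range Z, lam (A * m + v + A * z)) = Z * L (fun m => lam (A * m + v)) := by
    rw [L_sum]
    simp_rw [h2]
    rw [Finset.sum_const, Finset.card_range, nsmul_eq_mul]
  have h4 := hL.abs_le_abs (f := fun m : ℤ => ∑ z ∈ range Z, lam (A * m + v + A * z))
    (Bd.sum (range Z) fun z _ => gp_lam_bd.comp fun x => A * x + v + A * z)
  rw [h3, abs_mul, abs_of_pos hZr] at h4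
  have h5 : (A : ℝ) * (1 / (2 * A) * Z) = Z / 2 := by field_simp
  rw [h5] at h1
  have h6 : (Z : ℝ) * |L (fun m => lam (A * m + v))| ≤ Z * (1 / 2) := by linarith
  exact le_of_mul_le_mul_left h6 hZr

/-- long relations with a small error contradict the theorem of Matomäki and Radziwiłł -/
private theorem gp_contra (hL : IsMean L) (A q : ℕ) (hA : 0 < A) (v : ℤ) (Z : ℕ) (hZ : 0 < Z) (δ : ℝ) (hδ : δ < 1 / 8)
    (h : L (fun x => |∑ z ∈ range Z, lam (x + q * z)|) ≤ 1 / (4 * A) * Z)
    (hr : ∀ z < Z, pr L (fun n => lam (A * n + v) ≠ lam (A * n + v + q * (z : ℕ))) ≤ δ) : False := by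
  classical
  have hAr : (0 : ℝ) < A := by exact_mod_cast hA
  have hZr : (0 : ℝ) < Z := by exact_mod_cast hZ
  have h1 := gp_up hL A q hA v Z (1 / (4 * A)) h
  have h5 : (A : ℝ) * (1 / (4 * A) * Z) = Z / 4 := by field_simp
  rw [h5] at h1
  have hzero : pr L (fun n => lam (A * n + v) = 0) = 0 := by
    refine le_antisymm ?_ (pr_nonneg hL _)
    refine (pr_mono hL (t := fun n => n = -v / A) fun n hn => ?_).trans (pr_single hL (-v / A)).le
    by_contra hne
    have h6 : (A : ℤ) * n + v ≠ 0 := by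
      intro h7
      apply hne
      have h8 : -v = A * n := by linarith
      rw [h8, Int.mul_ediv_cancel_left _ (by exact_mod_cast hA.ne')]
    rcases lam_cases h6 with h7 | h7 <;> rw [h7] at hn <;> norm_num at hn
  have h2 : ∀ z < Z, 1 - 2 * δ ≤ L (fun n => lam (A * n + v) * lam (A * n + v + q * (z : ℕ))) := by
    intro z hz
    have hbd : Bd (fun n : ℤ => lam (A * n + v) * lam (A * n + v + q * (z : ℕ))) :=
      (gp_lam_bd.comp fun n => A * n + v).mul (gp_lam_bd.comp fun n => A * n + v + q * (z : ℕ))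
    have hbd2 : Bd (fun n : ℤ => (1 : ℝ) - 2 * (if lam (A * n + v) ≠ lam (A * n + v + q * (z : ℕ)) then 1 else 0) -
        (if lam (A * n + v) = 0 then 1 else 0)) :=
      ((Bd.const 1).sub ((Bd.const 2).mul (gp_ind fun n => lam (A * n + v) ≠ lam (A * n + v + q * (z : ℕ))))).sub
        (gp_ind fun n => lam (A * n + v) = 0)
    have h3 := hL.mono hbd2 hbd fun n => by
      by_cases h6 : lam (A * n + v) = lam (A * n + v + q * (z : ℕ))
      · rw [if_neg (by simpa using h6), ← h6]
        by_cases h7 : lam (A * n + v) = 0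
        · rw [if_pos h7, h7]; norm_num
        · rw [if_neg h7]
          have h8 : (A : ℤ) * n + v ≠ 0 := by
            intro h9; rw [h9, lam_zero] at h7; exact h7 rfl
          rw [lam_sq h8]; norm_num
      · rw [if_pos (by simpa using h6)]
        have h7 := abs_le.1 (lam_abs_le (A * n + v))
        have h8 := abs_le.1 (lam_abs_le (A * n + v + q * (z : ℕ)))
        have h9 : -1 ≤ lam (A * n + v) * lam (A * n + v + q * (z : ℕ)) := by nlinarith
        split_ifs <;> linarith
    rw [L_sub, L_sub, L_mul, hL.one] at h3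
    have h10 : L (fun n => if lam (A * n + v) ≠ lam (A * n + v + q * (z : ℕ)) then (1 : ℝ) else 0) ≤ δ := by
      have := hr z hz
      rwa [pr_def] at this
    have h11 : L (fun n => if lam (A * n + v) = 0 then (1 : ℝ) else 0) = 0 := by
      have := hzero
      rwa [pr_def] at this
    rw [h11] at h3
    linarith
  have h3 : (Z : ℝ) * (1 - 2 * δ) ≤ L (fun n => ∑ z ∈ range Z, lam (A * n + v) * lam (A * n + v + q * (z : ℕ))) := by
    rw [L_sum]
    have h4 : ∑ z ∈ range Z, (1 - 2 * δ) ≤ ∑ z ∈ range Z, L (fun n => lam (A * n + v) * lam (A * n + v + q * (z : ℕ))) :=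
      Finset.sum_le_sum fun z hz => h2 z (Finset.mem_range.1 hz)
    rw [Finset.sum_const, Finset.card_range, nsmul_eq_mul] at h4
    exact h4
  have hS : Bd (fun n : ℤ => ∑ z ∈ range Z, lam (A * n + v + q * (z : ℕ))) :=
    Bd.sum (range Z) fun z _ => gp_lam_bd.comp fun x => A * x + v + q * (z : ℕ)
  have h4 : L (fun n => ∑ z ∈ range Z, lam (A * n + v) * lam (A * n + v + q * (z : ℕ))) ≤
      L (fun n => |∑ z ∈ range Z, lam (A * n + v + q * (z : ℕ))|) := by
    refine hL.mono (Bd.sum (range Z) fun z _ =>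
      (gp_lam_bd.comp fun n => A * n + v).mul (gp_lam_bd.comp fun n => A * n + v + q * (z : ℕ))) hS.abs fun n => ?_
    rw [← Finset.mul_sum]
    refine (le_abs_self _).trans ?_
    rw [abs_mul]
    have := lam_abs_le (A * n + v)
    have h6 := abs_nonneg (∑ z ∈ range Z, lam (A * n + v + q * (z : ℕ)))
    nlinarith
  nlinarith

theorem gap (k : ℕ) (hk : 1 ≤ k) : ∃ c : ℝ, 0 < c ∧ ∀ L : (ℤ → ℝ) →ₗ[ℝ] ℝ, IsMean L → ∀ (A : ℕ) (h : Fin k → ℤ), 0 < A → Function.Injective h →
    |L (fun m => ∏ i, lam (A * m + h i))| ≤ 1 - c := by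
  classical
  obtain ⟨d, rfl⟩ : ∃ d, k = d + 1 := ⟨k - 1, by omega⟩
  rcases Nat.eq_zero_or_pos d with rfl | hd
  · refine ⟨1 / 2, by norm_num, fun L hL A h hA _ => ?_⟩
    have h1 := gp_one hL A hA (h 0)
    have h2 : (fun m : ℤ => ∏ i : Fin (0 + 1), lam (A * m + h i)) = fun m => lam (A * m + h 0) := by
      ext m; simp
    rw [h2]
    linarith
  · obtain ⟨M, C, hM, hC, hlong⟩ := long_rel d hd
    refine ⟨1 / (16 * C + 16), by positivity, fun L hL A h hA hinj => ?_⟩
    set ε : ℝ := 1 / (16 * C + 16) with hε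
    have hεpos : 0 < ε := by positivity
    have hε8 : C * (2 * ε) < 1 / 8 := by
      rw [hε, show C * (2 * (1 / (16 * C + 16))) = 2 * C / (16 * C + 16) by ring, div_lt_div_iff₀ (by positivity) (by norm_num)]
      linarith
    by_contra hcon
    rw [not_le] at hcon
    set F : ℤ → ℝ := fun m => ∏ i, lam (A * m + h i) with hF
    have hFabs : ∀ m, |F m| ≤ 1 := by
      intro m
      rw [hF]; simp only
      rw [Finset.abs_prod]
      exact Finset.prod_le_one (fun _ _ => abs_nonneg _) fun i _ => lam_abs_le _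
    have hFb : Bd F := ⟨1, hFabs⟩
    -- the sign
    obtain ⟨σ, hσ, hσF⟩ : ∃ σ : ℝ, (σ = 1 ∨ σ = -1) ∧ 1 - ε ≤ σ * L F := by
      rcases le_total 0 (L F) with h0 | h0
      · exact ⟨1, Or.inl rfl, by rw [abs_of_nonneg h0] at hcon; linarith⟩
      · exact ⟨-1, Or.inr rfl, by rw [abs_of_nonpos h0] at hcon; linarith⟩
    -- translation
    set u : ℕ := ∑ i, (h i).natAbs with hu
    set h' : Fin (d + 1) → ℤ := fun i => h i + A * u with hh'
    have hnn : ∀ i, 0 ≤ h' i := by
      intro i
      have h1 : (h i).natAbs ≤ u := Finset.single_le_sum (f := fun i => (h i).natAbs) (fun _ _ => Nat.zero_le _) (Finset.mem_univ i)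
      have h2 : ((h i).natAbs : ℤ) ≤ u := by exact_mod_cast h1
      have h3 : -((h i).natAbs : ℤ) ≤ h i := by omega
      have h4 : (u : ℤ) ≤ A * u := by
        have : (1 : ℤ) ≤ A := by exact_mod_cast hA
        nlinarith [Int.natCast_nonneg u]
      rw [hh']; simp only
      linarith
    have hinj' : Function.Injective h' := by
      intro i j hij
      rw [hh'] at hij
      simp only at hij
      exact hinj (by linarith)
    have hF' : 1 - ε ≤ σ * L (fun m => ∏ i, lam (A * m + h' i)) := by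
      have h1 : L (fun m => ∏ i, lam (A * m + h' i)) = L F := by
        rw [← hL.shift_nat hFb u]
        congr 1
        ext m
        rw [hF]; simp only
        refine Finset.prod_congr rfl fun i _ => ?_
        congr 1
        rw [hh']; simp only
        ring
      rw [h1]; exact hσF
    set E : ℤ := ∏ i : Fin d, (h' (Fin.last d) - h' (Fin.castSucc i)) with hE
    have hE0 : E ≠ 0 := by
      rw [hE, Finset.prod_ne_zero_iff]
      intro i _ h1
      have h2 : Fin.last d = Fin.castSucc i := hinj' (by linarith)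
      exact (Fin.castSucc_lt_last i).ne h2.symm
    set q : ℕ := A * (2 ^ d * (M * E.natAbs)) with hq
    have hq0 : 0 < q := by
      have : 0 < E.natAbs := Int.natAbs_pos.2 hE0
      positivity
    have hAr : (0 : ℝ) < A := by exact_mod_cast hA
    obtain ⟨Z0, hZ0⟩ := mr_prog hL q hq0 (1 / (4 * A)) (by positivity)
    obtain ⟨H1, hH1⟩ := hlong A hA
    obtain ⟨H, hH, G, hG, hGc, hGp⟩ := good_primes hL A hA h' hnn ε hεpos σ hσ hF' (max H1 (A * (M * E.natAbs * (Z0 + 1))))
    have hσ' : (-1 : ℝ) ^ (d + 1) * σ = 1 ∨ (-1 : ℝ) ^ (d + 1) * σ = -1 := by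
      rcases neg_one_pow_eq_or ℝ (d + 1) with h1 | h1 <;> rcases hσ with h2 | h2 <;> rw [h1, h2] <;> norm_num
    obtain ⟨b, hbA, hb⟩ := hH1 H ((le_max_left _ _).trans hH) G hG hGc L hL h' hinj' _ (2 * ε) hσ' (by positivity) hGp
    refine gp_contra hL A q hA (b * h' (Fin.last d)) (Z0 + 1) (Nat.succ_pos _) (C * (2 * ε)) hε8 (hZ0 (Z0 + 1) (by omega)) fun z hz => ?_
    have habs : |E| = (E.natAbs : ℤ) := Int.abs_eq_natAbs E
    have h1 := hb (E.sign * z) (by
      rw [← hE, habs, abs_mul]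
      have h2 : |E.sign| ≤ 1 := by
        rcases lt_trichotomy E 0 with h3 | h3 | h3
        · rw [Int.sign_eq_neg_one_of_neg h3]; norm_num
        · exact absurd h3 hE0
        · rw [Int.sign_eq_one_of_pos h3]; norm_num
      have h3 : |(z : ℤ)| = z := abs_of_nonneg (Int.natCast_nonneg z)
      rw [h3]
      have h4 : M * E.natAbs * z ≤ H / A := by
        rw [Nat.le_div_iff_mul_le hA]
        calc M * E.natAbs * z * A = A * (M * E.natAbs * z) := by ring
          _ ≤ A * (M * E.natAbs * (Z0 + 1)) := by gcongr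
          _ ≤ H := (le_max_right _ _).trans hH
      have h5 : (M : ℤ) * E.natAbs * z ≤ ((H / A : ℕ) : ℤ) := by exact_mod_cast h4
      refine le_trans ?_ h5
      have h6 : |E.sign| * (z : ℤ) ≤ 1 * z := mul_le_mul_of_nonneg_right h2 (Int.natCast_nonneg z)
      rw [one_mul] at h6
      exact mul_le_mul_of_nonneg_left h6 (by positivity))
    refine le_trans (le_of_eq ?_) h1
    refine pr_congr fun n => ?_
    have h2 : (A : ℤ) * n + b * h' (Fin.last d) + q * z =
        A * (n + 2 ^ d * (M * E * (E.sign * z))) + b * h' (Fin.last d) := by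
      have h3 : E * E.sign = (E.natAbs : ℤ) := Int.mul_sign_self E
      have h4 : (M : ℤ) * E * (E.sign * z) = M * ((E.natAbs : ℤ) * z) := by rw [← h3]; ring
      rw [h4, hq]
      push_cast
      ring
    rw [h2]

end Pool.Agent.Lib.TU
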