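import Pool.Agent.Lib.TU.Decr

/-!
# TU / GapA (C5a): the relation at the good primes
-/

set_option autoImplicit false

open Finset

namespace Pool.Agent.Lib.TU

private theorem ga_vals (n : ℤ) : lam n = 1 ∨ lam n = -1 ∨ lam n = 0 := by
  by_cases h : n = 0
  · rw [h]; exact Or.inr (Or.inr lam_zero)
  · rcases lam_cases h with h | h
    · exact Or.inl h
    · exact Or.inr (Or.inl h)

private theorem ga_sign {x y : ℤ} (h : SignType.sign (lam x) = SignType.sign (lam y)) : lam x = lam y := by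
  rcases ga_vals x with h1 | h1 | h1 <;> rcases ga_vals y with h2 | h2 | h2 <;> rw [h1, h2] at h ⊢ <;> simp at h

theorem good_primes {L : (ℤ → ℝ) →ₗ[ℝ] ℝ} (hL : IsMean L) {k : ℕ} (A : ℕ) (hA : 0 < A) (h : Fin k → ℤ) (h0 : ∀ i, 0 ≤ h i)
    (ε : ℝ) (hε : 0 < ε) (σ : ℝ) (hσ : σ = 1 ∨ σ = -1) (hF : 1 - ε ≤ σ * L (fun m => ∏ i, lam (A * m + h i))) (H0 : ℕ) :
    ∃ H : ℕ, H0 ≤ H ∧ ∃ G : Finset ℕ, G ⊆ PP H ∧ (PP H).card ≤ 2 * G.card ∧
      ∀ p ∈ G, pr L (fun m => ∏ i, lam (A * m + p * h i) ≠ (-1) ^ k * σ) ≤ 2 * ε := by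
  classical
  set ξ : ℤ → (Fin A → SignType) := fun m l => SignType.sign (lam (A * m + (l : ℕ))) with hξ
  obtain ⟨H, hH, G, hG, hGc, hGp⟩ := decrement hL ξ (∑ i, (h i).natAbs + 2) ε hε (max H0 1)
  refine ⟨H, (le_max_left _ _).trans hH, G, hG, hGc, fun p hp => ?_⟩
  have hH1 : 1 ≤ H := (le_max_right _ _).trans hH
  have hpP := hG hp
  rw [PP, Finset.mem_filter, Finset.mem_Ioc] at hpP
  have hprime : p.Prime := hpP.2
  have hpH : p ≤ H := hpP.1.2
  have hp0 : 0 < p := hprime.pos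
  set F : ℤ → ℝ := fun m => ∏ i, lam (A * m + p * h i) with hFd
  have hF1 : ∀ n, |F n| ≤ 1 := by
    intro n
    rw [hFd]; simp only
    rw [Finset.abs_prod]
    exact Finset.prod_le_one (fun _ _ => abs_nonneg _) fun i _ => lam_abs_le _
  have hloc : ∀ m n : ℤ, (∀ j : ℕ, j < (∑ i, (h i).natAbs + 2) * H → ξ (m + j) = ξ (n + j)) → F m = F n := by
    intro m n hmn
    rw [hFd]; simp only
    refine Finset.prod_congr rfl fun i _ => ?_
    obtain ⟨b, hb⟩ := Int.eq_ofNat_of_zero_le (h0 i)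
    have hbn : b ≤ ∑ i, (h i).natAbs := by
      have h1 : (h i).natAbs ≤ ∑ i, (h i).natAbs :=
        Finset.single_le_sum (f := fun i => (h i).natAbs) (fun _ _ => Nat.zero_le _) (Finset.mem_univ i)
      have h2 : (h i).natAbs = b := by rw [hb]; simp
      omega
    have hj : (p * b) / A < (∑ i, (h i).natAbs + 2) * H := by
      calc (p * b) / A ≤ p * b := Nat.div_le_self _ _
        _ ≤ H * b := Nat.mul_le_mul_right _ hpH
        _ = b * H := Nat.mul_comm _ _
        _ < (∑ i, (h i).natAbs + 2) * H := by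
            apply Nat.mul_lt_mul_of_pos_right _ (by omega)
            omega
    have hm := congrFun (hmn _ hj) ⟨(p * b) % A, Nat.mod_lt _ hA⟩
    have key : ∀ x : ℤ, (A : ℤ) * (x + ((p * b / A : ℕ) : ℤ)) + ((p * b % A : ℕ) : ℤ) = A * x + p * h i := by
      intro x
      have h3 : ((A * (p * b / A) + p * b % A : ℕ) : ℤ) = ((p * b : ℕ) : ℤ) := by rw [Nat.div_add_mod]
      push_cast at h3 ⊢
      rw [hb]
      linear_combination h3
    rw [hξ] at hm
    simp only at hm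
    rw [key m, key n] at hm
    exact ga_sign hm
  have hmain := hGp p hp F hF1 hloc
  have hFb : Bd F := ⟨1, hF1⟩
  set F0 : ℤ → ℝ := fun m => ∏ i, lam (A * m + h i) with hF0
  have h1 : L (fun n => F n * ((if (p : ℤ) ∣ n then (p : ℝ) else 0) - 1)) = (-1) ^ k * L F0 - L F := by
    have h2 : (fun n => F n * ((if (p : ℤ) ∣ n then (p : ℝ) else 0) - 1)) =
        fun n => (fun n => (p : ℝ) * (fun n => if (p : ℤ) ∣ n then F n else 0) n) n - F n := by
      ext n
      by_cases h3 : (p : ℤ) ∣ n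
      · simp only [if_pos h3]; ring
      · simp only [if_neg h3]; ring
    rw [h2, L_sub, L_mul, pr_mul_if hL hFb hp0]
    have hpr : (p : ℝ) ≠ 0 := by exact_mod_cast hp0.ne'
    have h4 : (fun n : ℤ => F (p * n)) = fun n => (-1) ^ k * F0 n := by
      ext n
      rw [hFd, hF0]; simp only
      have h5 : ∀ i ∈ (Finset.univ : Finset (Fin k)), lam (A * (p * n) + p * h i) = -1 * lam (A * n + h i) := by
        intro i _
        rw [← lam_prime hprime, ← lam_mul]
        congr 1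
        ring
      rw [Finset.prod_congr rfl h5, Finset.prod_mul_distrib]
      simp
    rw [h4, L_mul]
    field_simp
  rw [h1, abs_le] at hmain
  have hsq : ((-1 : ℝ) ^ k) * (-1) ^ k = 1 := by rw [← mul_pow]; simp
  have hσ' : (-1 : ℝ) ^ k * σ = 1 ∨ (-1 : ℝ) ^ k * σ = -1 := by
    rcases neg_one_pow_eq_or ℝ k with h1 | h1 <;> rcases hσ with h2 | h2 <;> rw [h1, h2] <;> norm_num
  refine pr_ne_le hL hσ' (fun n => ?_) ?_
  · refine Finset.prod_induction _ (fun x : ℝ => x = 1 ∨ x = -1 ∨ x = 0) ?_ (Or.inl rfl) fun i _ => ga_vals _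
    rintro a b (rfl | rfl | rfl) (rfl | rfl | rfl) <;> norm_num
  · change 1 - 2 * ε ≤ (-1) ^ k * σ * L F
    have h6 : (-1 : ℝ) ^ k * σ * L F = σ * L F0 - ((-1) ^ k * σ) * ((-1) ^ k * L F0 - L F) := by
      have : ((-1 : ℝ) ^ k * σ) * ((-1) ^ k * L F0 - L F) = ((-1) ^ k * (-1) ^ k) * (σ * L F0) - (-1) ^ k * σ * L F := by ring
      rw [this, hsq]; ring
    have h7 : ((-1 : ℝ) ^ k * σ) * ((-1) ^ k * L F0 - L F) ≤ ε := by
      rcases hσ' with h8 | h8 <;> rw [h8] <;> linarith [hmain.1, hmain.2]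
    rw [h6]
    linarith

end Pool.Agent.Lib.TU
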