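import Pool.Agent.Lib.TU.Defs

/-!
# TU / Mean (M1): existence of means
`lav X f` for `X : ℕ`. PROOF. For an ultrafilter `U ≤ atTop` the limit of the bounded function `X ↦ lav X f` exists (compactness of `[-C, C]`: `IsCompact.ultrafilter_le_nhds`), it is linear on the submodule of bounded functions; extend it linearly
(`LinearMap.exists_extend`). `shift`: `∑ f(n+1)/n - ∑ f(n)/n` is bounded: `1/n - 1/(n+1)` is summable; divided by `log X`. `dil`: `∑_{m ≤ X/q} f(m)/(q m)`, and `∑_{X/q < m ≤ X} 1/m ≤ q` is bounded. `dyad`: partial sums over `(2^i, 2^(i+1)]` with `2^i ≥ X0`: each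
`∑ f(n)/n ≤ η`, at most `log_2 X + 1` blocks, `∑ 1/n ≥ (log_2 X) / 2`.
-/

set_option autoImplicit false

open Finset Filter

namespace Pool.Agent.Lib.TU

/-- the numerator -/
private noncomputable def nu (f : ℤ → ℝ) (X : ℕ) : ℝ := ∑ n ∈ Icc 1 X, f (n : ℤ) / n

/-- the harmonic sum -/
private noncomputable def WW (X : ℕ) : ℝ := ∑ n ∈ Icc 1 X, (1 : ℝ) / n

private theorem lav_eq (f : ℤ → ℝ) (X : ℕ) : lav X f = nu f X / WW X := rfl

private theorem nu_succ (f : ℤ → ℝ) (X : ℕ) : nu f (X + 1) = nu f X + f ((X + 1 : ℕ) : ℤ) / ((X + 1 : ℕ) : ℝ) := by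
  unfold nu
  rw [sum_Icc_succ_top (by omega)]

private theorem WW_succ (X : ℕ) : WW (X + 1) = WW X + 1 / ((X + 1 : ℕ) : ℝ) := by
  unfold WW
  rw [sum_Icc_succ_top (by omega)]

private theorem nu_zero (f : ℤ → ℝ) : nu f 0 = 0 := by simp [nu]

private theorem WW_zero : WW 0 = 0 := by simp [WW]

private theorem WW_mono : Monotone WW := by
  refine monotone_nat_of_le_succ fun X => ?_
  rw [WW_succ]
  have : (0 : ℝ) ≤ 1 / ((X + 1 : ℕ) : ℝ) := by positivity
  linarith

private theorem WW_nonneg (X : ℕ) : 0 ≤ WW X := by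
  rw [← WW_zero]
  exact WW_mono (Nat.zero_le X)

private theorem WW_pos {X : ℕ} (hX : 1 ≤ X) : 0 < WW X := by
  have h1 : WW 1 = 1 := by simp [WW]
  have h2 := WW_mono hX
  rw [h1] at h2
  linarith

/-- the sum of `1/n` over `(Y, X]` is at least `(X - Y) / X` -/
private theorem WW_diff (Y d : ℕ) : (d : ℝ) / ((Y + d : ℕ) : ℝ) ≤ WW (Y + d) - WW Y := by
  have h1 : ∀ e : ℕ, e ≤ d → (e : ℝ) / ((Y + d : ℕ) : ℝ) ≤ WW (Y + e) - WW Y := by
    intro e
    induction e with
    | zero => intro _; simp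
    | succ e ih =>
      intro he
      have h2 := ih (by omega)
      have h3 : WW (Y + (e + 1)) = WW (Y + e) + 1 / ((Y + e + 1 : ℕ) : ℝ) := WW_succ (Y + e)
      have h4 : (1 : ℝ) / ((Y + d : ℕ) : ℝ) ≤ 1 / ((Y + e + 1 : ℕ) : ℝ) := by
        apply one_div_le_one_div_of_le
        · positivity
        · exact_mod_cast (by omega : Y + e + 1 ≤ Y + d)
      rw [h3]
      push_cast at h2 h4 ⊢
      rw [add_div]
      linarith
  exact h1 d le_rfl

private theorem WW_pow (i : ℕ) : (i : ℝ) / 2 ≤ WW (2 ^ i) := by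
  induction i with
  | zero => simp [WW]
  | succ i ih =>
    have h1 := WW_diff (2 ^ i) (2 ^ i)
    have h2 : 2 ^ i + 2 ^ i = 2 ^ (i + 1) := by ring
    rw [h2] at h1
    have h3 : ((2 ^ i : ℕ) : ℝ) / ((2 ^ (i + 1) : ℕ) : ℝ) = 1 / 2 := by
      push_cast
      rw [pow_succ]
      field_simp
    rw [h3] at h1
    push_cast
    linarith

private theorem WW_tendsto : Tendsto WW atTop atTop := by
  refine tendsto_atTop_atTop_of_monotone WW_mono fun b => ?_
  obtain ⟨i, hi⟩ := exists_nat_ge (2 * b)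
  refine ⟨2 ^ i, ?_⟩
  have := WW_pow i
  linarith

/-- upper bound of the harmonic sum over `(Y, Y + d]` -/
private theorem abs_nu_diff {f : ℤ → ℝ} {C : ℝ} (hC : ∀ n, |f n| ≤ C) (Y d : ℕ) :
    |nu f (Y + d) - nu f Y| ≤ C * ((d : ℝ) / ((Y + 1 : ℕ) : ℝ)) := by
  have hC0 : 0 ≤ C := (abs_nonneg _).trans (hC 0)
  induction d with
  | zero => simp
  | succ d ih =>
    have h1 : nu f (Y + (d + 1)) = nu f (Y + d) + f ((Y + d + 1 : ℕ) : ℤ) / ((Y + d + 1 : ℕ) : ℝ) := nu_succ f (Y + d)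
    have h2 : |f ((Y + d + 1 : ℕ) : ℤ) / ((Y + d + 1 : ℕ) : ℝ)| ≤ C * (1 / ((Y + 1 : ℕ) : ℝ)) := by
      rw [abs_div, div_eq_mul_one_div]
      refine mul_le_mul (hC _) ?_ (by positivity) hC0
      rw [Nat.abs_cast]
      apply one_div_le_one_div_of_le (by positivity)
      exact_mod_cast (by omega : Y + 1 ≤ Y + d + 1)
    have h3 : nu f (Y + (d + 1)) - nu f Y = (nu f (Y + d) - nu f Y) + f ((Y + d + 1 : ℕ) : ℤ) / ((Y + d + 1 : ℕ) : ℝ) := by
      rw [h1]; ring
    rw [h3]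
    refine (abs_add_le _ _).trans ((add_le_add ih h2).trans (le_of_eq ?_))
    push_cast
    ring

private theorem abs_nu_le {f : ℤ → ℝ} {C : ℝ} (hC : ∀ n, |f n| ≤ C) (X : ℕ) : |nu f X| ≤ C * WW X := by
  unfold nu WW
  rw [mul_sum]
  refine (abs_sum_le_sum_abs _ _).trans (sum_le_sum fun n _ => ?_)
  rw [abs_div, Nat.abs_cast, div_eq_mul_one_div]
  exact mul_le_mul_of_nonneg_right (hC _) (by positivity)

private theorem abs_lav_le {f : ℤ → ℝ} {C : ℝ} (hC : ∀ n, |f n| ≤ C) (X : ℕ) : |lav X f| ≤ C := by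
  have hC0 : 0 ≤ C := (abs_nonneg _).trans (hC 0)
  rw [lav_eq, abs_div, abs_of_nonneg (WW_nonneg X)]
  rcases (WW_nonneg X).eq_or_lt with h | h
  · rw [← h, div_zero]
    exact hC0
  · rw [div_le_iff₀ h]
    exact abs_nu_le hC X

private theorem lim_exists (U : Ultrafilter ℕ) {f : ℤ → ℝ} (hf : Bd f) : ∃ x, Tendsto (fun X : ℕ => lav X f) U (nhds x) := by
  obtain ⟨C, hC⟩ := hf
  obtain ⟨x, _, hx⟩ := (isCompact_Icc (a := -C) (b := C)).ultrafilter_le_nhds (U.map fun X : ℕ => lav X f) (by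
    rw [le_principal_iff]
    have : ∀ X : ℕ, lav X f ∈ Set.Icc (-C) C := fun X => abs_le.1 (abs_lav_le hC X)
    exact Filter.mem_map.2 (Filter.univ_mem' this))
  exact ⟨x, hx⟩

private theorem lav_add (X : ℕ) (f g : ℤ → ℝ) : lav X (f + g) = lav X f + lav X g := by
  rw [lav_eq, lav_eq, lav_eq, ← add_div]
  congr 1
  unfold nu
  rw [← sum_add_distrib]
  exact sum_congr rfl fun n _ => by rw [Pi.add_apply, add_div]

private theorem lav_smul (X : ℕ) (c : ℝ) (f : ℤ → ℝ) : lav X (c • f) = c * lav X f := by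
  rw [lav_eq, lav_eq, ← mul_div_assoc]
  congr 1
  unfold nu
  rw [mul_sum]
  exact sum_congr rfl fun n _ => by rw [Pi.smul_apply, smul_eq_mul, mul_div_assoc]

/-- the submodule of bounded functions -/
private def BB : Submodule ℝ (ℤ → ℝ) where
  carrier := {f | Bd f}
  add_mem' := by
    rintro f g ⟨C, hC⟩ ⟨D, hD⟩
    exact ⟨C + D, fun n => (abs_add_le _ _).trans (add_le_add (hC n) (hD n))⟩
  zero_mem' := ⟨0, fun n => by simp⟩
  smul_mem' := by
    rintro c f ⟨C, hC⟩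
    refine ⟨|c| * C, fun n => ?_⟩
    rw [Pi.smul_apply, smul_eq_mul, abs_mul]
    exact mul_le_mul_of_nonneg_left (hC n) (abs_nonneg c)

private theorem ext_exists (U : Ultrafilter ℕ) : ∃ L : (ℤ → ℝ) →ₗ[ℝ] ℝ,
    ∀ f : ℤ → ℝ, Bd f → Tendsto (fun X : ℕ => lav X f) U (nhds (L f)) := by
  have h1 : ∀ f : BB, ∃ x, Tendsto (fun X : ℕ => lav X (f : ℤ → ℝ)) U (nhds x) := fun f => lim_exists U f.2
  choose l hl using h1
  let l' : BB →ₗ[ℝ] ℝ :=
    { toFun := l
      map_add' := fun f g => by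
        refine tendsto_nhds_unique (hl (f + g)) ?_
        have h2 := (hl f).add (hl g)
        refine h2.congr fun X => ?_
        rw [← lav_add]
        rfl
      map_smul' := fun c f => by
        refine tendsto_nhds_unique (hl (c • f)) ?_
        have h2 := (hl f).const_mul c
        refine h2.congr fun X => ?_
        rw [← lav_smul]
        rfl }
  obtain ⟨L, hL⟩ := l'.exists_extend
  refine ⟨L, fun f hf => ?_⟩
  have h3 : L f = l ⟨f, hf⟩ := by
    have := LinearMap.congr_fun hL ⟨f, hf⟩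
    exact this
  rw [h3]
  exact hl ⟨f, hf⟩

/-- comparison -/
private theorem cmp {U : Ultrafilter ℕ} (hU : (U : Filter ℕ) ≤ atTop) {L : (ℤ → ℝ) →ₗ[ℝ] ℝ}
    (hL : ∀ f : ℤ → ℝ, Bd f → Tendsto (fun X : ℕ => lav X f) U (nhds (L f))) {f g : ℤ → ℝ} (hf : Bd f) (hg : Bd g)
    (c K : ℝ) (h : ∀ X, |nu g X - c * nu f X| ≤ K) : L g = c * L f := by
  have h1 : Tendsto (fun X : ℕ => K / WW X) atTop (nhds 0) := tendsto_const_nhds.div_atTop WW_tendsto
  have h2 : Tendsto (fun X : ℕ => lav X g - c * lav X f) atTop (nhds 0) := by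
    refine squeeze_zero_norm (fun X => ?_) h1
    rw [Real.norm_eq_abs, lav_eq, lav_eq, ← mul_div_assoc, ← sub_div, abs_div, abs_of_nonneg (WW_nonneg X)]
    exact div_le_div_of_nonneg_right (h X) (WW_nonneg X)
  have h3 : Tendsto (fun X : ℕ => lav X g - c * lav X f) U (nhds (L g - c * L f)) := (hL g hg).sub ((hL f hf).const_mul c)
  have h4 := tendsto_nhds_unique h3 (h2.mono_left hU)
  linarith

private theorem shift_bd {f : ℤ → ℝ} {C : ℝ} (hC : ∀ n, |f n| ≤ C) (X : ℕ) :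
    |nu (fun n => f (n + 1)) X - nu f X - f ((X + 1 : ℕ) : ℤ) / ((X + 1 : ℕ) : ℝ) + f 1| ≤ C * (1 - 1 / ((X + 1 : ℕ) : ℝ)) := by
  induction X with
  | zero => simp [nu_zero]
  | succ X ih =>
    have h1 : nu (fun n => f (n + 1)) (X + 1) - nu f (X + 1) - f ((X + 1 + 1 : ℕ) : ℤ) / ((X + 1 + 1 : ℕ) : ℝ) + f 1 =
        (nu (fun n => f (n + 1)) X - nu f X - f ((X + 1 : ℕ) : ℤ) / ((X + 1 : ℕ) : ℝ) + f 1) +
          f ((X + 1 + 1 : ℕ) : ℤ) * (1 / ((X + 1 : ℕ) : ℝ) - 1 / ((X + 1 + 1 : ℕ) : ℝ)) := by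
      rw [nu_succ, nu_succ]
      have h2 : (((X + 1 : ℕ) : ℤ) + 1) = ((X + 1 + 1 : ℕ) : ℤ) := by push_cast; ring
      simp only [h2]
      ring
    have h3 : (0 : ℝ) ≤ 1 / ((X + 1 : ℕ) : ℝ) - 1 / ((X + 1 + 1 : ℕ) : ℝ) := by
      rw [sub_nonneg]
      apply one_div_le_one_div_of_le (by positivity)
      exact_mod_cast (by omega : X + 1 ≤ X + 1 + 1)
    rw [h1]
    refine (abs_add_le _ _).trans ?_
    rw [abs_mul, abs_of_nonneg h3]
    have h4 := mul_le_mul_of_nonneg_right (hC ((X + 1 + 1 : ℕ) : ℤ)) h3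
    calc _ ≤ C * (1 - 1 / ((X + 1 : ℕ) : ℝ)) + C * (1 / ((X + 1 : ℕ) : ℝ) - 1 / ((X + 1 + 1 : ℕ) : ℝ)) := add_le_add ih h4
      _ = _ := by ring

private theorem dil_eq (f : ℤ → ℝ) {q : ℕ} (hq : 0 < q) (X : ℕ) :
    nu (fun n => if (q : ℤ) ∣ n then f (n / q) else 0) X = nu f (X / q) / q := by
  have hq' : (q : ℝ) ≠ 0 := by exact_mod_cast hq.ne'
  induction X with
  | zero => simp [nu_zero]
  | succ X ih =>
    rw [nu_succ, ih, Nat.succ_div]
    by_cases hd : q ∣ X + 1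
    · have hd' : (q : ℤ) ∣ ((X + 1 : ℕ) : ℤ) := by exact_mod_cast hd
      rw [if_pos hd, nu_succ]
      simp only [if_pos hd']
      have h1 : X / q + 1 = (X + 1) / q := by rw [Nat.succ_div, if_pos hd]
      obtain ⟨c, hc⟩ := hd
      have h2 : (X + 1) / q = c := by rw [hc, Nat.mul_div_cancel_left _ hq]
      have h3 : (((X + 1 : ℕ) : ℤ) / (q : ℤ)) = ((c : ℕ) : ℤ) := by
        rw [hc]
        push_cast
        rw [Int.mul_ediv_cancel_left]
        exact_mod_cast hq.ne'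
      rw [h3, h1, h2, add_div, div_div]
      congr 2
      rw [hc]
      push_cast
      ring
    · have hd' : ¬ (q : ℤ) ∣ ((X + 1 : ℕ) : ℤ) := by
        intro h
        exact hd (by exact_mod_cast h)
      rw [if_neg hd]
      simp only [if_neg hd']
      simp

private theorem nu_mono {f : ℤ → ℝ} (hf : ∀ n, 0 ≤ f n) : Monotone (nu f) := by
  refine monotone_nat_of_le_succ fun X => ?_
  rw [nu_succ]
  have : (0 : ℝ) ≤ f ((X + 1 : ℕ) : ℤ) / ((X + 1 : ℕ) : ℝ) := div_nonneg (hf _) (by positivity)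
  linarith

/-- a dyadic block -/
private theorem nu_block {f : ℤ → ℝ} (hf : ∀ n, 0 ≤ f n) {Y : ℕ} (hY : 0 < Y) :
    nu f (2 * Y) - nu f Y ≤ (∑ n ∈ Ioc Y (2 * Y), f (n : ℤ)) / Y := by
  have h1 : nu f (2 * Y) - nu f Y = ∑ n ∈ Ioc Y (2 * Y), f (n : ℤ) / n := by
    unfold nu
    have h2 : Icc 1 (2 * Y) = Icc 1 Y ∪ Ioc Y (2 * Y) := by
      ext n
      simp only [mem_Icc, mem_union, mem_Ioc]
      omega
    rw [h2, sum_union (by
      rw [disjoint_left]
      intro n hn hn'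
      rw [mem_Icc] at hn
      rw [mem_Ioc] at hn'
      omega)]
    ring
  rw [h1, sum_div]
  refine sum_le_sum fun n hn => ?_
  rw [mem_Ioc] at hn
  apply div_le_div_of_nonneg_left (hf _) (by exact_mod_cast hY)
  exact_mod_cast hn.1.le

theorem exists_mean (U : Ultrafilter ℕ) (hU : (U : Filter ℕ) ≤ atTop) : ∃ L : (ℤ → ℝ) →ₗ[ℝ] ℝ, IsMean L ∧
    ∀ f : ℤ → ℝ, Bd f → Tendsto (fun X : ℕ => lav X f) U (nhds (L f)) := by
  obtain ⟨L, hL⟩ := ext_exists U
  refine ⟨L, ⟨?_, ?_, ?_, ?_, ?_⟩, hL⟩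
  · intro f hf h0
    refine ge_of_tendsto' (hL f hf) fun X => ?_
    rw [lav_eq]
    exact div_nonneg (sum_nonneg fun n _ => div_nonneg (h0 _) (by positivity)) (WW_nonneg X)
  · refine tendsto_nhds_unique (hL _ ⟨1, fun n => by simp⟩) ?_
    refine (tendsto_const_nhds (x := (1 : ℝ))).congr' ?_
    refine ((eventually_ge_atTop 1).filter_mono hU).mono fun X hX => ?_
    show (1 : ℝ) = lav X fun _ => 1
    rw [lav_eq]
    exact (div_self (WW_pos hX).ne').symm
  · intro f hf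
    obtain ⟨C, hC⟩ := hf
    have hC0 : 0 ≤ C := (abs_nonneg _).trans (hC 0)
    have h1 := cmp hU hL (f := f) (g := fun n => f (n + 1)) ⟨C, hC⟩ ⟨C, fun n => hC _⟩ 1 (3 * C) (fun X => by
      have h2 := shift_bd hC X
      have h3 : |f ((X + 1 : ℕ) : ℤ) / ((X + 1 : ℕ) : ℝ)| ≤ C := by
        rw [abs_div, Nat.abs_cast]
        refine (div_le_self (abs_nonneg _) ?_).trans (hC _)
        exact_mod_cast Nat.succ_le_succ (Nat.zero_le X)
      have h4 := hC 1
      have h5 : C * (1 - 1 / ((X + 1 : ℕ) : ℝ)) ≤ C := by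
        have : (0 : ℝ) ≤ 1 / ((X + 1 : ℕ) : ℝ) := by positivity
        nlinarith
      rw [one_mul]
      rw [abs_le] at h2 h3 h4 ⊢
      constructor <;> linarith [h2.1, h2.2, h3.1, h3.2, h4.1, h4.2])
    rw [h1, one_mul]
  · intro f q hf hq
    obtain ⟨C, hC⟩ := hf
    have hC0 : 0 ≤ C := (abs_nonneg _).trans (hC 0)
    have hq' : (0 : ℝ) < q := by exact_mod_cast hq
    have h1 := cmp hU hL (f := f) (g := fun n => if (q : ℤ) ∣ n then f (n / q) else 0) ⟨C, hC⟩
      ⟨C, fun n => by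
        show |if (q : ℤ) ∣ n then f (n / q) else 0| ≤ C
        split_ifs
        · exact hC _
        · simpa using hC0⟩ (1 / q) C (fun X => by
        rw [dil_eq f hq X]
        obtain ⟨d, hd⟩ := Nat.le.dest (Nat.div_le_self X q)
        have h2 := abs_nu_diff hC (X / q) d
        rw [hd] at h2
        have h3 : (d : ℝ) / ((X / q + 1 : ℕ) : ℝ) ≤ q := by
          rw [div_le_iff₀ (by positivity)]
          have h4 : X < q * (X / q + 1) := Nat.lt_mul_div_succ X hq
          have h7 : d ≤ X := (Nat.le_add_left d (X / q)).trans hd.le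
          have h5 : d ≤ q * (X / q + 1) := h7.trans h4.le
          exact_mod_cast h5
        have h6 : nu f (X / q) / q - 1 / q * nu f X = -((nu f X - nu f (X / q)) / q) := by ring
        rw [h6, abs_neg, abs_div, abs_of_pos hq', div_le_iff₀ hq']
        exact h2.trans (mul_le_mul_of_nonneg_left h3 hC0))
    rw [h1]
    ring
  · intro f η X0 hf h0 hη
    have hη0 : 0 ≤ η := by
      have h1 := hη (X0 + 1) (by omega)
      have h2 : (0 : ℝ) ≤ ∑ n ∈ Ioc (X0 + 1) (2 * (X0 + 1)), f (n : ℤ) := sum_nonneg fun n _ => h0 _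
      have h3 : (0 : ℝ) < ((X0 + 1 : ℕ) : ℝ) := by positivity
      by_contra hcon
      push Not at hcon
      nlinarith
    -- the block bound
    have hX0 : X0 ≤ 2 ^ X0 := Nat.lt_two_pow_self.le
    have hb : ∀ j : ℕ, nu f (2 ^ (X0 + j)) ≤ nu f (2 ^ X0) + η * j := by
      intro j
      induction j with
      | zero => simp
      | succ j ih =>
        have h1 := nu_block h0 (Y := 2 ^ (X0 + j)) (by positivity)
        have h2 : X0 ≤ 2 ^ (X0 + j) := hX0.trans (Nat.pow_le_pow_right (by norm_num) (by omega))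
        have h3 := hη _ h2
        have h4 : 2 * 2 ^ (X0 + j) = 2 ^ (X0 + (j + 1)) := by ring
        rw [h4] at h1 h3
        have h5 : (∑ n ∈ Ioc ((2 : ℕ) ^ (X0 + j)) (2 ^ (X0 + (j + 1))), f (n : ℤ)) / ((2 ^ (X0 + j) : ℕ) : ℝ) ≤ η := by
          rw [div_le_iff₀ (by positivity)]
          exact h3
        push_cast
        linarith
    have hub : ∀ X : ℕ, 2 ^ X0 ≤ X → nu f X ≤ nu f (2 ^ X0) + η * (2 * WW X + 1) := by
      intro X hX
      have hX1 : X ≠ 0 := by
        have : 0 < 2 ^ X0 := by positivity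
        omega
      set I := Nat.log 2 X with hI
      have h1 : 2 ^ I ≤ X := Nat.pow_log_le_self 2 hX1
      have h2 : X < 2 ^ (I + 1) := Nat.lt_pow_succ_log_self (by norm_num) X
      have h3 : X0 ≤ I + 1 := by
        by_contra hcon
        push Not at hcon
        have : 2 ^ (I + 1) ≤ 2 ^ X0 := Nat.pow_le_pow_right (by norm_num) hcon.le
        omega
      obtain ⟨j, hj⟩ := Nat.exists_eq_add_of_le h3
      have h4 := hb j
      rw [← hj] at h4
      have h5 := nu_mono h0 h2.le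
      have h6 := (WW_pow I).trans (WW_mono h1)
      have h7 : (j : ℝ) ≤ I + 1 := by
        have : j ≤ I + 1 := by omega
        exact_mod_cast this
      have h8 : η * j ≤ η * (2 * WW X + 1) := mul_le_mul_of_nonneg_left (by linarith) hη0
      linarith
    have hlim : Tendsto (fun X : ℕ => (nu f (2 ^ X0) + η) / WW X + 2 * η) atTop (nhds (0 + 2 * η)) :=
      (tendsto_const_nhds.div_atTop WW_tendsto).add tendsto_const_nhds
    rw [zero_add] at hlim
    refine le_of_tendsto_of_tendsto (hL f hf) (hlim.mono_left hU) ?_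
    refine ((eventually_ge_atTop (2 ^ X0)).filter_mono hU).mono fun X hX => ?_
    have hX1 : 1 ≤ X := by
      have : 0 < 2 ^ X0 := by positivity
      omega
    have hw := WW_pos hX1
    show lav X f ≤ _
    rw [lav_eq, div_le_iff₀ hw]
    have h1 := hub X hX
    have h2 : ((nu f (2 ^ X0) + η) / WW X + 2 * η) * WW X = nu f (2 ^ X0) + η + 2 * η * WW X := by
      field_simp
    rw [h2]
    linarith

end Pool.Agent.Lib.TU
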