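import Pool.Agent.Lib.TU.Basic
import Pool.Agent.Lib.TU.Gap
import Pool.Agent.Lib.TU.Mean

/-!
# TU / Lim (F1): from means to logarithmic averages
PROOF. `lim_of_means`: if `c ≤ lav X f` fails for infinitely many `X` for every `c > 0` smaller than `c0`... precisely: if `∀ X0, ∃ X ≥ X0, lav X f < a`, take an ultrafilter `U ≤ atTop ⊓ 𝓟 {X | lav X f < a}` (`Ultrafilter.of`, `Ultrafilter.of_le`), `exists_mean`: `L f ≤ a < b`: contradiction.
`pos_of_means`: if not, for every `j` infinitely many `X` with `lav X f < 1/(j+1)`: choose `X_j → ∞`, `U` = an ultrafilter finer than `map X_j atTop`: `L f ≤ 0`.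
-/

set_option autoImplicit false

open Finset Filter

namespace Pool.Agent.Lib.TU

theorem lim_of_means (f : ℤ → ℝ) (hf : Bd f) (a b : ℝ) (hab : a < b) (h : ∀ L : (ℤ → ℝ) →ₗ[ℝ] ℝ, IsMean L → b ≤ L f) :
    ∃ X0 : ℕ, ∀ X : ℕ, X0 ≤ X → a ≤ lav X f := by
  by_contra hcon
  push Not at hcon
  have hfr : ∃ᶠ X in atTop, lav X f < a := by
    rw [frequently_atTop]
    intro X0
    obtain ⟨X, h1, h2⟩ := hcon X0
    exact ⟨X, h1, h2⟩
  have hne : (atTop ⊓ 𝓟 {X : ℕ | lav X f < a}).NeBot := frequently_mem_iff_neBot.mp hfr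
  have hU := Ultrafilter.of_le (atTop ⊓ 𝓟 {X : ℕ | lav X f < a})
  obtain ⟨L, hL, hlim⟩ := exists_mean (Ultrafilter.of (atTop ⊓ 𝓟 {X : ℕ | lav X f < a})) (hU.trans inf_le_left)
  have h1 : L f ≤ a := by
    refine le_of_tendsto (hlim f hf) ?_
    have h2 : {X : ℕ | lav X f < a} ∈ Ultrafilter.of (atTop ⊓ 𝓟 {X : ℕ | lav X f < a}) :=
      hU (mem_inf_of_right (mem_principal_self _))
    filter_upwards [h2] with X hX
    exact le_of_lt hX
  have h3 := h L hL
  linarith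

theorem pos_of_means (f : ℤ → ℝ) (hf : Bd f) (h : ∀ L : (ℤ → ℝ) →ₗ[ℝ] ℝ, IsMean L → 0 < L f) :
    ∃ c : ℝ, 0 < c ∧ ∃ X0 : ℕ, ∀ X : ℕ, X0 ≤ X → c ≤ lav X f := by
  by_contra hcon
  push Not at hcon
  choose x hx1 hx2 using fun j : ℕ => hcon (1 / ((j : ℝ) + 1)) (by positivity) j
  have hx : Tendsto x atTop atTop := tendsto_atTop_mono hx1 tendsto_id
  have hU := Ultrafilter.of_le (map x atTop)
  obtain ⟨L, hL, hlim⟩ := exists_mean (Ultrafilter.of (map x atTop)) (hU.trans hx)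
  have h0 := h L hL
  have h1 : L f ≤ L f / 2 := by
    refine le_of_tendsto (hlim f hf) ?_
    obtain ⟨j0, hj0⟩ := exists_nat_gt (1 / (L f / 2))
    have h2 : {X : ℕ | lav X f < L f / 2} ∈ map x atTop := by
      rw [Filter.mem_map]
      filter_upwards [eventually_ge_atTop j0] with j hj
      change lav (x j) f < L f / 2
      refine (hx2 j).trans ?_
      have h3 : (j0 : ℝ) ≤ j := by exact_mod_cast hj
      rw [div_lt_comm₀ (by positivity) (by positivity)]
      linarith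
    filter_upwards [hU h2] with X hX
    exact le_of_lt hX
  linarith

private theorem bd_prod {k : ℕ} (A : ℕ) (h : Fin k → ℤ) (m : ℤ) : |∏ i, lam (A * m + h i)| ≤ 1 := by
  rw [abs_prod]
  exact prod_le_one (fun i _ => abs_nonneg _) fun i _ => lam_abs_le _

theorem gap_lav (k : ℕ) (hk : 1 ≤ k) : ∃ c : ℝ, 0 < c ∧ ∀ (A : ℕ) (h : Fin k → ℤ), 0 < A → Function.Injective h →
    ∃ X0 : ℕ, ∀ X : ℕ, X0 ≤ X → |lav X (fun m => ∏ i, lam (A * m + h i))| ≤ 1 - c := by
  obtain ⟨c, hc, hgap⟩ := gap k hk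
  refine ⟨c / 2, by positivity, fun A h hA hh => ?_⟩
  obtain ⟨X1, h1⟩ := lim_of_means (fun m => ∏ i, lam (A * m + h i)) ⟨1, bd_prod A h⟩ (-(1 - c / 2)) (-(1 - c))
    (by linarith) fun L hL => (abs_le.mp (hgap L hL A h hA hh)).1
  obtain ⟨X2, h2⟩ := lim_of_means (fun m => -∏ i, lam (A * m + h i)) ⟨1, fun m => by
    rw [abs_neg]
    exact bd_prod A h m⟩ (-(1 - c / 2)) (-(1 - c)) (by linarith) fun L hL => by
    rw [L_neg]
    have := (abs_le.mp (hgap L hL A h hA hh)).2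
    linarith
  refine ⟨max X1 X2, fun X hX => ?_⟩
  have h3 := h1 X ((le_max_left _ _).trans hX)
  have h4 := h2 X ((le_max_right _ _).trans hX)
  have h5 : lav X (fun m => -∏ i, lam (A * m + h i)) = -lav X (fun m => ∏ i, lam (A * m + h i)) := by
    unfold lav
    rw [← neg_div, ← sum_neg_distrib]
    congr 1
    exact sum_congr rfl fun n _ => neg_div _ _
  rw [h5] at h4
  rw [abs_le]
  constructor
  · exact h3
  · linarith

end Pool.Agent.Lib.TU
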