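import Pool.Agent.Lib.TU.Basic

/-!
# TU / SqT (F2a): few `m` with a large prime square dividing `Q m + u`

`dyad` with `η = 2/y`. For `X` large and `m ∈ (X, 2X]`: `0 < Q m + u ≤ 3 Q X`, so `p ≤ √(3 Q X)`; for each prime `p > y` the condition
is one class modulo `p²`: at most `X/p² + 1` values of `m`.
-/

set_option autoImplicit false

open Finset

namespace Pool.Agent.Lib.TU

/-- one residue class in a dyadic interval -/
private theorem class_card (X M Q : ℕ) (u : ℤ) (hM : 0 < M) (hc : M.Coprime Q) :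
    (((Ioc X (2 * X)).filter (fun n : ℕ => (M : ℤ) ∣ Q * n + u)).card : ℝ) ≤ X / M + 1 := by
  classical
  by_cases he : ((Ioc X (2 * X)).filter (fun n : ℕ => (M : ℤ) ∣ Q * n + u)) = ∅
  · rw [he]
    simp only [card_empty, Nat.cast_zero]
    positivity
  · obtain ⟨v, hv⟩ := nonempty_iff_ne_empty.2 he
    rw [mem_filter] at hv
    have hsub : (Ioc X (2 * X)).filter (fun n : ℕ => (M : ℤ) ∣ Q * n + u) ⊆
        (Ioc X (2 * X)).filter (fun n : ℕ => n ≡ v [MOD M]) := by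
      intro n hn
      rw [mem_filter] at hn ⊢
      refine ⟨hn.1, ?_⟩
      have h1 : (M : ℤ) ∣ Q * ((v : ℤ) - n) := by
        have h2 := dvd_sub hv.2 hn.2
        have h3 : (Q : ℤ) * v + u - (Q * n + u) = Q * ((v : ℤ) - n) := by ring
        rwa [h3] at h2
      have hc' : IsCoprime (M : ℤ) (Q : ℤ) := Nat.isCoprime_iff_coprime.2 hc
      have h4 := hc'.dvd_of_dvd_mul_left h1
      exact (Nat.modEq_iff_dvd).2 h4
    have h1 := Nat.Ioc_filter_modEq_card X (2 * X) hM v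
    have h2 := card_le_card hsub
    have h3 : (((Ioc X (2 * X)).filter (fun n : ℕ => n ≡ v [MOD M])).card : ℚ) ≤ X / M + 1 := by
      have h4 : ((((Ioc X (2 * X)).filter (fun n : ℕ => n ≡ v [MOD M])).card : ℤ) : ℚ) =
          ((max (⌊(((2 * X : ℕ) : ℚ) - v) / M⌋ - ⌊((X : ℚ) - v) / M⌋) 0 : ℤ) : ℚ) := by
        rw [h1]
      rw [Int.cast_natCast] at h4
      rw [h4]
      push_cast
      apply max_le
      · have h5 := Int.floor_le (((2 * (X : ℚ)) - v) / M)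
        have h6 := Int.sub_one_lt_floor (((X : ℚ) - v) / M)
        have h7 : ((2 * (X : ℚ)) - v) / M = ((X : ℚ) - v) / M + X / M := by ring
        linarith
      · positivity
    have h8 : (((Ioc X (2 * X)).filter (fun n : ℕ => n ≡ v [MOD M])).card : ℝ) ≤ X / M + 1 := by
      have h9 := (Rat.cast_le (K := ℝ)).2 h3
      push_cast at h9
      exact h9
    exact le_trans (by exact_mod_cast h2) h8

/-- the count in a dyadic interval -/
private theorem dyadic_card (Q y X : ℕ) (u : ℤ) (hy : 1 ≤ y) (hQ : 0 < Q)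
    (hcop : ∀ p : ℕ, p.Prime → y < p → ¬ p ∣ Q) (hX : 3 * Q * y ^ 2 + u.natAbs + 1 ≤ X) (S : Finset ℕ)
    (hS : ∀ n ∈ S, n ∈ Ioc X (2 * X) ∧ ∃ p : ℕ, p.Prime ∧ y < p ∧ ((p ^ 2 : ℕ) : ℤ) ∣ Q * n + u) :
    (S.card : ℝ) ≤ 2 / y * X := by
  classical
  set P := Nat.sqrt (3 * Q * X) with hP
  have hsub : S ⊆ ((Ioc y P).filter Nat.Prime).biUnion
      (fun p => (Ioc X (2 * X)).filter (fun n : ℕ => ((p ^ 2 : ℕ) : ℤ) ∣ Q * n + u)) := by
    intro n hn
    obtain ⟨hn1, p, hp, hyp, hd⟩ := hS n hn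
    rw [mem_biUnion]
    refine ⟨p, ?_, ?_⟩
    · rw [mem_filter, mem_Ioc]
      refine ⟨⟨hyp, ?_⟩, hp⟩
      rw [hP, Nat.le_sqrt']
      rw [mem_Ioc] at hn1
      have hn2 : (X : ℤ) < n := by exact_mod_cast hn1.1
      have hn3 : (n : ℤ) ≤ 2 * X := by exact_mod_cast hn1.2
      have hu1 : -(u.natAbs : ℤ) ≤ u := by rw [Int.natCast_natAbs]; exact neg_abs_le u
      have hu2 : u ≤ (u.natAbs : ℤ) := by rw [Int.natCast_natAbs]; exact le_abs_self u
      have hu3 : (u.natAbs : ℤ) ≤ X := by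
        have : u.natAbs ≤ X := by
          have : 0 ≤ 3 * Q * y ^ 2 := Nat.zero_le _
          omega
        exact_mod_cast this
      have hQ1 : (1 : ℤ) ≤ Q := by exact_mod_cast hQ
      have hX0 : (0 : ℤ) ≤ X := by positivity
      have hpos : 0 < (Q : ℤ) * n + u := by nlinarith
      have hle := Int.le_of_dvd hpos hd
      have h3 : (Q : ℤ) * n + u ≤ 3 * Q * X := by nlinarith
      have h4 : ((p ^ 2 : ℕ) : ℤ) ≤ ((3 * Q * X : ℕ) : ℤ) := by
        push_cast at hle ⊢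
        linarith
      exact_mod_cast h4
    · rw [mem_filter]
      exact ⟨hn1, hd⟩
  have h1 : (S.card : ℝ) ≤ ∑ p ∈ (Ioc y P).filter Nat.Prime, ((X : ℝ) * ((p : ℝ) ^ 2)⁻¹ + 1) := by
    have h2 := (card_le_card hsub).trans card_biUnion_le
    have h3 : (S.card : ℝ) ≤ ∑ p ∈ (Ioc y P).filter Nat.Prime,
        (((Ioc X (2 * X)).filter (fun n : ℕ => ((p ^ 2 : ℕ) : ℤ) ∣ Q * n + u)).card : ℝ) := by
      exact_mod_cast h2
    refine h3.trans (sum_le_sum fun p hp => ?_)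
    rw [mem_filter, mem_Ioc] at hp
    have hc : (p ^ 2).Coprime Q := Nat.Coprime.pow_left 2 ((Nat.Prime.coprime_iff_not_dvd hp.2).2 (hcop p hp.2 hp.1.1))
    have h4 := class_card X (p ^ 2) Q u (pow_pos hp.2.pos 2) hc
    refine h4.trans (le_of_eq ?_)
    push_cast
    rw [div_eq_mul_inv]
  have hy0 : (0 : ℝ) < y := by exact_mod_cast hy
  have h2 : ∑ p ∈ (Ioc y P).filter Nat.Prime, ((X : ℝ) * ((p : ℝ) ^ 2)⁻¹ + 1) ≤
      ∑ p ∈ Ioc y P, ((X : ℝ) * ((p : ℝ) ^ 2)⁻¹ + 1) :=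
    sum_le_sum_of_subset_of_nonneg (filter_subset _ _) fun p _ _ => by positivity
  have h3 : ∑ p ∈ Ioc y P, ((X : ℝ) * ((p : ℝ) ^ 2)⁻¹ + 1) ≤ X * (1 / y) + P := by
    rw [sum_add_distrib, ← mul_sum]
    refine add_le_add (mul_le_mul_of_nonneg_left ?_ (by positivity)) ?_
    · rcases le_or_gt y P with h | h
      · have h5 := sum_Ioc_inv_sq_le_sub (α := ℝ) (k := y) (n := P) (by omega) h
        refine h5.trans ?_
        rw [one_div]
        have : (0 : ℝ) ≤ (P : ℝ)⁻¹ := by positivity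
        linarith
      · rw [Ioc_eq_empty (by omega), sum_empty]
        positivity
    · rw [sum_const, Nat.card_Ioc, nsmul_eq_mul, mul_one]
      have : P - y ≤ P := Nat.sub_le _ _
      exact_mod_cast this
  have h4 : (P : ℝ) * y ≤ X := by
    have h5 : P * P ≤ 3 * Q * X := by rw [hP]; exact Nat.sqrt_le _
    have h6 : (P * y) ^ 2 ≤ X ^ 2 := by
      calc (P * y) ^ 2 = (P * P) * y ^ 2 := by ring
        _ ≤ (3 * Q * X) * y ^ 2 := Nat.mul_le_mul_right _ h5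
        _ = (3 * Q * y ^ 2) * X := by ring
        _ ≤ X * X := Nat.mul_le_mul_right _ (by omega)
        _ = X ^ 2 := by ring
    have h7 : P * y ≤ X := (Nat.pow_le_pow_iff_left (by norm_num)).1 h6
    exact_mod_cast h7
  have h5 : (P : ℝ) ≤ X * (1 / y) := by
    rw [mul_one_div, le_div_iff₀ hy0]
    exact h4
  calc (S.card : ℝ) ≤ X * (1 / y) + P := h1.trans (h2.trans h3)
    _ ≤ X * (1 / y) + X * (1 / y) := by linarith
    _ = 2 / y * X := by ring

theorem sq_tail {L : (ℤ → ℝ) →ₗ[ℝ] ℝ} (hL : IsMean L) (Q y : ℕ) (u : ℤ) (hy : 1 ≤ y) (hQ : 0 < Q)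
    (hcop : ∀ p : ℕ, p.Prime → y < p → ¬ p ∣ Q) :
    pr L (fun m => ∃ p : ℕ, p.Prime ∧ y < p ∧ ((p ^ 2 : ℕ) : ℤ) ∣ Q * m + u) ≤ 4 / y := by
  classical
  unfold pr
  have h := hL.dyad (fun m : ℤ => if (∃ p : ℕ, p.Prime ∧ y < p ∧ ((p ^ 2 : ℕ) : ℤ) ∣ Q * m + u) then (1 : ℝ) else 0)
    (2 / y) (3 * Q * y ^ 2 + u.natAbs + 1) (Bd.ind _) (fun n => by split_ifs <;> norm_num) ?_
  · refine h.trans (le_of_eq ?_)
    ring
  · intro X hX
    rw [← sum_filter, sum_const, nsmul_eq_mul, mul_one]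
    refine dyadic_card Q y X u hy hQ hcop hX _ ?_
    intro n hn
    rw [mem_filter] at hn
    exact hn

end Pool.Agent.Lib.TU
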