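import Pool.Agent.Lib.TU.Lim
import Pool.Agent.Lib.TU.SqT

/-!
# TU / MuL (F2b): both signs for the Möbius function

`muz n = μ(n)` for `n ≥ 1`, `0` otherwise. With `Q = ∏_{p ≤ y} p²` and `F m = ∏_{a ∈ A} lam (Q m + (n0 + a))`: `|L F| ≤ 1 - c`, so
`pr (F = s) ≥ c/2`; outside the sets of `sq_tail` and for `m ≥ 0` the number `n = Q m + n0` has the pattern of `n0`.
-/

set_option autoImplicit false

open Finset

namespace Pool.Agent.Lib.TU

/-- the Möbius function on the integers, `0` for `n ≤ 0` -/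
def muz (n : ℤ) : ℤ := ArithmeticFunction.moebius n.toNat

private theorem bdInd78 (s : ℤ → Prop) [DecidablePred s] : Bd (fun n => if s n then (1 : ℝ) else 0) := by
  refine ⟨1, fun n => ?_⟩
  by_cases h : s n <;> simp [h]

/-- the negative integers have measure zero -/
private theorem prNeg78 {L : (ℤ → ℝ) →ₗ[ℝ] ℝ} (hL : IsMean L) : pr L (fun n => n < 0) ≤ 0 := by
  have h := hL.dyad (fun n => if n < 0 then (1 : ℝ) else 0) 0 0
    (bdInd78 fun n => n < 0)
    (fun n => by split_ifs <;> norm_num)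
    (fun X _ => by
      rw [zero_mul]
      refine (Finset.sum_eq_zero fun n _ => ?_).le
      rw [if_neg (by push Not; exact Int.natCast_nonneg n)])
  rw [pr_def, mul_zero] at *
  linarith

/-- half of the mass of `F = s` -/
private theorem prHalf78 {L : (ℤ → ℝ) →ₗ[ℝ] ℝ} (hL : IsMean L) {F : ℤ → ℝ} {s c : ℝ} (hs : s = 1 ∨ s = -1)
    (hF : ∀ n, F n = 1 ∨ F n = -1 ∨ F n = 0) (hF0 : ∀ n, 0 ≤ n → F n ≠ 0) (h : |L F| ≤ 1 - c) :
    c / 2 ≤ pr L (fun n => F n = s) := by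
  classical
  have hb : Bd F := ⟨1, fun n => by rcases hF n with h | h | h <;> rw [h] <;> norm_num⟩
  have h1 : L (fun n => s * F n) ≤ L (fun n => (2 * (if F n = s then (1 : ℝ) else 0) - 1) + (if n < 0 then (1 : ℝ) else 0)) := by
    refine hL.mono ((Bd.const s).mul hb)
      ((((Bd.const 2).mul (bdInd78 fun n => F n = s)).sub (Bd.const 1)).add (bdInd78 fun n => n < 0)) fun n => ?_
    rcases lt_or_ge n 0 with hn | hn
    · rw [if_pos hn]
      rcases hs with rfl | rfl <;> rcases hF n with h | h | h <;> rw [h] <;> norm_num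
    · rw [if_neg (not_lt.2 hn)]
      have h0 := hF0 n hn
      rcases hF n with h | h | h
      · rw [h]; rcases hs with rfl | rfl <;> norm_num
      · rw [h]; rcases hs with rfl | rfl <;> norm_num
      · exact absurd h h0
  have h2 : L (fun n => (2 * (if F n = s then (1 : ℝ) else 0) - 1) + (if n < 0 then (1 : ℝ) else 0)) =
      (2 * pr L (fun n => F n = s) - 1) + pr L (fun n => n < 0) := by
    rw [L_add, L_sub, L_mul, hL.one, pr_def, pr_def]
  have h3 := prNeg78 hL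
  rw [h2, L_mul] at h1
  have h4 := _root_.abs_le.1 h
  rcases hs with rfl | rfl <;> linarith [h4.1, h4.2]

theorem mu_pos {L : (ℤ → ℝ) →ₗ[ℝ] ℝ} (hL : IsMean L) (n0 l : ℕ) (hn0 : 1 ≤ n0) (A : Finset ℕ) (hA : A.Nonempty)
    (hAl : ∀ a ∈ A, a < l ∧ muz (n0 + a) ≠ 0) (s : ℤ) (hs : s = 1 ∨ s = -1) :
    0 < pr L (fun n => 1 ≤ n ∧ (∀ j : ℕ, j < l → muz (n + j) ^ 2 = muz (n0 + j) ^ 2) ∧ ∏ a ∈ A, muz (n + a) = s) := by
  classical
  obtain ⟨c, hc0, hc⟩ := gap A.card hA.card_pos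
  -- the parameters
  obtain ⟨y, hy⟩ : ∃ y : ℕ, y = n0 + l + (⌈8 * (l : ℝ) / c⌉₊ + 1) := ⟨_, rfl⟩
  have hy1 : 1 ≤ y := by omega
  have hyn : n0 + l ≤ y := by omega
  have hyR : (0 : ℝ) < y := by exact_mod_cast hy1
  have hyc : (l : ℝ) * (4 / y) < c / 2 := by
    have h1 : 8 * (l : ℝ) / c < y := by
      have h2 := Nat.le_ceil (8 * (l : ℝ) / c)
      have h3 : ((⌈8 * (l : ℝ) / c⌉₊ : ℕ) : ℝ) + 1 ≤ y := by
        have h4 : ⌈8 * (l : ℝ) / c⌉₊ + 1 ≤ y := by omega
        exact_mod_cast h4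
      linarith
    rw [div_lt_iff₀ hc0] at h1
    rw [mul_div_assoc', div_lt_iff₀ hyR]
    linarith
  set Q : ℕ := ∏ p ∈ (Finset.range (y + 1)).filter Nat.Prime, p ^ 2 with hQ
  have hQ0 : 0 < Q := Finset.prod_pos fun p hp => pow_pos (Finset.mem_filter.1 hp).2.pos 2
  have hQd : ∀ p : ℕ, p.Prime → p ≤ y → p ^ 2 ∣ Q := fun p hp hpy =>
    Finset.dvd_prod_of_mem (fun p => p ^ 2) (Finset.mem_filter.2 ⟨Finset.mem_range.2 (by omega), hp⟩)
  have hcop : ∀ p : ℕ, p.Prime → y < p → ¬ p ∣ Q := by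
    intro p hp hpy hd
    rw [hQ, Prime.dvd_finsetProd_iff hp.prime] at hd
    obtain ⟨r, hr, hd⟩ := hd
    rw [Finset.mem_filter, Finset.mem_range] at hr
    have h1 := (Nat.prime_dvd_prime_iff_eq hp hr.2).1 (hp.dvd_of_dvd_pow hd)
    omega
  -- the product of the values of the Liouville function
  set F : ℤ → ℝ := fun m => ∏ a ∈ A, lam (Q * m + (n0 + a)) with hFdef
  have hF1 : ∀ B : Finset ℕ, ∀ m : ℤ, (∏ a ∈ B, lam (Q * m + (n0 + a)) = 1 ∨ ∏ a ∈ B, lam (Q * m + (n0 + a)) = -1) ∨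
      ∏ a ∈ B, lam (Q * m + (n0 + a)) = 0 := by
    intro B m
    induction B using Finset.induction_on with
    | empty => left; left; simp
    | insert a B ha ih =>
      rw [Finset.prod_insert ha]
      by_cases h0 : (Q * m + (n0 + a) : ℤ) = 0
      · right; rw [h0, lam_zero, zero_mul]
      · rcases lam_cases h0 with h | h <;> rcases ih with (h2 | h2) | h2 <;> rw [h, h2] <;> norm_num
  have hF : ∀ m, F m = 1 ∨ F m = -1 ∨ F m = 0 := fun m => by
    rcases hF1 A m with (h | h) | h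
    · exact Or.inl h
    · exact Or.inr (Or.inl h)
    · exact Or.inr (Or.inr h)
  have hpos : ∀ m : ℤ, 0 ≤ m → ∀ a : ℕ, 1 ≤ (Q * m + (n0 + a) : ℤ) := by
    intro m hm a
    have h1 : (0 : ℤ) ≤ Q * m := mul_nonneg (Int.natCast_nonneg _) hm
    have h2 : (1 : ℤ) ≤ n0 := by exact_mod_cast hn0
    have h3 : (0 : ℤ) ≤ a := Int.natCast_nonneg _
    linarith
  have hF0 : ∀ m, 0 ≤ m → F m ≠ 0 := by
    intro m hm
    refine Finset.prod_ne_zero_iff.2 fun a _ h => ?_
    have h1 := hpos m hm a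
    have h2 := lam_sq (n := (Q * m + (n0 + a) : ℤ)) (by omega)
    rw [h, zero_mul] at h2
    norm_num at h2
  have hLF : |L F| ≤ 1 - c := by
    have h1 := hc L hL Q (fun i => (n0 : ℤ) + ((A.equivFin.symm i : A) : ℕ)) hQ0 (by
      intro i j hij
      have h2 : (((A.equivFin.symm i : A) : ℕ) : ℤ) = ((A.equivFin.symm j : A) : ℕ) := by
        simpa using hij
      have h3 : ((A.equivFin.symm i : A) : ℕ) = ((A.equivFin.symm j : A) : ℕ) := by exact_mod_cast h2
      exact A.equivFin.symm.injective (Subtype.ext h3))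
    have h2 : (fun m : ℤ => ∏ i, lam ((Q : ℤ) * m + ((n0 : ℤ) + ((A.equivFin.symm i : A) : ℕ)))) = F := by
      funext m
      rw [hFdef]
      simp only
      rw [← Finset.prod_coe_sort A (fun a => lam ((Q : ℤ) * m + ((n0 : ℤ) + (a : ℕ))))]
      exact Equiv.prod_comp A.equivFin.symm (fun a : A => lam ((Q : ℤ) * m + ((n0 : ℤ) + ((a : ℕ) : ℤ))))
    rw [h2] at h1
    exact h1
  have hsR : (s : ℝ) = 1 ∨ (s : ℝ) = -1 := by
    rcases hs with rfl | rfl
    · left; norm_num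
    · right; norm_num
  have hhalf := prHalf78 hL hsR hF hF0 hLF
  -- the good set
  set E : ℤ → Prop := fun n => 1 ≤ n ∧ (∀ j : ℕ, j < l → muz (n + j) ^ 2 = muz (n0 + j) ^ 2) ∧
    ∏ a ∈ A, muz (n + a) = s with hE
  have hsqf : ∀ m : ℤ, 0 ≤ m → (∀ j : ℕ, j < l → ¬ ∃ p : ℕ, p.Prime ∧ y < p ∧ ((p ^ 2 : ℕ) : ℤ) ∣ Q * m + (n0 + j)) →
      ∀ j : ℕ, j < l → (Squarefree ((Q * m + n0 + j : ℤ).toNat) ↔ Squarefree ((n0 + j : ℤ).toNat)) := by
    intro m hm hB j hj
    have h1 : (n0 + j : ℤ).toNat = n0 + j := by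
      have : (n0 + j : ℤ) = ((n0 + j : ℕ) : ℤ) := by push_cast; ring
      rw [this, Int.toNat_natCast]
    have h2 : (((Q * m + n0 + j : ℤ).toNat : ℕ) : ℤ) = Q * m + n0 + j := by
      rw [Int.toNat_of_nonneg]
      have := hpos m hm j
      linarith
    have hdv : ∀ p : ℕ, p.Prime → p ≤ y → (p * p ∣ (Q * m + n0 + j : ℤ).toNat ↔ p * p ∣ (n0 + j : ℤ).toNat) := by
      intro p hp hpy
      have hd : ((p * p : ℕ) : ℤ) ∣ (Q : ℤ) * m := by
        have h3 : p * p ∣ Q := by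
          have := hQd p hp hpy
          rwa [pow_two] at this
        exact Dvd.dvd.mul_right (by exact_mod_cast h3) m
      rw [← Int.natCast_dvd_natCast, h2, h1, ← Int.natCast_dvd_natCast]
      rw [show (Q * m + n0 + j : ℤ) = Q * m + ((n0 + j : ℕ) : ℤ) by push_cast; ring]
      exact (Int.dvd_add_right hd)
    rw [Nat.squarefree_iff_prime_squarefree, Nat.squarefree_iff_prime_squarefree]
    constructor
    · intro h p hp hd
      have hpy : p ≤ y := by
        have h4 : p * p ≤ n0 + j := by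
          rw [h1] at hd
          exact Nat.le_of_dvd (by omega) hd
        have h5 : p ≤ p * p := Nat.le_mul_self p
        omega
      exact h p hp ((hdv p hp hpy).2 hd)
    · intro h p hp hd
      rcases le_or_gt p y with hpy | hpy
      · exact h p hp ((hdv p hp hpy).1 hd)
      · refine hB j hj ⟨p, hp, hpy, ?_⟩
        have h6 : ((p * p : ℕ) : ℤ) ∣ (((Q * m + n0 + j : ℤ).toNat : ℕ) : ℤ) := by exact_mod_cast hd
        rw [h2] at h6
        rw [pow_two, ← add_assoc]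
        exact h6
  have hgood : ∀ m : ℤ, F m = (s : ℝ) → ¬ m < 0 →
      (¬ ∃ j ∈ Finset.range l, ∃ p : ℕ, p.Prime ∧ y < p ∧ ((p ^ 2 : ℕ) : ℤ) ∣ Q * m + (n0 + j)) → E (Q * m + n0) := by
    intro m hFm hm hB
    have hm0 : 0 ≤ m := not_lt.1 hm
    have hB' : ∀ j : ℕ, j < l → ¬ ∃ p : ℕ, p.Prime ∧ y < p ∧ ((p ^ 2 : ℕ) : ℤ) ∣ Q * m + (n0 + j) :=
      fun j hj h => hB ⟨j, Finset.mem_range.2 hj, h⟩
    have hsq := hsqf m hm0 hB'
    refine ⟨?_, ?_, ?_⟩
    · have := hpos m hm0 0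
      push_cast at this
      linarith
    · intro j hj
      have h1 := hsq j hj
      unfold muz
      by_cases h2 : Squarefree ((n0 + j : ℤ).toNat)
      · rw [ArithmeticFunction.moebius_sq_eq_one_of_squarefree h2,
          ArithmeticFunction.moebius_sq_eq_one_of_squarefree (h1.2 h2)]
      · rw [ArithmeticFunction.moebius_eq_zero_of_not_squarefree h2,
          ArithmeticFunction.moebius_eq_zero_of_not_squarefree (fun h => h2 (h1.1 h))]
    · have h3 : ∀ a ∈ A, ((muz (Q * m + n0 + a) : ℤ) : ℝ) = lam (Q * m + (n0 + a)) := by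
        intro a ha
        obtain ⟨hal, ha0⟩ := hAl a ha
        have h4 : Squarefree ((n0 + a : ℤ).toNat) := by
          by_contra h5
          exact ha0 (ArithmeticFunction.moebius_eq_zero_of_not_squarefree h5)
        have h5 := (hsq a hal).2 h4
        have h6 := hpos m hm0 a
        unfold muz lam
        rw [ArithmeticFunction.moebius_apply_of_squarefree h5, add_assoc]
        rw [ArithmeticFunction.liouville_apply (by omega)]
        have h7 : (Q * m + (n0 + a) : ℤ).toNat = (Q * m + (n0 + a) : ℤ).natAbs := by omega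
        rw [h7]
      have h4 : ((∏ a ∈ A, muz (Q * m + n0 + a) : ℤ) : ℝ) = (s : ℝ) := by
        rw [Int.cast_prod, Finset.prod_congr rfl h3]
        exact hFm
      exact_mod_cast h4
  -- the measure of the exceptional sets
  have hbad : pr L (fun m => ∃ j ∈ Finset.range l, ∃ p : ℕ, p.Prime ∧ y < p ∧ ((p ^ 2 : ℕ) : ℤ) ∣ Q * m + (n0 + j)) ≤
      l * (4 / y) := by
    refine (pr_exists_le hL (Finset.range l) (fun (j : ℕ) (m : ℤ) => ∃ p : ℕ, p.Prime ∧ y < p ∧
      ((p ^ 2 : ℕ) : ℤ) ∣ Q * m + (n0 + j))).trans ?_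
    refine (Finset.sum_le_sum fun (j : ℕ) _ => sq_tail hL Q y ((n0 : ℤ) + (j : ℤ)) hy1 hQ0 hcop).trans ?_
    rw [Finset.sum_const, Finset.card_range, nsmul_eq_mul]
  have hcov : pr L (fun m => F m = (s : ℝ)) ≤ pr L (fun m => E (Q * m + n0)) + (pr L (fun m => m < 0) +
      pr L (fun m => ∃ j ∈ Finset.range l, ∃ p : ℕ, p.Prime ∧ y < p ∧ ((p ^ 2 : ℕ) : ℤ) ∣ Q * m + (n0 + j))) := by
    refine le_trans ?_ (add_le_add le_rfl (pr_or_le hL _ _))
    refine le_trans ?_ (pr_or_le hL _ _)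
    refine pr_mono hL fun m hm => ?_
    by_cases h1 : m < 0
    · exact Or.inr (Or.inl h1)
    · by_cases h2 : ∃ j ∈ Finset.range l, ∃ p : ℕ, p.Prime ∧ y < p ∧ ((p ^ 2 : ℕ) : ℤ) ∣ Q * m + (n0 + j)
      · exact Or.inr (Or.inr h2)
      · exact Or.inl (hgood m hm h1 h2)
  have hneg := prNeg78 hL
  have hfin : 0 < pr L (fun m => E (Q * m + n0)) := by linarith
  have hprog : pr L (fun m => E (Q * m + n0)) ≤ Q * pr L E := by
    rw [pr_def (L := L) (fun m : ℤ => E (Q * m + n0)), pr_def (L := L) E]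
    refine L_prog_le hL (f := fun n => if E n then (1 : ℝ) else 0) (bdInd78 E) (fun n => ?_) hQ0 (n0 : ℤ)
    split_ifs <;> norm_num
  have hQR : (0 : ℝ) < Q := by exact_mod_cast hQ0
  by_contra hcon
  have h5 : pr L E ≤ 0 := not_lt.1 hcon
  have h6 : (Q : ℝ) * pr L E ≤ 0 := mul_nonpos_of_nonneg_of_nonpos hQR.le h5
  linarith

end Pool.Agent.Lib.TU
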