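import Mathlib

/-!
# TU / Pat (F3): sets of sign vectors which are not in a proper affine subspace
PROOF. Signs as elements of `ZMod 2`: `v i = if w i = 1 then 0 else 1`. If `P.card ≤ r = card ι`: fix `w0 ∈ P`; the linear map
`a ↦ (∑ i, a i * (v w - v w0) i)_w`, `w ∈ P`, `w ≠ w0`, from a space of dimension `r` to one of dimension at most `r - 1` has a
nonzero vector `a` in its kernel; with `A` its support, nonempty, `∏_{i ∈ A} w i` is the same for all `w ∈ P`: contradiction.
-/

set_option autoImplicit false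

open Finset

namespace Pool.Agent.Lib.TU

/-- the sign of a residue modulo 2 -/
private def pc (z : ZMod 2) : ℤ := if z = 0 then 1 else -1

private theorem pc_add : ∀ a b : ZMod 2, pc (a + b) = pc a * pc b := by decide

/-- the residue of a sign -/
private def pv (x : ℤ) : ZMod 2 := if x = 1 then 0 else 1

private theorem pc_pv {x : ℤ} (h : x = 1 ∨ x = -1) : pc (pv x) = x := by
  rcases h with rfl | rfl
  · decide
  · decide

private theorem pc_sum {ι : Type} [DecidableEq ι] (A : Finset ι) (f : ι → ZMod 2) :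
    pc (∑ i ∈ A, f i) = ∏ i ∈ A, pc (f i) := by
  induction A using Finset.induction_on with
  | empty =>
    rw [sum_empty, prod_empty]
    decide
  | insert a s ha ih => rw [sum_insert ha, prod_insert ha, pc_add, ih]

theorem card_patterns {ι : Type} [Fintype ι] [DecidableEq ι] (P : Finset (ι → ℤ)) (hP : ∀ w ∈ P, ∀ i, w i = 1 ∨ w i = -1) (hne : P.Nonempty)
    (h : ∀ A : Finset ι, A.Nonempty → ∀ s : ℤ, s = 1 ∨ s = -1 → ∃ w ∈ P, ∏ i ∈ A, w i = s) : Fintype.card ι + 1 ≤ P.card := by
  classical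
  by_contra hcon
  obtain ⟨w0, hw0⟩ := hne
  let Q : Finset (ι → ℤ) := P.erase w0
  let Φ : (ι → ZMod 2) →ₗ[ZMod 2] (Q → ZMod 2) :=
    { toFun := fun a w => ∑ i, a i * (pv ((w : ι → ℤ) i) - pv (w0 i))
      map_add' := fun a b => by
        funext w
        simp only [Pi.add_apply, add_mul, sum_add_distrib]
      map_smul' := fun c a => by
        funext w
        simp only [Pi.smul_apply, smul_eq_mul, mul_assoc, mul_sum, RingHom.id_apply] }
  have hlt : Module.finrank (ZMod 2) (Q → ZMod 2) < Module.finrank (ZMod 2) (ι → ZMod 2) := by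
    rw [Module.finrank_fintype_fun_eq_card, Module.finrank_fintype_fun_eq_card, Fintype.card_coe, card_erase_of_mem hw0]
    have : 0 < P.card := card_pos.mpr ⟨w0, hw0⟩
    omega
  obtain ⟨a, ha, ha0⟩ := (Submodule.ne_bot_iff _).mp (LinearMap.ker_ne_bot_of_finrank_lt (f := Φ) hlt)
  let A : Finset ι := univ.filter fun i => a i ≠ 0
  have hA : A.Nonempty := by
    obtain ⟨i, hi⟩ := Function.ne_iff.mp ha0
    exact ⟨i, mem_filter.mpr ⟨mem_univ i, hi⟩⟩
  have key : ∀ w ∈ P, ∏ i ∈ A, w i = ∏ i ∈ A, w0 i := by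
    intro w hw
    by_cases hww : w = w0
    · rw [hww]
    have h1 : ∑ i, a i * (pv (w i) - pv (w0 i)) = 0 := congrFun (LinearMap.mem_ker.mp ha) ⟨w, mem_erase.mpr ⟨hww, hw⟩⟩
    have h2 : ∑ i ∈ A, (pv (w i) - pv (w0 i)) = 0 := by
      rw [← h1, ← sum_filter_add_sum_filter_not univ (fun i => a i ≠ 0) (fun i => a i * (pv (w i) - pv (w0 i)))]
      have e1 : ∑ i ∈ univ.filter (fun i => ¬ a i ≠ 0), a i * (pv (w i) - pv (w0 i)) = 0 := by
        refine sum_eq_zero fun i hi => ?_
        rw [not_not.mp (mem_filter.mp hi).2, zero_mul]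
      rw [e1, add_zero]
      refine sum_congr rfl fun i hi => ?_
      have h3 : ∀ z : ZMod 2, z ≠ 0 → z = 1 := by decide
      rw [h3 _ (mem_filter.mp hi).2, one_mul]
    rw [sum_sub_distrib, sub_eq_zero] at h2
    have h4 := congrArg pc h2
    rw [pc_sum, pc_sum] at h4
    rw [prod_congr rfl fun i _ => pc_pv (hP w hw i), prod_congr rfl fun i _ => pc_pv (hP w0 hw0 i)] at h4
    exact h4
  obtain ⟨w1, hw1, e1⟩ := h A hA 1 (Or.inl rfl)
  obtain ⟨w2, hw2, e2⟩ := h A hA (-1) (Or.inr rfl)
  rw [key w1 hw1] at e1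
  rw [key w2 hw2, e1] at e2
  exact absurd e2 (by decide)

end Pool.Agent.Lib.TU
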