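import Pool.Agent.Lib.TU.Basic

/-!
# TU / Ssa (E2): strong subadditivity
-/

set_option autoImplicit false

open Finset

namespace Pool.Agent.Lib.TU

variable {L : (ℤ → ℝ) →ₗ[ℝ] ℝ} {α β γ : Type} [Fintype α] [Fintype β] [Fintype γ]

private theorem ssa_term {x y z w : ℝ} (hx : 0 ≤ x) (hy : x ≤ y) (hz : x ≤ z) (hw : y ≤ w) :
    x * (Real.log y + Real.log z - Real.log x - Real.log w) ≤ y * z / w - x := by
  rcases hx.eq_or_lt with h | h
  · subst h
    rw [zero_mul, sub_zero]
    have h1 : 0 ≤ w := hy.trans hw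
    positivity
  · have hy0 : 0 < y := h.trans_le hy
    have hz0 : 0 < z := h.trans_le hz
    have hw0 : 0 < w := hy0.trans_le hw
    have h1 : Real.log y + Real.log z - Real.log x - Real.log w = Real.log (y * z / (x * w)) := by
      rw [Real.log_div (by positivity) (by positivity), Real.log_mul hy0.ne' hz0.ne',
        Real.log_mul h.ne' hw0.ne']
      ring
    rw [h1]
    have h2 := Real.log_le_sub_one_of_pos (show 0 < y * z / (x * w) by positivity)
    have h3 := mul_le_mul_of_nonneg_left h2 h.le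
    have h4 : x * (y * z / (x * w) - 1) = y * z / w - x := by
      field_simp
    linarith

private theorem ssa_real (x : α → β → γ → ℝ) (hx : ∀ a b c, 0 ≤ x a b c) :
    ∑ a, ∑ b, ∑ c, Real.negMulLog (x a b c) + ∑ c, Real.negMulLog (∑ a, ∑ b, x a b c) ≤
      ∑ a, ∑ c, Real.negMulLog (∑ b, x a b c) + ∑ b, ∑ c, Real.negMulLog (∑ a, x a b c) := by
  have key : ∑ a, ∑ b, ∑ c, x a b c * (Real.log (∑ b', x a b' c) + Real.log (∑ a', x a' b c) -
      Real.log (x a b c) - Real.log (∑ a', ∑ b', x a' b' c)) ≤ 0 := by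
    calc _ ≤ ∑ a, ∑ b, ∑ c, ((∑ b', x a b' c) * (∑ a', x a' b c) / (∑ a', ∑ b', x a' b' c) -
          x a b c) := by
          refine sum_le_sum fun a _ => sum_le_sum fun b _ => sum_le_sum fun c _ => ?_
          refine ssa_term (hx a b c) ?_ ?_ ?_
          · exact single_le_sum (f := fun b' => x a b' c) (fun b' _ => hx a b' c) (mem_univ b)
          · exact single_le_sum (f := fun a' => x a' b c) (fun a' _ => hx a' b c) (mem_univ a)
          · exact single_le_sum (f := fun a' => ∑ b', x a' b' c)
              (fun a' _ => sum_nonneg fun b' _ => hx a' b' c) (mem_univ a)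
      _ = 0 := by
          have h1 : ∑ a, ∑ b, ∑ c, ((∑ b', x a b' c) * (∑ a', x a' b c) /
              (∑ a', ∑ b', x a' b' c)) = ∑ c, ∑ a', ∑ b', x a' b' c := by
            have : ∑ a, ∑ b, ∑ c, ((∑ b', x a b' c) * (∑ a', x a' b c) /
                (∑ a', ∑ b', x a' b' c)) = ∑ c, ∑ a, ∑ b, ((∑ b', x a b' c) * (∑ a', x a' b c) /
                (∑ a', ∑ b', x a' b' c)) := by
              rw [sum_comm' (s := (univ : Finset γ)) (t := fun _ => (univ : Finset α))
                (t' := (univ : Finset α)) (s' := fun _ => (univ : Finset γ)) (by simp)]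
              exact sum_congr rfl fun a _ => sum_comm
            rw [this]
            refine sum_congr rfl fun c _ => ?_
            have h2 : ∑ a, ∑ b, ((∑ b', x a b' c) * (∑ a', x a' b c) /
                (∑ a', ∑ b', x a' b' c)) = (∑ a, ∑ b', x a b' c) * (∑ b, ∑ a', x a' b c) /
                (∑ a', ∑ b', x a' b' c) := by
              rw [sum_mul_sum, sum_div]
              exact sum_congr rfl fun a _ => by rw [sum_div]
            rw [h2, sum_comm (f := fun b a' => x a' b c)]
            by_cases h0 : (∑ a', ∑ b', x a' b' c) = 0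
            · rw [h0]; simp
            · rw [mul_div_assoc, div_self h0, mul_one]
          have h3 : ∑ a, ∑ b, ∑ c, x a b c = ∑ c, ∑ a', ∑ b', x a' b' c := by
            rw [sum_comm' (s := (univ : Finset γ)) (t := fun _ => (univ : Finset α))
              (t' := (univ : Finset α)) (s' := fun _ => (univ : Finset γ)) (by simp)]
            exact sum_congr rfl fun a _ => sum_comm
          simp only [sum_sub_distrib]
          rw [h1, h3, sub_self]
  have e1 : ∑ a, ∑ c, Real.negMulLog (∑ b, x a b c) =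
      -∑ a, ∑ b, ∑ c, x a b c * Real.log (∑ b', x a b' c) := by
    rw [← sum_neg_distrib]
    refine sum_congr rfl fun a _ => ?_
    rw [sum_comm, ← sum_neg_distrib]
    refine sum_congr rfl fun c _ => ?_
    rw [Real.negMulLog, ← sum_mul]
    ring
  have e2 : ∑ b, ∑ c, Real.negMulLog (∑ a, x a b c) =
      -∑ a, ∑ b, ∑ c, x a b c * Real.log (∑ a', x a' b c) := by
    rw [sum_comm (γ := α), ← sum_neg_distrib]
    refine sum_congr rfl fun b _ => ?_
    rw [sum_comm, ← sum_neg_distrib]
    refine sum_congr rfl fun c _ => ?_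
    rw [Real.negMulLog, ← sum_mul]
    ring
  have e3 : ∑ a, ∑ b, ∑ c, Real.negMulLog (x a b c) =
      -∑ a, ∑ b, ∑ c, x a b c * Real.log (x a b c) := by
    simp only [← sum_neg_distrib, Real.negMulLog, neg_mul]
  have e4 : ∑ c, Real.negMulLog (∑ a, ∑ b, x a b c) =
      -∑ a, ∑ b, ∑ c, x a b c * Real.log (∑ a', ∑ b', x a' b' c) := by
    have h3 : ∑ a, ∑ b, ∑ c, x a b c * Real.log (∑ a', ∑ b', x a' b' c) =
        ∑ c, ∑ a, ∑ b, x a b c * Real.log (∑ a', ∑ b', x a' b' c) := by
      rw [sum_comm' (s := (univ : Finset γ)) (t := fun _ => (univ : Finset α))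
        (t' := (univ : Finset α)) (s' := fun _ => (univ : Finset γ)) (by simp)]
      exact sum_congr rfl fun a _ => sum_comm
    rw [h3, ← sum_neg_distrib]
    refine sum_congr rfl fun c _ => ?_
    rw [Real.negMulLog, neg_mul, neg_inj, sum_mul]
    exact sum_congr rfl fun a _ => by rw [sum_mul]
  simp only [mul_sub, mul_add, sum_sub_distrib, sum_add_distrib] at key
  rw [e1, e2, e3, e4]
  linarith

private theorem pr3 (f : ℤ → α) (g : ℤ → β) (h : ℤ → γ) :
    ent L (fun n => (f n, g n, h n)) =
      ∑ a, ∑ b, ∑ c, Real.negMulLog (pr L (fun n => f n = a ∧ g n = b ∧ h n = c)) := by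
  unfold ent
  rw [Fintype.sum_prod_type]
  refine sum_congr rfl fun a _ => ?_
  rw [Fintype.sum_prod_type]
  refine sum_congr rfl fun b _ => sum_congr rfl fun c _ => ?_
  congr 2
  ext n
  simp only [Prod.mk.injEq]

private theorem pr2 (f : ℤ → α) (h : ℤ → γ) :
    ent L (fun n => (f n, h n)) =
      ∑ a, ∑ c, Real.negMulLog (pr L (fun n => f n = a ∧ h n = c)) := by
  unfold ent
  rw [Fintype.sum_prod_type]
  refine sum_congr rfl fun a _ => sum_congr rfl fun c _ => ?_
  congr 2
  ext n
  simp only [Prod.mk.injEq]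

theorem ssa (hL : IsMean L) (f : ℤ → α) (g : ℤ → β) (h : ℤ → γ) :
    ent L (fun n => (f n, g n, h n)) + ent L h ≤ ent L (fun n => (f n, h n)) + ent L (fun n => (g n, h n)) := by
  have key := ssa_real (fun a b c => pr L (fun n => f n = a ∧ g n = b ∧ h n = c))
    (fun a b c => pr_nonneg hL _)
  have m1 : ∀ a c, ∑ b, pr L (fun n => f n = a ∧ g n = b ∧ h n = c) =
      pr L (fun n => f n = a ∧ h n = c) := by
    intro a c
    rw [← sum_pr_and g (fun n => f n = a ∧ h n = c)]
    exact sum_congr rfl fun b _ => pr_congr fun n => by tauto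
  have m2 : ∀ b c, ∑ a, pr L (fun n => f n = a ∧ g n = b ∧ h n = c) =
      pr L (fun n => g n = b ∧ h n = c) := by
    intro b c
    exact sum_pr_and f (fun n => g n = b ∧ h n = c)
  have m3 : ∀ c, ∑ a, pr L (fun n => f n = a ∧ h n = c) = pr L (fun n => h n = c) :=
    fun c => sum_pr_and f (fun n => h n = c)
  simp only [m1, m2, m3] at key
  rw [pr3, pr2, pr2]
  exact key

theorem subadd (hL : IsMean L) (f : ℤ → α) (g : ℤ → β) : ent L (fun n => (f n, g n)) ≤ ent L f + ent L g := by
  have h := ssa hL f g (fun _ => ())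
  have h0 : ent L (fun _ : ℤ => ()) = 0 := by
    unfold ent
    have h1 := pr_true hL
    simp [h1]
  have e1 : ent L (fun n => (f n, g n, ())) = ent L (fun n => (f n, g n)) := by
    rw [pr3, pr2]
    simp
  have e2 : ∀ {δ : Type} [Fintype δ] (k : ℤ → δ), ent L (fun n => (k n, ())) = ent L k := by
    intro δ _ k
    rw [pr2]
    unfold ent
    simp
  rw [e1, h0, e2, e2] at h
  linarith

end Pool.Agent.Lib.TU
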