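import Pool.Agent.Lib.TU.Ent
import Pool.Agent.Lib.TU.Ssa

/-!
# TU / Res (E4): residues modulo products of distinct primes
-/

set_option autoImplicit false

open Finset

namespace Pool.Agent.Lib.TU

variable {L : (ℤ → ℝ) →ₗ[ℝ] ℝ} {α β γ : Type} [Fintype α] [Fintype β] [Fintype γ]

private theorem res_val {q : ℕ} (hq : 0 < q) (n : ℤ) : (res q n : ℕ) = (n % q).toNat := by
  have hq' : (0 : ℤ) < q := by exact_mod_cast hq
  have h1 := Int.emod_lt_of_pos n hq'
  have h2 := Int.emod_nonneg n hq'.ne'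
  unfold res
  rw [Fin.val_ofNat, Nat.mod_eq_of_lt]
  omega

theorem res_eq_iff {q : ℕ} (hq : 0 < q) (m n : ℤ) : res q m = res q n ↔ (q : ℤ) ∣ m - n := by
  have hq' : (0 : ℤ) < q := by exact_mod_cast hq
  have h2 := Int.emod_nonneg n hq'.ne'
  have h3 := Int.emod_nonneg m hq'.ne'
  rw [Fin.ext_iff, res_val hq, res_val hq]
  have h4 : (m % (q : ℤ)).toNat = (n % (q : ℤ)).toNat ↔ m % (q : ℤ) = n % (q : ℤ) := by omega
  rw [h4, Int.emod_eq_emod_iff_emod_sub_eq_zero]
  exact (Int.dvd_iff_emod_eq_zero).symm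

private theorem res_nat {q : ℕ} (i : Fin q) : res q ((i : ℕ) : ℤ) = i.castSucc := by
  have hq : 0 < q := lt_of_le_of_lt (Nat.zero_le _) i.2
  rw [Fin.ext_iff, res_val hq, Fin.val_castSucc, Int.emod_eq_of_lt (by positivity) (by exact_mod_cast i.2),
    Int.toNat_natCast]

private theorem pr_res (hL : IsMean L) {q : ℕ} (i : Fin q) : pr L (fun n => res q n = i.castSucc) = 1 / q := by
  have hq : 0 < q := lt_of_le_of_lt (Nat.zero_le _) i.2
  rw [← pr_mod hL hq ((i : ℕ) : ℤ)]
  refine pr_congr fun n => ?_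
  rw [← res_nat, res_eq_iff hq]

private theorem pr_last (hL : IsMean L) {q : ℕ} (hq : 0 < q) : pr L (fun n => res q n = Fin.last q) = 0 := by
  have h1 : pr L (fun n => res q n = Fin.last q) = pr L (fun _ => ¬ True) := by
    refine pr_congr fun n => ⟨fun h => ?_, fun h => absurd trivial h⟩
    exfalso
    have hq' : (0 : ℤ) < q := by exact_mod_cast hq
    have h1 := Int.emod_lt_of_pos n hq'
    have h2 := Int.emod_nonneg n hq'.ne'
    rw [Fin.ext_iff, res_val hq, Fin.val_last] at h
    omega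
  rw [h1, pr_not hL, pr_true hL, sub_self]

/-- the mean over the residues -/
theorem sum_res (hL : IsMean L) {q : ℕ} (hq : 0 < q) (ψ : Fin (q + 1) → ℝ) :
    ∑ b, ψ b * pr L (fun n => res q n = b) = (∑ i ∈ range q, ψ (res q (i : ℤ))) / q := by
  rw [Fin.sum_univ_castSucc, pr_last hL hq, mul_zero, add_zero]
  have h1 : ∑ i : Fin q, ψ i.castSucc * pr L (fun n => res q n = i.castSucc) = ∑ i : Fin q, ψ (res q ((i : ℕ) : ℤ)) / q :=
    Finset.sum_congr rfl fun i _ => by rw [pr_res hL, res_nat, mul_one_div]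
  rw [h1, Fin.sum_univ_eq_sum_range (fun i : ℕ => ψ (res q (i : ℤ)) / q) q, Finset.sum_div]

theorem ent_res (hL : IsMean L) {q : ℕ} (hq : 0 < q) : ent L (res q) = Real.log q := by
  have hq' : (0 : ℝ) < q := by exact_mod_cast hq
  unfold ent
  rw [Fin.sum_univ_castSucc, pr_last hL hq, Real.negMulLog_zero, add_zero]
  have h1 : ∑ i : Fin q, Real.negMulLog (pr L (fun n => res q n = i.castSucc)) = ∑ _i : Fin q, Real.log q / q :=
    Finset.sum_congr rfl fun i _ => by
      rw [pr_res hL, Real.negMulLog, one_div, Real.log_inv]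
      field_simp
  rw [h1, Finset.sum_const, Finset.card_univ, Fintype.card_fin, nsmul_eq_mul]
  field_simp

theorem infsum (hL : IsMean L) (x : ℤ → α) (S : Finset ℕ) (hS : ∀ p ∈ S, p.Prime) :
    ∑ p ∈ S, inf2 L x (res p) ≤ inf2 L x (res (∏ p ∈ S, p)) := by
  classical
  induction S using Finset.induction_on with
  | empty =>
    rw [Finset.sum_empty, Finset.prod_empty]
    have h1 := subadd hL x (res 1)
    unfold inf2
    linarith
  | insert p S hp ih =>
    have hpp : p.Prime := hS p (Finset.mem_insert_self _ _)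
    have hS' : ∀ l ∈ S, l.Prime := fun l hl => hS l (Finset.mem_insert_of_mem hl)
    have h1 := ih hS'
    have hP : 0 < ∏ l ∈ S, l := Finset.prod_pos fun l hl => (hS' l hl).pos
    have hcop : p.Coprime (∏ l ∈ S, l) := Nat.Coprime.prod_right fun l hl =>
      (Nat.coprime_primes hpp (hS' l hl)).2 fun h => hp (h ▸ hl)
    rw [Finset.sum_insert hp, Finset.prod_insert hp]
    refine (add_le_add le_rfl h1).trans ?_
    generalize (∏ l ∈ S, l) = P at hP hcop
    have hpP : 0 < p * P := Nat.mul_pos hpp.pos hP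
    have e1 : ent L (fun n => (x n, res (p * P) n)) = ent L (fun n => (res p n, res P n, x n)) := by
      refine ent_congr hL _ _ fun m n => ?_
      simp only [Prod.mk.injEq]
      rw [res_eq_iff hpP, res_eq_iff hpp.pos, res_eq_iff hP]
      have h2 : ((p * P : ℕ) : ℤ) ∣ m - n ↔ (p : ℤ) ∣ m - n ∧ (P : ℤ) ∣ m - n := by
        push_cast
        constructor
        · intro h
          exact ⟨dvd_of_mul_right_dvd h, dvd_of_mul_left_dvd h⟩
        · rintro ⟨ha, hb⟩
          exact IsCoprime.mul_dvd (Nat.isCoprime_iff_coprime.2 hcop) ha hb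
      rw [h2]
      tauto
    have e2 : ent L (fun n => (x n, res p n)) = ent L (fun n => (res p n, x n)) :=
      ent_congr hL _ _ fun m n => by
        simp only [Prod.mk.injEq]
        exact and_comm
    have e3 : ent L (fun n => (x n, res P n)) = ent L (fun n => (res P n, x n)) :=
      ent_congr hL _ _ fun m n => by
        simp only [Prod.mk.injEq]
        exact and_comm
    have h3 := ssa hL (res p) (res P) x
    unfold inf2
    rw [e1, e2, e3, ent_res hL hpP, ent_res hL hpp.pos, ent_res hL hP, Nat.cast_mul,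
      Real.log_mul (by exact_mod_cast hpp.ne_zero) (by exact_mod_cast hP.ne')]
    linarith

end Pool.Agent.Lib.TU
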