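import Pool.Agent.Lib.TU.Ent
import Pool.Agent.Lib.TU.Ssa
import Pool.Agent.Lib.TU.Res

/-!
# TU / Wind (E5): long windows
-/

set_option autoImplicit false

open Finset

namespace Pool.Agent.Lib.TU

variable {L : (ℤ → ℝ) →ₗ[ℝ] ℝ} {α β γ : Type} [Fintype α] [Fintype β] [Fintype γ]

private theorem win_eq_iff {δ : Type} (ξ : ℤ → δ) (K : ℕ) (m n : ℤ) :
    win ξ K m = win ξ K n ↔ ∀ j : ℕ, j < K → ξ (m + (j : ℤ)) = ξ (n + (j : ℤ)) := by
  constructor
  · intro h j hj
    exact congrFun h ⟨j, hj⟩
  · intro h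
    funext j
    exact h j j.2

private theorem wind_step (hL : IsMean L) (ξ : ℤ → α) (l K P : ℕ) (hP : 0 < P) :
    ent L (fun n => (win ξ ((K + 1) * l) n, res P n)) + Real.log P ≤
      ent L (fun n => (win ξ (K * l) n, res P n)) + ent L (fun n => (win ξ l n, res P n)) := by
  have h1 := ssa hL (win ξ (K * l)) (fun n => win ξ l (n + ((K * l : ℕ) : ℤ))) (res P)
  have e1 : ent L (fun n => (win ξ ((K + 1) * l) n, res P n)) =
      ent L (fun n => (win ξ (K * l) n, win ξ l (n + ((K * l : ℕ) : ℤ)), res P n)) := by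
    refine ent_congr hL _ _ fun m n => ?_
    simp only [Prod.mk.injEq, win_eq_iff]
    have h2 : (∀ j : ℕ, j < (K + 1) * l → ξ (m + (j : ℤ)) = ξ (n + (j : ℤ))) ↔
        (∀ j : ℕ, j < K * l → ξ (m + (j : ℤ)) = ξ (n + (j : ℤ))) ∧
        ∀ j : ℕ, j < l → ξ (m + ((K * l : ℕ) : ℤ) + (j : ℤ)) = ξ (n + ((K * l : ℕ) : ℤ) + (j : ℤ)) := by
      have h3 : (K + 1) * l = K * l + l := Nat.succ_mul K l
      rw [h3]
      constructor
      · intro h
        refine ⟨fun j hj => h j (by omega), fun j hj => ?_⟩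
        have h4 := h (K * l + j) (by omega)
        rw [Nat.cast_add, ← add_assoc, ← add_assoc] at h4
        exact h4
      · rintro ⟨ha, hb⟩ j hj
        rcases lt_or_ge j (K * l) with h | h
        · exact ha j h
        · have h4 := hb (j - K * l) (by omega)
          rw [Nat.cast_sub h, add_assoc, add_assoc, add_sub_cancel] at h4
          exact h4
    rw [h2]
    exact and_assoc
  have e2 : ent L (fun n => (win ξ l (n + ((K * l : ℕ) : ℤ)), res P n)) = ent L (fun n => (win ξ l n, res P n)) := by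
    rw [← ent_shift hL (fun n => (win ξ l n, res P n)) ((K * l : ℕ) : ℤ)]
    refine ent_congr hL _ _ fun m n => ?_
    simp only [Prod.mk.injEq, res_eq_iff hP]
    rw [show m + ((K * l : ℕ) : ℤ) - (n + ((K * l : ℕ) : ℤ)) = m - n by ring]
  rw [ent_res hL hP, e2] at h1
  rw [e1]
  exact h1

theorem window (hL : IsMean L) (ξ : ℤ → α) (l K P : ℕ) (hP : 0 < P) :
    ent L (win ξ (K * l)) ≤ Real.log P + K * (ent L (win ξ l) - inf2 L (win ξ l) (res P)) := by
  have h1 : ∀ K : ℕ, ent L (fun n => (win ξ (K * l) n, res P n)) - Real.log P ≤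
      K * (ent L (fun n => (win ξ l n, res P n)) - Real.log P) := by
    intro K
    induction K with
    | zero =>
      have h2 : ent L (fun n => (win ξ (0 * l) n, res P n)) = ent L (res P) := by
        refine ent_congr hL _ _ fun m n => ?_
        simp only [Prod.mk.injEq, win_eq_iff]
        refine ⟨fun h => h.2, fun h => ⟨fun j hj => ?_, h⟩⟩
        rw [Nat.zero_mul] at hj
        exact absurd hj (Nat.not_lt_zero _)
      rw [h2, ent_res hL hP, sub_self]
      push_cast
      rw [zero_mul]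
    | succ K ih =>
      have h3 := wind_step hL ξ l K P hP
      push_cast
      linarith
  have h4 := h1 K
  have h5 := ent_comp_le hL (fun n => (win ξ (K * l) n, res P n)) Prod.fst
  have h6 : ent L (win ξ l) - inf2 L (win ξ l) (res P) = ent L (fun n => (win ξ l n, res P n)) - Real.log P := by
    unfold inf2
    rw [ent_res hL hP]
    ring
  rw [h6]
  have h7 : ent L (fun n => Prod.fst ((fun n => (win ξ (K * l) n, res P n)) n)) = ent L (win ξ (K * l)) := rfl
  rw [h7] at h5
  linarith

end Pool.Agent.Lib.TU
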